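import Pool.Agent.RGs.Flow

/-!
# Few random columns have corank one and light closure (section A of the text)
-/

set_option autoImplicit false

namespace Pool.Agent.RGs

open Finset Pool.Agent.RotaP Pool.Agent.RGi

private theorem a1_cnt {α α' β : Type*} [DecidableEq β] (A : Finset α) (A' : Finset α') (f : α → β)
    (g : α' → β) (T : Finset β) (hT : ∀ x ∈ A, f x ∈ T) :
    ((A ×ˢ A').filter (fun p => f p.1 = g p.2)).card =
      ∑ b ∈ T, (A.filter (fun x => f x = b)).card * (A'.filter (fun x => g x = b)).card := by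
  classical
  rw [card_eq_sum_card_fiberwise (f := fun p : α × α' => f p.1) (t := T)]
  · refine sum_congr rfl fun b _ => ?_
    rw [← card_product]
    congr 1
    ext ⟨x, y⟩
    simp only [mem_filter, mem_product]
    constructor
    · rintro ⟨⟨⟨h1, h2⟩, h3⟩, h4⟩
      exact ⟨⟨h1, h4⟩, ⟨h2, h3.symm.trans h4⟩⟩
    · rintro ⟨⟨h1, h4⟩, ⟨h2, h3⟩⟩
      exact ⟨⟨⟨h1, h2⟩, h4.trans h3.symm⟩, h4⟩
  · intro p hp
    have h1 := (mem_product.1 (mem_filter.1 (mem_coe.1 hp)).1).1
    exact mem_coe.2 (hT _ h1)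

/-- [a1] Proof: with `a b = |{x ∈ A : f x = b}|`, `a' b = |{x ∈ A' : g x = b}|` (`b` in the image of `A` or `A'`) the three numbers are
`∑ a a'`, `∑ a²`, `∑ a'²` and `2 a a' ≤ a² + a'²`. -/
theorem amgm {α α' β : Type*} [DecidableEq β] (A : Finset α) (A' : Finset α') (f : α → β) (g : α' → β) :
    2 * ((A ×ˢ A').filter (fun p => f p.1 = g p.2)).card ≤
      ((A ×ˢ A).filter (fun p => f p.1 = f p.2)).card +
        ((A' ×ˢ A').filter (fun p => g p.1 = g p.2)).card := by
  classical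
  set T : Finset β := A.image f ∪ A'.image g with hT
  have hA : ∀ x ∈ A, f x ∈ T := fun x hx => mem_union_left _ (mem_image_of_mem _ hx)
  have hA' : ∀ x ∈ A', g x ∈ T := fun x hx => mem_union_right _ (mem_image_of_mem _ hx)
  rw [a1_cnt A A' f g T hA, a1_cnt A A f f T hA, a1_cnt A' A' g g T hA', mul_sum,
    ← sum_add_distrib]
  refine sum_le_sum fun b _ => ?_
  nlinarith [sq_nonneg (((A.filter (fun x => f x = b)).card : ℤ) -
    ((A'.filter (fun x => g x = b)).card : ℤ)), two_mul_le_add_sq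
      ((A.filter (fun x => f x = b)).card) ((A'.filter (fun x => g x = b)).card)]

/-- the elements of the column `z` without the ones of the rows `m`, `m'` -/
def Zee {n : ℕ} (z : Fin n → Fin n) (m m' : Fin n) : Finset (Fin n × Fin n) :=
  ((univ.erase m).erase m').image (fun i => (i, z i))

/-- [a2] -/
theorem Zee_comm {n : ℕ} (z : Fin n → Fin n) (m m' : Fin n) : Zee z m m' = Zee z m' m := by
  unfold Zee
  rw [erase_right_comm]

private theorem a2_mem {n : ℕ} {z : Fin n → Fin n} {m m' : Fin n} {e : Fin n × Fin n} :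
    e ∈ Zee z m m' ↔ e.1 ≠ m ∧ e.1 ≠ m' ∧ z e.1 = e.2 := by
  unfold Zee
  rw [mem_image]
  constructor
  · rintro ⟨i, hi, rfl⟩
    rw [mem_erase, mem_erase] at hi
    exact ⟨hi.2.1, hi.1, rfl⟩
  · rintro ⟨h1, h2, h3⟩
    exact ⟨e.1, mem_erase.2 ⟨h2, mem_erase.2 ⟨h1, mem_univ _⟩⟩, Prod.ext rfl h3⟩

/-- [a2] -/
theorem Ze_update' {n : ℕ} (z : Fin n → Fin n) {m m' : Fin n} (h : m ≠ m') (x' : Fin n) :
    Ze (Function.update z m' x') m = insert (m', x') (Zee z m m') := by
  ext e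
  rw [mem_Ze, mem_insert, a2_mem]
  constructor
  · rintro ⟨h1, h2⟩
    by_cases h3 : e.1 = m'
    · left
      rw [h3, Function.update_self] at h2
      exact Prod.ext h3 h2.symm
    · right
      rw [Function.update_of_ne h3] at h2
      exact ⟨h1, h3, h2⟩
  · rintro (rfl | ⟨h1, h3, h2⟩)
    · exact ⟨fun h' => h h'.symm, Function.update_self _ _ _⟩
    · exact ⟨h1, by rw [Function.update_of_ne h3]; exact h2⟩

/-- [a2] -/
theorem Ze_update2 {n : ℕ} (z : Fin n → Fin n) {m m' : Fin n} (h : m ≠ m') (x x' : Fin n) :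
    Ze (Function.update (Function.update z m x) m' x') m = insert (m', x') (Zee z m m') ∧
    Ze (Function.update (Function.update z m x) m' x') m' = insert (m, x) (Zee z m m') ∧
    Zs (Function.update (Function.update z m x) m' x') =
      insert (m, x) (insert (m', x') (Zee z m m')) := by
  have h1 : Ze (Function.update (Function.update z m x) m' x') m = insert (m', x') (Zee z m m') := by
    rw [Function.update_comm h, Ze_update, Ze_update' z h]
  refine ⟨h1, ?_, ?_⟩
  · rw [Ze_update, Ze_update' z h.symm, Zee_comm]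
  · rw [Zs_insert _ m, h1, Function.update_of_ne h, Function.update_self]

namespace Cd

variable {n : ℕ} (D : Cd n)

/-- [a2] `Bc` depends only on the closure. -/
theorem Bc_congr {X Y : Finset (Fin n × Fin n)} (h : cl D.R X = cl D.R Y) (c : Fin n) :
    D.Bc c X = D.Bc c Y := by
  unfold Bc bm
  rw [h]

/-- [a3] Resampling one coordinate (`swap` with `G z x = G' (update z m x)`, `update (update z m x) m (z m) = z`). -/
theorem resample1 (c m : Fin n) (G : (Fin n → Fin n) → ℝ) :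
    ∑ z ∈ D.Om c, ∑ x ∈ D.S c m, G (Function.update z m x) =
      ((D.S c m).card : ℝ) * ∑ z ∈ D.Om c, G z := by
  rw [D.swap c m (fun z x => G (Function.update z m x)), mul_sum]
  refine sum_congr rfl fun z _ => ?_
  simp only [Function.update_idem, Function.update_eq_self]
  rw [sum_const, nsmul_eq_mul]

/-- [a3] Resampling two coordinates (`resample1` twice). -/
theorem resample2 (c : Fin n) {m m' : Fin n} (hm : m ∈ D.F c) (hm' : m' ∈ D.F c)
    (G : (Fin n → Fin n) → ℝ) :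
    ∑ z ∈ D.Om c, ∑ x ∈ D.S c m, ∑ x' ∈ D.S c m',
        G (Function.update (Function.update z m x) m' x') =
      (D.N : ℝ) ^ 2 * ∑ z ∈ D.Om c, G z := by
  have h1 := D.resample1 c m (fun z => ∑ x' ∈ D.S c m', G (Function.update z m' x'))
  have h2 := D.resample1 c m' G
  rw [D.card_S hm] at h1
  rw [D.card_S hm'] at h2
  rw [h1, h2]
  ring

/-- `X` has rank `n - 1` and light closure -/
def Lt (c : Fin n) (X : Finset (Fin n × Fin n)) : Prop :=
  D.R.r X + 1 = n ∧ 2 * D.Bc c X ≤ D.N * D.N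

open Classical in
/-- indicator of: `z ∈ A1 c` and neither `m` nor `m'` is a coloop of `z` -/
noncomputable def pr (c m m' : Fin n) (z : Fin n → Fin n) : ℝ :=
  if z ∈ D.A1 c ∧ D.R.r (Ze z m) = D.rk z ∧ D.R.r (Ze z m') = D.rk z then 1 else 0

open Classical in
/-- number of free elements of row `m'` in the closure of `Z - z_m`, if it is light of rank `n - 1` -/
noncomputable def gg (c m m' : Fin n) (z : Fin n → Fin n) : ℝ :=
  if D.Lt c (Ze z m) then (D.bm (Ze z m) m' : ℝ) else 0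

private theorem a4_cl {w : Fin n → Fin n} {m : Fin n} (h : D.R.r (Ze w m) = D.rk w) :
    cl D.R (Ze w m) = cl D.R (Zs w) :=
  ((D.rk_cases w m).resolve_right (by omega)).2

open Classical in
/-- the labels of row `m` which together with `I` have rank `n - 1` and light closure -/
private noncomputable def a4_A (c m : Fin n) (I : Finset (Fin n × Fin n)) : Finset (Fin n) :=
  (D.S c m).filter (fun x => D.Lt c (insert (m, x) I))

open Classical in
private theorem a4_sq (c : Fin n) {m m' : Fin n} (hm' : m' ∈ D.F c) (hne : m ≠ m')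
    (z : Fin n → Fin n) :
    (((a4_A D c m' (Zee z m m') ×ˢ a4_A D c m' (Zee z m m')).filter
      (fun p => cl D.R (insert (m', p.1) (Zee z m m')) =
        cl D.R (insert (m', p.2) (Zee z m m')))).card : ℝ) ≤
      ∑ x' ∈ D.S c m', D.gg c m m' (Function.update z m' x') := by
  have h1 : ∀ x' ∈ D.S c m', D.gg c m m' (Function.update z m' x') =
      if D.Lt c (insert (m', x') (Zee z m m')) then
        (D.bm (insert (m', x') (Zee z m m')) m' : ℝ) else 0 := by
    intro x' _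
    unfold gg
    rw [Ze_update' z hne x']
  rw [Finset.sum_congr rfl h1, ← Finset.sum_filter, Finset.card_filter]
  push_cast
  rw [Finset.sum_product]
  refine Finset.sum_le_sum fun x hx => ?_
  rw [← Nat.cast_one, ← Nat.cast_zero]
  have h2 : ((a4_A D c m' (Zee z m m')).filter (fun y => cl D.R (insert (m', x) (Zee z m m')) =
        cl D.R (insert (m', y) (Zee z m m')))).card ≤ D.bm (insert (m', x) (Zee z m m')) m' := by
    unfold bm
    refine Finset.card_le_card fun y hy => ?_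
    rw [Finset.mem_filter] at hy ⊢
    obtain ⟨hy1, hy2⟩ := hy
    unfold a4_A at hy1
    rw [Finset.mem_filter, D.S_free hm', Finset.mem_filter] at hy1
    refine ⟨Finset.mem_univ _, hy1.1.2, ?_⟩
    rw [hy2]
    exact subset_cl D.R _ (Finset.mem_insert_self _ _)
  rw [Finset.card_filter] at h2
  have h3 : ((∑ y ∈ a4_A D c m' (Zee z m m'), if cl D.R (insert (m', x) (Zee z m m')) =
        cl D.R (insert (m', y) (Zee z m m')) then 1 else 0 : ℕ) : ℝ) ≤
      (D.bm (insert (m', x) (Zee z m m')) m' : ℝ) := by exact_mod_cast h2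
  push_cast at h3
  push_cast
  exact h3

/-- [a4] Proof: `I = Zee z m m'`; `amgm` for `A = {x ∈ S c m : Lt c (insert (m, x) I)}`, `A' = {x' ∈ S c m' : Lt c (insert (m', x') I)}`,
`f x = cl (insert (m, x) I)`, `g x' = cl (insert (m', x') I)`.  If `pr (...) = 1` then (`Ze_update2`) `insert (m, x) I`,
`insert (m', x') I` have rank `n - 1 = ` the rank of the column, so (`cl_eq`) the same closure as the column, and both are `Lt`
(`Bc_congr`).  The pairs `(x₁, x₂) ∈ A' ×ˢ A'` with `g x₁ = g x₂` are at most `∑_{x₁ ∈ A'} bm (insert (m', x₁) I) m'` (`(m', x₂)` is in the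
closure of `insert (m', x₂) I`), which is the first sum on the right (`Ze_update'`); the other one in the same way (`Zee_comm`). -/
theorem pair_fiber (c : Fin n) {m m' : Fin n} (hm : m ∈ D.F c) (hm' : m' ∈ D.F c) (hne : m ≠ m')
    (z : Fin n → Fin n) :
    2 * ∑ x ∈ D.S c m, ∑ x' ∈ D.S c m',
        D.pr c m m' (Function.update (Function.update z m x) m' x') ≤
      ∑ x' ∈ D.S c m', D.gg c m m' (Function.update z m' x') +
        ∑ x ∈ D.S c m, D.gg c m' m (Function.update z m x) := by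

  classical
  have hL : ∀ {X Y : Finset (Fin n × Fin n)}, D.R.r X = D.R.r Y → cl D.R X = cl D.R Y →
      D.R.r Y + 1 = n → 2 * D.Bc c Y ≤ D.N * D.N → D.Lt c X := by
    intro X Y h1 h2 h3 h4
    refine ⟨by omega, ?_⟩
    rw [D.Bc_congr h2]
    exact h4
  have h1 : ∑ x ∈ D.S c m, ∑ x' ∈ D.S c m',
      D.pr c m m' (Function.update (Function.update z m x) m' x') ≤
      (((a4_A D c m (Zee z m m') ×ˢ a4_A D c m' (Zee z m m')).filter
        (fun p => cl D.R (insert (m, p.1) (Zee z m m')) =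
          cl D.R (insert (m', p.2) (Zee z m m')))).card : ℝ) := by
    rw [← Finset.sum_product', Finset.card_filter]
    push_cast
    have hs : a4_A D c m (Zee z m m') ×ˢ a4_A D c m' (Zee z m m') ⊆ D.S c m ×ˢ D.S c m' := by
      refine Finset.product_subset_product ?_ ?_
      · unfold a4_A
        exact Finset.filter_subset _ _
      · unfold a4_A
        exact Finset.filter_subset _ _
    rw [← Finset.sum_subset hs (f := fun p : Fin n × Fin n =>
        D.pr c m m' (Function.update (Function.update z m p.1) m' p.2))]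
    · refine Finset.sum_le_sum fun p hp => ?_
      unfold pr
      split_ifs with h2 h3 h3
      · exact le_refl _
      · exfalso
        apply h3
        obtain ⟨h2a, h2b, h2c⟩ := h2
        obtain ⟨e1, e2, e3⟩ := Ze_update2 z hne p.1 p.2
        have h4 := a4_cl D h2b
        have h5 := a4_cl D h2c
        rw [e1] at h4
        rw [e2] at h5
        rw [h4, h5]
      · exact zero_le_one
      · exact le_refl _
    · intro p hp hp2
      unfold pr
      rw [if_neg]
      rintro ⟨h2a, h2b, h2c⟩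
      apply hp2
      obtain ⟨e1, e2, e3⟩ := Ze_update2 z hne p.1 p.2
      have h4 := a4_cl D h2b
      have h5 := a4_cl D h2c
      unfold A1 rk at h2a
      rw [Finset.mem_filter] at h2a
      have h6 := hL h2b h4 h2a.2.1 h2a.2.2
      have h7 := hL h2c h5 h2a.2.1 h2a.2.2
      rw [e1] at h6
      rw [e2] at h7
      rw [Finset.mem_product] at hp ⊢
      exact ⟨Finset.mem_filter.2 ⟨hp.1, h7⟩, Finset.mem_filter.2 ⟨hp.2, h6⟩⟩
  have h2 := amgm (a4_A D c m (Zee z m m')) (a4_A D c m' (Zee z m m'))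
    (fun x => cl D.R (insert (m, x) (Zee z m m'))) (fun x => cl D.R (insert (m', x) (Zee z m m')))
  have h3 := a4_sq D c hm' hne z
  have h4 := a4_sq D c hm hne.symm z
  rw [Zee_comm z m' m] at h4
  have h5 : (2 : ℝ) * (((a4_A D c m (Zee z m m') ×ˢ a4_A D c m' (Zee z m m')).filter
        (fun p => cl D.R (insert (m, p.1) (Zee z m m')) =
          cl D.R (insert (m', p.2) (Zee z m m')))).card : ℝ) ≤
      (((a4_A D c m (Zee z m m') ×ˢ a4_A D c m (Zee z m m')).filter
        (fun p => cl D.R (insert (m, p.1) (Zee z m m')) =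
          cl D.R (insert (m, p.2) (Zee z m m')))).card : ℝ) +
      (((a4_A D c m' (Zee z m m') ×ˢ a4_A D c m' (Zee z m m')).filter
        (fun p => cl D.R (insert (m', p.1) (Zee z m m')) =
          cl D.R (insert (m', p.2) (Zee z m m')))).card : ℝ) := by
    exact_mod_cast h2
  linarith

/-- [a5] sum `pair_fiber` over `z ∈ Om c` (`resample2`, `resample1`, `card_S`) and divide by `N`. -/
theorem pr_le (c : Fin n) {m m' : Fin n} (hm : m ∈ D.F c) (hm' : m' ∈ D.F c) (hne : m ≠ m') :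
    2 * (D.N : ℝ) * ∑ z ∈ D.Om c, D.pr c m m' z ≤
      ∑ z ∈ D.Om c, (D.gg c m m' z + D.gg c m' m z) := by

  obtain ⟨-, hN⟩ := D.f4_num
  have h1 : 2 * ∑ z ∈ D.Om c, ∑ x ∈ D.S c m, ∑ x' ∈ D.S c m',
        D.pr c m m' (Function.update (Function.update z m x) m' x') ≤
      ∑ z ∈ D.Om c, ∑ x' ∈ D.S c m', D.gg c m m' (Function.update z m' x') +
        ∑ z ∈ D.Om c, ∑ x ∈ D.S c m, D.gg c m' m (Function.update z m x) := by
    rw [Finset.mul_sum, ← Finset.sum_add_distrib]
    exact Finset.sum_le_sum fun z _ => D.pair_fiber c hm hm' hne z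
  rw [D.resample2 c hm hm' (D.pr c m m'), D.resample1 c m' (D.gg c m m'),
    D.resample1 c m (D.gg c m' m), D.card_S hm, D.card_S hm'] at h1
  rw [Finset.sum_add_distrib]
  have h2 : (D.N : ℝ) * (2 * (D.N : ℝ) * ∑ z ∈ D.Om c, D.pr c m m' z) ≤
      (D.N : ℝ) * (∑ z ∈ D.Om c, D.gg c m m' z + ∑ z ∈ D.Om c, D.gg c m' m z) := by
    linarith
  exact le_of_mul_le_mul_left h2 hN

/-- [a6] Proof: for `z ∈ A1 c` the set `C` of the non-coloops in `F c` has at least `N - k + 1` elements (`card_coloop`), the sum is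
`|C| (|C| - 1) ≥ (N - k + 1) (N - k) ≥ N²/2` (`N_big`). -/
theorem sum_pr (c : Fin n) {z : Fin n → Fin n} (hz : z ∈ D.A1 c) :
    (D.N : ℝ) ^ 2 / 2 ≤ ∑ m ∈ D.F c, ∑ m' ∈ (D.F c).erase m, D.pr c m m' z := by

  classical
  have hk : D.N ≤ ((D.F c).filter (fun m => D.R.r (Ze z m) = D.rk z)).card + (D.k - 1) ∧ 1 ≤ D.k := by
    have hz' := hz
    unfold A1 at hz'
    rw [Finset.mem_filter] at hz'
    have h1 := D.card_coloop (c := c) (z := z) (by omega)
    have h2 := Finset.card_filter_add_card_filter_not (s := D.F c)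
      (fun m => D.R.r (Ze z m) = D.rk z)
    rw [D.card_F] at h2
    have h3 : (D.F c).filter (fun m => ¬ D.R.r (Ze z m) = D.rk z) =
        (D.F c).filter (fun m => D.R.r (Ze z m) < D.rk z) := by
      refine Finset.filter_congr fun m _ => ?_
      have := D.rk_cases z m
      omega
    rw [h3] at h2
    have h4 := D.k1
    omega
  set C := (D.F c).filter (fun m => D.R.r (Ze z m) = D.rk z) with hC
  have h1 : ∑ m ∈ C, ∑ m' ∈ C.erase m, (1 : ℝ) ≤
      ∑ m ∈ D.F c, ∑ m' ∈ (D.F c).erase m, D.pr c m m' z := by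
    have h0 : ∀ m m', 0 ≤ D.pr c m m' z := by
      intro m m'
      unfold pr
      split_ifs
      · exact zero_le_one
      · exact le_refl _
    refine (Finset.sum_le_sum fun m hm => ?_).trans (Finset.sum_le_sum_of_subset_of_nonneg
      (Finset.filter_subset _ _) fun m _ _ => Finset.sum_nonneg fun m' _ => h0 m m')
    refine (Finset.sum_le_sum fun m' hm' => ?_).trans (Finset.sum_le_sum_of_subset_of_nonneg
      (Finset.erase_subset_erase _ (Finset.filter_subset _ _)) fun m' _ _ => h0 m m')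
    unfold pr
    rw [if_pos]
    rw [Finset.mem_erase, hC, Finset.mem_filter] at hm'
    rw [hC, Finset.mem_filter] at hm
    exact ⟨hz, hm.2, hm'.2.2⟩
  refine le_trans ?_ h1
  have h2 : ∑ m ∈ C, ∑ m' ∈ C.erase m, (1 : ℝ) = (C.card : ℝ) * ((C.card : ℝ) - 1) := by
    rw [Finset.sum_congr rfl (g := fun _ => (C.card : ℝ) - 1)]
    · rw [Finset.sum_const, nsmul_eq_mul]
    · intro m hm
      rw [Finset.sum_const, nsmul_eq_mul, mul_one, Finset.card_erase_of_mem hm,
        Nat.cast_sub (Finset.card_pos.2 ⟨m, hm⟩), Nat.cast_one]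
  rw [h2]
  obtain ⟨hk1, hk2⟩ := hk
  have hN := D.N_big
  have h4 : 4 * (D.k + 1) ≤ D.N := by omega
  have h5 : 3 * D.N ≤ 4 * (C.card - 1) := by omega
  have h6 : 1 ≤ C.card := by omega
  have h7 : ((3 * D.N : ℕ) : ℝ) ≤ ((4 * (C.card - 1) : ℕ) : ℝ) := by exact_mod_cast h5
  push_cast [h6] at h7
  have h8 : (0 : ℝ) ≤ (D.N : ℝ) := Nat.cast_nonneg _
  nlinarith

open Classical in
/-- total size of the light closures of the `Z - z_m` -/
noncomputable def W (c : Fin n) : ℝ :=
  ∑ m ∈ D.F c, ∑ z ∈ D.Om c, if D.Lt c (Ze z m) then (D.Bc c (Ze z m) : ℝ) else 0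

/-- [a7] Proof: `sum_pr` summed over `A1 c`, `pr_le` summed over the ordered pairs `m ≠ m'` of `F c`; the two sums on the right are equal by
the symmetry of `(m, m')`; `∑_{m' ∈ F c} gg c m m' z = ` the term of `W` (`Bc = ∑ bm`). -/
theorem A1_le_W (c : Fin n) : (D.N : ℝ) ^ 3 * (D.A1 c).card ≤ 2 * D.W c := by

  classical
  obtain ⟨-, hN⟩ := D.f4_num
  have h0 : ∀ m m' z, 0 ≤ D.pr c m m' z := by
    intro m m' z
    unfold pr
    split_ifs
    · exact zero_le_one
    · exact le_refl _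
  have hg0 : ∀ m m' z, 0 ≤ D.gg c m m' z := by
    intro m m' z
    unfold gg
    split_ifs
    · exact Nat.cast_nonneg _
    · exact le_refl _
  have h1 : (D.N : ℝ) ^ 2 / 2 * (D.A1 c).card ≤
      ∑ m ∈ D.F c, ∑ m' ∈ (D.F c).erase m, ∑ z ∈ D.Om c, D.pr c m m' z := by
    have e1 : (D.N : ℝ) ^ 2 / 2 * (D.A1 c).card ≤
        ∑ z ∈ D.A1 c, ∑ m ∈ D.F c, ∑ m' ∈ (D.F c).erase m, D.pr c m m' z := by
      rw [mul_comm, ← nsmul_eq_mul, ← Finset.sum_const]
      exact Finset.sum_le_sum fun z hz => D.sum_pr c hz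
    refine e1.trans ?_
    have e2 : ∑ z ∈ D.A1 c, ∑ m ∈ D.F c, ∑ m' ∈ (D.F c).erase m, D.pr c m m' z ≤
        ∑ z ∈ D.Om c, ∑ m ∈ D.F c, ∑ m' ∈ (D.F c).erase m, D.pr c m m' z :=
      Finset.sum_le_sum_of_subset_of_nonneg (Finset.filter_subset _ _) fun z _ _ =>
        Finset.sum_nonneg fun m _ => Finset.sum_nonneg fun m' _ => h0 m m' z
    refine e2.trans (le_of_eq ?_)
    rw [Finset.sum_comm]
    exact Finset.sum_congr rfl fun m _ => Finset.sum_comm
  have h2 : 2 * (D.N : ℝ) * ∑ m ∈ D.F c, ∑ m' ∈ (D.F c).erase m, ∑ z ∈ D.Om c, D.pr c m m' z ≤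
      ∑ m ∈ D.F c, ∑ m' ∈ (D.F c).erase m, ∑ z ∈ D.Om c, (D.gg c m m' z + D.gg c m' m z) := by
    rw [Finset.mul_sum]
    refine Finset.sum_le_sum fun m hm => ?_
    rw [Finset.mul_sum]
    refine Finset.sum_le_sum fun m' hm' => ?_
    rw [Finset.mem_erase] at hm'
    exact D.pr_le c hm hm'.2 hm'.1.symm
  have h3 : ∑ m ∈ D.F c, ∑ m' ∈ (D.F c).erase m, ∑ z ∈ D.Om c, D.gg c m' m z =
      ∑ m ∈ D.F c, ∑ m' ∈ (D.F c).erase m, ∑ z ∈ D.Om c, D.gg c m m' z := by
    rw [Finset.sum_comm' (t' := D.F c) (s' := fun m' => (D.F c).erase m')]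
    intro x y
    rw [Finset.mem_erase, Finset.mem_erase]
    constructor
    · rintro ⟨a1, a2, a3⟩
      exact ⟨⟨a2.symm, a1⟩, a3⟩
    · rintro ⟨⟨a1, a2⟩, a3⟩
      exact ⟨a2, a1.symm, a3⟩
  have h4 : ∑ m ∈ D.F c, ∑ m' ∈ (D.F c).erase m, ∑ z ∈ D.Om c, D.gg c m m' z ≤ D.W c := by
    unfold W
    refine Finset.sum_le_sum fun m hm => ?_
    rw [Finset.sum_comm]
    refine Finset.sum_le_sum fun z hz => ?_
    refine (Finset.sum_le_sum_of_subset_of_nonneg (Finset.erase_subset _ _)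
      fun m' _ _ => hg0 m m' z).trans ?_
    unfold gg
    split_ifs with h5
    · unfold Bc
      push_cast
      exact le_refl _
    · rw [Finset.sum_const_zero]
  have h5 : ∑ m ∈ D.F c, ∑ m' ∈ (D.F c).erase m, ∑ z ∈ D.Om c, (D.gg c m m' z + D.gg c m' m z) =
      2 * ∑ m ∈ D.F c, ∑ m' ∈ (D.F c).erase m, ∑ z ∈ D.Om c, D.gg c m m' z := by
    simp only [Finset.sum_add_distrib]
    rw [h3]
    ring
  rw [h5] at h2
  calc (D.N : ℝ) ^ 3 * (D.A1 c).card = 2 * (D.N : ℝ) * ((D.N : ℝ) ^ 2 / 2 * (D.A1 c).card) := by ring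
    _ ≤ 2 * (D.N : ℝ) * ∑ m ∈ D.F c, ∑ m' ∈ (D.F c).erase m, ∑ z ∈ D.Om c, D.pr c m m' z :=
        mul_le_mul_of_nonneg_left h1 (by positivity)
    _ ≤ _ := h2
    _ ≤ 2 * D.W c := by linarith

open Classical in
/-- [a8] Proof: for fixed `m ∈ F c` and `z` as in the condition at least `N/2` of the `x ∈ S c m` have `(m, x) ∉ cl (Ze z m)`, then
`update z m x` has rank `n` (`rk_update_out`) and `Ze (update z m x) m = Ze z m`.  So the inner sum is
`≤ (2/N) ∑_z ∑_{x ∈ S c m} G (update z m x)`, `G z = [rk z = n] Bc (Ze z m)`, `= 2 ∑_z G z` (`resample1`).  Sum over `m`: `basis_sum`. -/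
theorem W1 (c : Fin n) :
    ∑ m ∈ D.F c, ∑ z ∈ D.Om c,
      (if D.Lt c (Ze z m) ∧ 2 * D.bm (Ze z m) m ≤ D.N then (D.Bc c (Ze z m) : ℝ) else 0) ≤
      2 * ((D.k : ℝ) + 1) * (D.N : ℝ) ^ 2 * (D.Om c).card := by

  obtain ⟨-, hN⟩ := D.f4_num
  have h1 : ∀ m ∈ D.F c, ∑ z ∈ D.Om c,
      (if D.Lt c (Ze z m) ∧ 2 * D.bm (Ze z m) m ≤ D.N then (D.Bc c (Ze z m) : ℝ) else 0) ≤
      2 * ∑ z ∈ D.Om c, (if D.rk z = n then (D.Bc c (Ze z m) : ℝ) else 0) := by
    intro m hm
    have e1 := D.resample1 c m (fun z => if D.rk z = n then (D.Bc c (Ze z m) : ℝ) else 0)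
    rw [D.card_S hm] at e1
    have e2 : ∀ z ∈ D.Om c, (D.N : ℝ) / 2 *
        (if D.Lt c (Ze z m) ∧ 2 * D.bm (Ze z m) m ≤ D.N then (D.Bc c (Ze z m) : ℝ) else 0) ≤
        ∑ x ∈ D.S c m, (if D.rk (Function.update z m x) = n then
          (D.Bc c (Ze (Function.update z m x) m) : ℝ) else 0) := by
      intro z hz
      split_ifs with h
      · obtain ⟨⟨h1, h2⟩, h3⟩ := h
        have e3 := D.f10_count c m hm (Ze z m)
        have e4 : ∑ x ∈ (D.S c m).filter (fun x => (m, x) ∉ cl D.R (Ze z m)),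
            (D.Bc c (Ze z m) : ℝ) ≤ ∑ x ∈ D.S c m, (if D.rk (Function.update z m x) = n then
            (D.Bc c (Ze (Function.update z m x) m) : ℝ) else 0) := by
          refine (Finset.sum_le_sum fun x hx => ?_).trans (Finset.sum_le_sum_of_subset_of_nonneg
            (Finset.filter_subset _ _) fun x _ _ => ?_)
          · rw [Finset.mem_filter] at hx
            rw [D.rk_update_out hx.2, if_pos h1, Ze_update]
          · split_ifs
            · exact Nat.cast_nonneg _
            · exact le_refl _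
        refine le_trans ?_ e4
        rw [Finset.sum_const, nsmul_eq_mul, ← e3]
        apply mul_le_mul_of_nonneg_right _ (Nat.cast_nonneg _)
        have e5 : ((2 * D.bm (Ze z m) m : ℕ) : ℝ) ≤ (D.N : ℝ) := by exact_mod_cast h3
        push_cast at e5
        linarith
      · rw [mul_zero]
        refine Finset.sum_nonneg fun x _ => ?_
        split_ifs
        · exact Nat.cast_nonneg _
        · exact le_refl _
    have e3 := Finset.sum_le_sum e2
    rw [e1, ← Finset.mul_sum] at e3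
    have e4 : (D.N : ℝ) / 2 * (∑ z ∈ D.Om c,
        (if D.Lt c (Ze z m) ∧ 2 * D.bm (Ze z m) m ≤ D.N then (D.Bc c (Ze z m) : ℝ) else 0)) ≤
        (D.N : ℝ) / 2 * (2 * ∑ z ∈ D.Om c, (if D.rk z = n then (D.Bc c (Ze z m) : ℝ) else 0)) := by
      linarith
    exact le_of_mul_le_mul_left e4 (by positivity)
  refine (Finset.sum_le_sum h1).trans ?_
  rw [← Finset.mul_sum, Finset.sum_comm]
  have h2 : ∀ z ∈ D.Om c, ∑ m ∈ D.F c, (if D.rk z = n then (D.Bc c (Ze z m) : ℝ) else 0) ≤
      ((D.k : ℝ) + 1) * (D.N : ℝ) ^ 2 := by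
    intro z _
    split_ifs with h
    · have e1 := D.basis_sum (c := c) h
      have e2 : ((∑ m ∈ D.F c, D.Bc c (Ze z m) : ℕ) : ℝ) ≤
          (((D.k + 1) * (D.N * D.N) : ℕ) : ℝ) := by exact_mod_cast e1
      push_cast at e2
      rw [pow_two]
      exact e2
    · rw [Finset.sum_const_zero]
      positivity
  have h3 := Finset.sum_le_sum h2
  rw [Finset.sum_const, nsmul_eq_mul] at h3
  calc _ ≤ 2 * (((D.Om c).card : ℝ) * (((D.k : ℝ) + 1) * (D.N : ℝ) ^ 2)) :=
        mul_le_mul_of_nonneg_left h3 (by norm_num)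
    _ = _ := by ring

open Classical in
/-- [a9] Proof: for fixed `m ∈ F c` and `z` as in the condition at least `N/2` of the `x ∈ S c m` have `(m, x) ∈ cl (Ze z m)`, then
`update z m x` has rank `n - 1` and the same closure (`rk_update_in`), so it is in `A1 c`.  So the inner sum is
`≤ (2/N) ∑_z ∑_{x ∈ S c m} G (update z m x)`, `G z = [z ∈ A1 c] Bc (Zs z)`, `= 2 ∑_{z ∈ A1} Bc (Zs z)` (`resample1`), at most
`6 (k+1) N |Om|` by `flow_small`; there are `N` rows `m`. -/
theorem W2 (c : Fin n) :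
    ∑ m ∈ D.F c, ∑ z ∈ D.Om c,
      (if D.Lt c (Ze z m) ∧ D.N < 2 * D.bm (Ze z m) m then (D.Bc c (Ze z m) : ℝ) else 0) ≤
      6 * ((D.k : ℝ) + 1) * (D.N : ℝ) ^ 2 * (D.Om c).card := by

  obtain ⟨-, hN⟩ := D.f4_num
  have h1 : ∀ m ∈ D.F c, ∑ z ∈ D.Om c,
      (if D.Lt c (Ze z m) ∧ D.N < 2 * D.bm (Ze z m) m then (D.Bc c (Ze z m) : ℝ) else 0) ≤
      2 * ∑ z ∈ D.Om c, (if z ∈ D.A1 c then (D.Bc c (Zs z) : ℝ) else 0) := by
    intro m hm
    have e1 := D.resample1 c m (fun z => if z ∈ D.A1 c then (D.Bc c (Zs z) : ℝ) else 0)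
    rw [D.card_S hm] at e1
    have e2 : ∀ z ∈ D.Om c, (D.N : ℝ) / 2 *
        (if D.Lt c (Ze z m) ∧ D.N < 2 * D.bm (Ze z m) m then (D.Bc c (Ze z m) : ℝ) else 0) ≤
        ∑ x ∈ D.S c m, (if Function.update z m x ∈ D.A1 c then
          (D.Bc c (Zs (Function.update z m x)) : ℝ) else 0) := by
      intro z hz
      split_ifs with h
      · obtain ⟨⟨h1, h2⟩, h3⟩ := h
        have e3 : ((D.S c m).filter (fun x => (m, x) ∈ cl D.R (Ze z m))).card =
            D.bm (Ze z m) m := by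
          rw [D.S_free hm, Finset.filter_filter]
          rfl
        have e4 : ∑ x ∈ (D.S c m).filter (fun x => (m, x) ∈ cl D.R (Ze z m)),
            (D.Bc c (Ze z m) : ℝ) ≤ ∑ x ∈ D.S c m, (if Function.update z m x ∈ D.A1 c then
            (D.Bc c (Zs (Function.update z m x)) : ℝ) else 0) := by
          refine (Finset.sum_le_sum fun x hx => ?_).trans (Finset.sum_le_sum_of_subset_of_nonneg
            (Finset.filter_subset _ _) fun x _ _ => ?_)
          · rw [Finset.mem_filter] at hx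
            obtain ⟨e5, e6⟩ := D.rk_update_in hx.2
            have e7 := D.Bc_congr e6 c
            rw [if_pos, e7]
            unfold A1
            rw [Finset.mem_filter]
            refine ⟨D.update_mem hz hx.1, ?_, ?_⟩
            · omega
            · rw [e7]
              exact h2
          · split_ifs
            · exact Nat.cast_nonneg _
            · exact le_refl _
        refine le_trans ?_ e4
        rw [Finset.sum_const, nsmul_eq_mul, e3]
        apply mul_le_mul_of_nonneg_right _ (Nat.cast_nonneg _)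
        have e5 : (D.N : ℝ) ≤ ((2 * D.bm (Ze z m) m : ℕ) : ℝ) := by exact_mod_cast h3.le
        push_cast at e5
        linarith
      · rw [mul_zero]
        refine Finset.sum_nonneg fun x _ => ?_
        split_ifs
        · exact Nat.cast_nonneg _
        · exact le_refl _
    have e3 := Finset.sum_le_sum e2
    rw [e1, ← Finset.mul_sum] at e3
    have e4 : (D.N : ℝ) / 2 * (∑ z ∈ D.Om c,
        (if D.Lt c (Ze z m) ∧ D.N < 2 * D.bm (Ze z m) m then (D.Bc c (Ze z m) : ℝ) else 0)) ≤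
        (D.N : ℝ) / 2 * (2 * ∑ z ∈ D.Om c, (if z ∈ D.A1 c then (D.Bc c (Zs z) : ℝ) else 0)) := by
      linarith
    exact le_of_mul_le_mul_left e4 (by positivity)
  refine (Finset.sum_le_sum h1).trans ?_
  rw [Finset.sum_const, nsmul_eq_mul, D.card_F]
  have h2 : ∑ z ∈ D.Om c, (if z ∈ D.A1 c then (D.Bc c (Zs z) : ℝ) else 0) =
      ∑ z ∈ D.A1 c, (D.Bc c (Zs z) : ℝ) := by
    rw [← Finset.sum_filter]
    congr 1
    ext z
    rw [Finset.mem_filter]
    unfold A1
    rw [Finset.mem_filter]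
    tauto
  rw [h2]
  have h3 := D.flow_small c
  calc _ ≤ (D.N : ℝ) * (2 * (3 * (D.k + 1) * D.N * (D.Om c).card)) :=
        mul_le_mul_of_nonneg_left (mul_le_mul_of_nonneg_left h3 (by norm_num)) hN.le
    _ = _ := by ring

/-- [a10] `A1_le_W`, `W = W1 + W2`. -/
theorem card_A1 (c : Fin n) :
    (D.N : ℝ) * (D.A1 c).card ≤ 16 * ((D.k : ℝ) + 1) * (D.Om c).card := by

  classical
  obtain ⟨-, hN⟩ := D.f4_num
  have h1 := D.A1_le_W c
  have h2 := D.W1 c
  have h3 := D.W2 c
  have h4 : D.W c = ∑ m ∈ D.F c, ∑ z ∈ D.Om c,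
      (if D.Lt c (Ze z m) ∧ 2 * D.bm (Ze z m) m ≤ D.N then (D.Bc c (Ze z m) : ℝ) else 0) +
      ∑ m ∈ D.F c, ∑ z ∈ D.Om c,
      (if D.Lt c (Ze z m) ∧ D.N < 2 * D.bm (Ze z m) m then (D.Bc c (Ze z m) : ℝ) else 0) := by
    unfold W
    rw [← Finset.sum_add_distrib]
    refine Finset.sum_congr rfl fun m _ => ?_
    rw [← Finset.sum_add_distrib]
    refine Finset.sum_congr rfl fun z _ => ?_
    by_cases h5 : D.Lt c (Ze z m)
    · by_cases h6 : 2 * D.bm (Ze z m) m ≤ D.N
      · rw [if_pos h5, if_pos ⟨h5, h6⟩, if_neg (fun h => absurd h.2 (by omega)), add_zero]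
      · rw [if_pos h5, if_neg (fun h => h6 h.2), if_pos ⟨h5, by omega⟩, zero_add]
    · rw [if_neg h5, if_neg (fun h => h5 h.1), if_neg (fun h => h5 h.1), add_zero]
  rw [h4] at h1
  have h5 : (D.N : ℝ) ^ 2 * ((D.N : ℝ) * (D.A1 c).card) ≤
      (D.N : ℝ) ^ 2 * (16 * ((D.k : ℝ) + 1) * (D.Om c).card) := by
    calc _ = (D.N : ℝ) ^ 3 * (D.A1 c).card := by ring
      _ ≤ _ := h1
      _ ≤ 2 * (2 * ((D.k : ℝ) + 1) * (D.N : ℝ) ^ 2 * (D.Om c).card +
          6 * ((D.k : ℝ) + 1) * (D.N : ℝ) ^ 2 * (D.Om c).card) :=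
          mul_le_mul_of_nonneg_left (add_le_add h2 h3) (by norm_num)
      _ = _ := by ring
  exact le_of_mul_le_mul_left h5 (by positivity)

/-- [a10] Proof: `|dep| ≤ 2 |{rk z + 1 = n}|` (`f11_le`), `{rk z + 1 = n} = A1 ∪ L1`, `card_A1`, `flow_large`, `N ≥ 2^21 L (k+1)`.
(See `Pool.Agent.RGi.Cd.card_dep` for the first part.) -/
theorem card_dep (c : Fin n) : 2 ^ 17 * ((D.dep c).card : ℝ) ≤ (D.Om c).card := by

  have hNR := D.N_bigLR
  have hL := D.L_ge
  have hOm : (0 : ℝ) < ((D.Om c).card : ℝ) := by exact_mod_cast D.Om_pos c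
  have hk0 : (0 : ℝ) ≤ (D.k : ℝ) := Nat.cast_nonneg _
  have hk : (0 : ℝ) < (D.k : ℝ) + 1 := by positivity
  set a : ℝ := ((D.A1 c).card : ℝ) with ha
  set l : ℝ := ((D.L1 c).card : ℝ) with hl
  set M : ℝ := ((D.Om c).card : ℝ) with hM
  have ha0 : 0 ≤ a := Nat.cast_nonneg _
  have hl0 : 0 ≤ l := Nat.cast_nonneg _
  have h1 : (D.dep c).card ≤ 2 * ((D.A1 c).card + (D.L1 c).card) := by
    have e1 := D.f11_le c 1 (le_refl _)
    have e2 : D.dep c = (D.Om c).filter (fun z => D.rk z + 1 ≤ n) := by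
      unfold dep
      rfl
    have e3 : ((D.Om c).filter (fun z => D.rk z + 1 = n)).card ≤ (D.A1 c).card + (D.L1 c).card := by
      rw [← Finset.card_union_of_disjoint]
      · refine Finset.card_le_card fun z hz => ?_
        rw [Finset.mem_filter] at hz
        rw [Finset.mem_union]
        unfold A1 L1
        rw [Finset.mem_filter, Finset.mem_filter]
        rcases Nat.lt_or_ge (D.N * D.N) (2 * D.Bc c (Zs z)) with h | h
        · exact Or.inr ⟨hz.1, hz.2, h⟩
        · exact Or.inl ⟨hz.1, hz.2, h⟩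
      · rw [Finset.disjoint_left]
        intro z h2 h3
        unfold A1 at h2
        unfold L1 at h3
        rw [Finset.mem_filter] at h2 h3
        omega
    rw [e2]
    omega
  have h1R : ((D.dep c).card : ℝ) ≤ 2 * (a + l) := by
    rw [ha, hl]
    exact_mod_cast h1
  have h2 := D.card_A1 c
  rw [← ha, ← hM] at h2
  have h3 : (2 : ℝ) ^ 19 * a ≤ M := by
    have e0 : (2 : ℝ) ^ 23 * ((D.k : ℝ) + 1) ≤ D.N := by
      have : 4 * ((D.k : ℝ) + 1) ≤ (D.L : ℝ) * ((D.k : ℝ) + 1) := mul_le_mul_of_nonneg_right hL hk.le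
      linarith
    have e1 : (2 : ℝ) ^ 23 * ((D.k : ℝ) + 1) * a ≤ 16 * ((D.k : ℝ) + 1) * M :=
      (mul_le_mul_of_nonneg_right e0 ha0).trans h2
    have e2 : (16 * ((D.k : ℝ) + 1)) * ((2 : ℝ) ^ 19 * a) ≤
        (16 * ((D.k : ℝ) + 1)) * M := by
      calc _ = (2 : ℝ) ^ 23 * ((D.k : ℝ) + 1) * a := by ring
        _ ≤ _ := e1
    exact le_of_mul_le_mul_left e2 (by positivity)
  have h4 := D.flow_large c
  rw [← hl, ← hM] at h4
  have h5 : (2 : ℝ) ^ 19 * l ≤ M := by
    have e1 : (2 : ℝ) ^ 21 * ((D.L : ℝ) * ((D.k : ℝ) + 1)) * l ≤ 4 * (D.L * (D.k + 1)) * M :=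
      (mul_le_mul_of_nonneg_right hNR hl0).trans h4
    have e2 : (4 * ((D.L : ℝ) * ((D.k : ℝ) + 1))) * ((2 : ℝ) ^ 19 * l) ≤
        (4 * ((D.L : ℝ) * ((D.k : ℝ) + 1))) * M := by
      calc _ = (2 : ℝ) ^ 21 * ((D.L : ℝ) * ((D.k : ℝ) + 1)) * l := by ring
        _ ≤ _ := e1
    exact le_of_mul_le_mul_left e2 (by positivity)
  linarith

end Cd

end Pool.Agent.RGs
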