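import Pool.Agent.RGi.Core

/-!
# Cored arrays

Elements of the ground set are the pairs `(i, x)` (row `i`, label `x`), `R` a rank function on `Fin n × Fin n`.  `Q` is the set of core
positions: `(i, c) ∈ Q` means that column `c` has its element of row `i` fixed to be the element `(i, c)`.  A column is a function
`z : Fin n → Fin n` (the element of row `i` is `(i, z i)`).
-/

set_option autoImplicit false

namespace Pool.Agent.RGs

open Finset Pool.Agent.RotaP Pool.Agent.RGi

/-- A cored array. -/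
structure Cd (n : ℕ) where
  /-- the rank function -/
  R : RkF (Fin n × Fin n)
  /-- girth defect -/
  k : ℕ
  /-- size of the cores -/
  t : ℕ
  /-- every hyperplane containing a core misses at least `n² / L` free elements -/
  L : ℕ
  /-- core positions (row, column) -/
  Q : Finset (Fin n × Fin n)
  gir : Gir R n k
  tk : t ≤ k
  k1 : 1 ≤ k
  L4 : 4 ≤ L
  bigK : 2 ^ 22 * (L * (k + 1)) ≤ n
  bigL : 2 ^ 20 * (L * L) ≤ n
  rowQ : ∀ i, (univ.filter (fun c => (i, c) ∈ Q)).card = t
  colQ : ∀ c, (univ.filter (fun i => (i, c) ∈ Q)).card = t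
  NH : ∀ c (X : Finset (Fin n × Fin n)), (∀ i, (i, c) ∈ Q → (i, c) ∈ X) → R.r X < n →
    n * n ≤ L *
      (univ.filter (fun e : Fin n × Fin n => (e.1, c) ∉ Q ∧ e ∉ Q ∧ e ∉ cl R X)).card

/-- the elements of the column `z` -/
def Zs {n : ℕ} (z : Fin n → Fin n) : Finset (Fin n × Fin n) := univ.image (fun i => (i, z i))

/-- the elements of the column `z` without the one of row `m` -/
def Ze {n : ℕ} (z : Fin n → Fin n) (m : Fin n) : Finset (Fin n × Fin n) :=
  (univ.erase m).image (fun i => (i, z i))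

/-- [d1] -/
theorem card_Zs {n : ℕ} (z : Fin n → Fin n) : (Zs z).card = n := by
  unfold Zs
  rw [Finset.card_image_of_injective _ (fun i j h => (Prod.ext_iff.1 h).1), Finset.card_univ,
    Fintype.card_fin]

/-- [d1] -/
theorem mem_Zs {n : ℕ} {z : Fin n → Fin n} {e : Fin n × Fin n} : e ∈ Zs z ↔ z e.1 = e.2 := by
  unfold Zs
  rw [Finset.mem_image]
  constructor
  · rintro ⟨i, -, rfl⟩
    rfl
  · intro h
    exact ⟨e.1, Finset.mem_univ _, Prod.ext rfl h⟩

/-- [d1] -/
theorem mem_Ze {n : ℕ} {z : Fin n → Fin n} {m : Fin n} {e : Fin n × Fin n} :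
    e ∈ Ze z m ↔ e.1 ≠ m ∧ z e.1 = e.2 := by
  unfold Ze
  rw [Finset.mem_image]
  constructor
  · rintro ⟨i, hi, rfl⟩
    exact ⟨(Finset.mem_erase.1 hi).1, rfl⟩
  · rintro ⟨h1, h2⟩
    exact ⟨e.1, Finset.mem_erase.2 ⟨h1, Finset.mem_univ _⟩, Prod.ext rfl h2⟩

/-- [d1] -/
theorem Ze_eq {n : ℕ} (z : Fin n → Fin n) (m : Fin n) : Ze z m = (Zs z).erase (m, z m) := by
  ext e
  rw [mem_Ze, Finset.mem_erase, mem_Zs]
  constructor
  · rintro ⟨h1, h2⟩
    exact ⟨fun h => h1 (by rw [h]), h2⟩
  · rintro ⟨h1, h2⟩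
    refine ⟨fun h => h1 ?_, h2⟩
    refine Prod.ext h ?_
    rw [← h2, h]

/-- [d1] -/
theorem Zs_insert {n : ℕ} (z : Fin n → Fin n) (m : Fin n) : Zs z = insert (m, z m) (Ze z m) := by
  ext e
  rw [mem_Zs, Finset.mem_insert, mem_Ze]
  constructor
  · intro h
    by_cases h1 : e.1 = m
    · left
      refine Prod.ext h1 ?_
      rw [← h, h1]
    · exact Or.inr ⟨h1, h⟩
  · rintro (rfl | ⟨-, h⟩)
    · rfl
    · exact h

/-- [d1] -/
theorem card_Ze {n : ℕ} (z : Fin n → Fin n) (m : Fin n) : (Ze z m).card + 1 = n := by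
  rw [Ze_eq, Finset.card_erase_of_mem (mem_Zs.2 rfl), card_Zs]
  have := m.2
  omega

/-- [d1] -/
theorem Ze_update {n : ℕ} (z : Fin n → Fin n) (m x : Fin n) : Ze (Function.update z m x) m = Ze z m := by
  ext e
  rw [mem_Ze, mem_Ze]
  constructor
  · rintro ⟨h1, h2⟩
    rw [Function.update_of_ne h1] at h2
    exact ⟨h1, h2⟩
  · rintro ⟨h1, h2⟩
    refine ⟨h1, ?_⟩
    rw [Function.update_of_ne h1]
    exact h2

/-- [d1] -/
theorem Zs_update {n : ℕ} (z : Fin n → Fin n) (m x : Fin n) :
    Zs (Function.update z m x) = insert (m, x) (Ze z m) := by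
  rw [Zs_insert _ m, Function.update_self, Ze_update]

namespace Cd

variable {n : ℕ} (D : Cd n)

/-- number of free rows of a column, and of free labels of a row -/
def N : ℕ := n - D.t

/-- the labels allowed in row `i` for column `c` -/
def S (c i : Fin n) : Finset (Fin n) :=
  if (i, c) ∈ D.Q then {c} else univ.filter (fun x => (i, x) ∉ D.Q)

/-- all choices of column `c` -/
def Om (c : Fin n) : Finset (Fin n → Fin n) := Fintype.piFinset (D.S c)

/-- the free rows of column `c` -/
def F (c : Fin n) : Finset (Fin n) := univ.filter (fun i => (i, c) ∉ D.Q)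

/-- rank of a column -/
def rk (z : Fin n → Fin n) : ℕ := D.R.r (Zs z)

/-- number of free labels of row `m` in the closure of `X` -/
def bm (X : Finset (Fin n × Fin n)) (m : Fin n) : ℕ :=
  (univ.filter (fun x => (m, x) ∉ D.Q ∧ (m, x) ∈ cl D.R X)).card

/-- number of free elements of the free rows of column `c` in the closure of `X` -/
def Bc (c : Fin n) (X : Finset (Fin n × Fin n)) : ℕ := ∑ m ∈ D.F c, D.bm X m

/-- [d2] -/
theorem d2_k : 2 ^ 24 * (D.k + 1) ≤ n := by
  have h1 := D.bigK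
  have h2 : 4 * (D.k + 1) ≤ D.L * (D.k + 1) := Nat.mul_le_mul_right _ D.L4
  omega

/-- [d2] -/
theorem N_add : D.N + D.t = n := by
  have h1 := D.tk
  have h2 := D.d2_k
  unfold N
  omega

/-- [d2] -/
theorem N_big : 2 ^ 23 * (D.k + 1) ≤ D.N := by
  have h1 := D.tk
  have h2 := D.d2_k
  unfold N
  omega

/-- [d2] -/
theorem n_le : n ≤ 2 * D.N := by
  have h1 := D.tk
  have h2 := D.d2_k
  unfold N
  omega

/-- [d2] -/
theorem N_bigL : 2 ^ 21 * (D.L * (D.k + 1)) ≤ D.N := by
  have h1 := D.bigK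
  have h2 := D.n_le
  omega

/-- [d2] -/
theorem N_sq : 2 ^ 19 * (D.L * D.L) ≤ D.N := by
  have h1 := D.bigL
  have h2 := D.n_le
  omega

/-- [d2] -/
theorem card_F (c : Fin n) : (D.F c).card = D.N := by
  have h1 := D.colQ c
  have h2 := Finset.card_filter_add_card_filter_not (s := (univ : Finset (Fin n)))
    (fun i => (i, c) ∈ D.Q)
  rw [Finset.card_univ, Fintype.card_fin] at h2
  have h3 := D.N_add
  show (univ.filter (fun i => (i, c) ∉ D.Q)).card = D.N
  omega

/-- [d2] -/
theorem card_free (i : Fin n) : (univ.filter (fun x => (i, x) ∉ D.Q)).card = D.N := by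
  have h1 := D.rowQ i
  have h2 := Finset.card_filter_add_card_filter_not (s := (univ : Finset (Fin n)))
    (fun c => (i, c) ∈ D.Q)
  rw [Finset.card_univ, Fintype.card_fin] at h2
  have h3 := D.N_add
  omega

/-- [d2] -/
theorem mem_F {c i : Fin n} : i ∈ D.F c ↔ (i, c) ∉ D.Q := by
  unfold F
  rw [Finset.mem_filter]
  exact and_iff_right (Finset.mem_univ _)

/-- [d2] -/
theorem S_free {c i : Fin n} (h : i ∈ D.F c) : D.S c i = univ.filter (fun x => (i, x) ∉ D.Q) := by
  unfold S
  rw [if_neg (D.mem_F.1 h)]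

/-- [d2] -/
theorem card_S {c i : Fin n} (h : i ∈ D.F c) : (D.S c i).card = D.N := by
  rw [D.S_free h, D.card_free]

/-- [d2] -/
theorem mem_Om {c : Fin n} {z : Fin n → Fin n} : z ∈ D.Om c ↔ ∀ i, z i ∈ D.S c i := by
  unfold Om
  rw [Fintype.mem_piFinset]

/-- [d2] -/
theorem update_mem {c m : Fin n} {z : Fin n → Fin n} (hz : z ∈ D.Om c) {x : Fin n} (hx : x ∈ D.S c m) :
    Function.update z m x ∈ D.Om c := by
  rw [mem_Om] at hz ⊢
  intro i
  by_cases h : i = m
  · subst h
    rw [Function.update_self]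
    exact hx
  · rw [Function.update_of_ne h]
    exact hz i

/-- [d2] a column contains its core -/
theorem core_mem {c i : Fin n} {z : Fin n → Fin n} (hz : z ∈ D.Om c) (h : (i, c) ∈ D.Q) : z i = c := by
  have h1 := D.mem_Om.1 hz i
  unfold S at h1
  rw [if_pos h] at h1
  exact Finset.mem_singleton.1 h1

/-- [d2] the entries of free rows are free -/
theorem free_mem {c i : Fin n} {z : Fin n → Fin n} (hz : z ∈ D.Om c) (h : i ∈ D.F c) : (i, z i) ∉ D.Q := by
  have h1 := D.mem_Om.1 hz i
  rw [D.S_free h, Finset.mem_filter] at h1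
  exact h1.2

/-- [d2] -/
theorem card_Om (c : Fin n) : (D.Om c).card = D.N ^ D.N := by
  unfold Om
  rw [Fintype.card_piFinset, ← D.card_F c, ← Finset.prod_filter_mul_prod_filter_not
    (s := (univ : Finset (Fin n))) (p := fun i => (i, c) ∈ D.Q)]
  have h1 : ∏ x ∈ univ.filter (fun i => (i, c) ∈ D.Q), (D.S c x).card = 1 := by
    apply Finset.prod_eq_one
    intro i hi
    unfold S
    rw [if_pos (Finset.mem_filter.1 hi).2, Finset.card_singleton]
  have h2 : ∏ x ∈ univ.filter (fun i => ¬ (i, c) ∈ D.Q), (D.S c x).card =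
      D.N ^ (D.F c).card := by
    rw [← Finset.prod_const]
    apply Finset.prod_congr rfl
    intro i hi
    exact D.card_S hi
  rw [h1, h2, one_mul, D.card_F c]

/-- [d2] -/
theorem Om_pos (c : Fin n) : 0 < (D.Om c).card := by
  rw [card_Om]
  apply Nat.pow_pos
  have h1 := D.N_big
  omega

/-- [d2] -/
theorem rk_le (z : Fin n → Fin n) : D.rk z ≤ n := D.gir.le _

/-- [d2] by `Gir.one`. -/
theorem le_rk (z : Fin n → Fin n) : n ≤ D.rk z + D.k := by
  have h1 := D.gir.one (Zs z) (by rw [card_Zs]; omega)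
  exact h1

/-- [d2] -/
theorem bm_le (X : Finset (Fin n × Fin n)) (m : Fin n) : D.bm X m ≤ D.N := by
  rw [← D.card_free m]
  apply Finset.card_le_card
  intro x hx
  rw [Finset.mem_filter] at hx ⊢
  exact ⟨hx.1, hx.2.1⟩

/-- [d2] -/
theorem Bc_le (c : Fin n) (X : Finset (Fin n × Fin n)) : D.Bc c X ≤ D.N * D.N := by
  unfold Bc
  calc ∑ m ∈ D.F c, D.bm X m ≤ ∑ _m ∈ D.F c, D.N := Finset.sum_le_sum (fun m _ => D.bm_le X m)
    _ = D.N * D.N := by rw [Finset.sum_const, D.card_F, smul_eq_mul]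

private theorem d3_row (c m : Fin n) (X : Finset (Fin n × Fin n)) (hm : m ∈ D.F c) :
    ((univ.filter (fun e : Fin n × Fin n =>
      (e.1, c) ∉ D.Q ∧ e ∉ D.Q ∧ e ∉ cl D.R X)).filter (fun e => e.1 = m)).card + D.bm X m =
      D.N := by
  have h1 : ((univ.filter (fun e : Fin n × Fin n =>
      (e.1, c) ∉ D.Q ∧ e ∉ D.Q ∧ e ∉ cl D.R X)).filter (fun e => e.1 = m)).card =
      (univ.filter (fun x => (m, x) ∉ D.Q ∧ (m, x) ∉ cl D.R X)).card := by
    apply Finset.card_bij (fun e _ => e.2)
    · intro e he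
      rw [Finset.mem_filter, Finset.mem_filter] at he
      rw [Finset.mem_filter]
      obtain ⟨⟨-, -, h2, h3⟩, h4⟩ := he
      have h5 : (m, e.2) = e := Prod.ext h4.symm rfl
      rw [h5]
      exact ⟨Finset.mem_univ _, h2, h3⟩
    · intro e he e' he' hee
      rw [Finset.mem_filter] at he he'
      exact Prod.ext (he.2.trans he'.2.symm) hee
    · intro x hx
      rw [Finset.mem_filter] at hx
      refine ⟨(m, x), ?_, rfl⟩
      rw [Finset.mem_filter, Finset.mem_filter]
      exact ⟨⟨Finset.mem_univ _, D.mem_F.1 hm, hx.2⟩, rfl⟩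
  rw [h1, ← D.card_free m]
  unfold bm
  have h2 := Finset.card_filter_add_card_filter_not
    (s := univ.filter (fun x => (m, x) ∉ D.Q)) (fun x => (m, x) ∈ cl D.R X)
  rw [Finset.filter_filter, Finset.filter_filter] at h2
  omega

/-- [d3] the number of free elements of the free rows outside the closure is `N² - Bc`. -/
theorem card_out (c : Fin n) (X : Finset (Fin n × Fin n)) :
    (univ.filter (fun e : Fin n × Fin n => (e.1, c) ∉ D.Q ∧ e ∉ D.Q ∧ e ∉ cl D.R X)).card + D.Bc c X
      = D.N * D.N := by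
  rw [Finset.card_eq_sum_card_fiberwise (f := Prod.fst) (t := D.F c)]
  · unfold Bc
    rw [← Finset.sum_add_distrib, Finset.sum_congr rfl (fun m hm => D.d3_row c m X hm),
      Finset.sum_const, D.card_F, smul_eq_mul]
  · intro e he
    rw [Finset.mem_coe, Finset.mem_filter] at he
    exact Finset.mem_coe.2 (D.mem_F.2 he.2.1)

/-- [d3] (NH) for a dependent column, or any dependent set containing the core of column `c`. -/
theorem nh (c : Fin n) (X : Finset (Fin n × Fin n)) (hX : ∀ i, (i, c) ∈ D.Q → (i, c) ∈ X) (hr : D.R.r X < n) :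
    n * n + D.L * D.Bc c X ≤ D.L * (D.N * D.N) := by
  have h1 := D.NH c X hX hr
  have h2 := D.card_out c X
  have h3 : D.L * (D.N * D.N) = D.L *
      (univ.filter (fun e : Fin n × Fin n => (e.1, c) ∉ D.Q ∧ e ∉ D.Q ∧ e ∉ cl D.R X)).card +
      D.L * D.Bc c X := by
    rw [← h2, Nat.mul_add]
  rw [h3]
  exact Nat.add_le_add_right h1 _

/-- [d3] a column without the element of a free row contains the core. -/
theorem core_Ze {c m : Fin n} (hm : m ∈ D.F c) {z : Fin n → Fin n} (hz : z ∈ D.Om c) :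
    ∀ i, (i, c) ∈ D.Q → (i, c) ∈ Ze z m := by
  intro i hi
  rw [mem_Ze]
  refine ⟨?_, D.core_mem hz hi⟩
  rintro rfl
  exact D.mem_F.1 hm hi

/-- [d3] -/
theorem core_Zs {c : Fin n} {z : Fin n → Fin n} (hz : z ∈ D.Om c) : ∀ i, (i, c) ∈ D.Q → (i, c) ∈ Zs z := by
  intro i hi
  rw [mem_Zs]
  exact D.core_mem hz hi

end Cd

/-- [d4] Existence of the cored array.  Proof: `exists_F0` (with `Fintype.card = n * n`, `R.r univ = n` as a row has rank `n`), `t = n - r F0 ≤ k`;
for every row `exists_ext` (`B = ` the row, `F = F0`, `r (B ∪ F0) = n`) gives `D_i ⊆` row `i`, `|D_i| = t`, `r (D_i ∪ F0) = n`; `D` their union.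
`core_partition` for `N = R.con F0` (`con_add`), `row = Prod.fst`, gives `col`.  `ext_perm` on `D_i` (`f = col`, `g = Prod.snd`) gives
`τ i` with `τ i (col d) = d.2` for `d ∈ D_i`.  `Q = {(i, c) : (i, τ i c) ∈ D ∧ col (i, τ i c) = c}`.  `R' = pull R (fun e => (e.1, τ e.1 e.2))`.
(`rowQ`: `c ↦ (i, τ i c)` maps `{c | (i, c) ∈ Q}` bijectively onto `D_i`; `colQ`: `i ↦ (i, τ i c)` maps onto column `c` of `D`.)
`NH`: by `cl_pull` transported to `R`: let `X'` be the image of `X`; it contains the class `K_c` of `D`, and `r (K_c ∪ F0) = n`, so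
`r (X' ∪ F0) = n` and `n² < 2 (k+1) |(cl X')ᶜ|`; the elements `e ∉ cl X'` with `(e.1, c) ∈ Q` or `e ∈ D` are at most `2 t n`
(`t` rows with `n` elements and `t` elements of `D` in each row), `4 (k+1) * 2 t n ≤ n²`. -/
theorem exists_Cd (n k : ℕ) (R : RkF (Fin n × Fin n)) (hg : Gir R n k) (hk : 1 ≤ k)
    (hbig : 2 ^ 24 * (k + 1) ^ 2 ≤ n) (hrow : ∀ i, R.r (univ.filter (fun e : Fin n × Fin n => e.1 = i)) = n) :
    ∃ (D : Cd n) (τ : Fin n → Equiv.Perm (Fin n)),
      ∀ S : Finset (Fin n × Fin n), D.R.r S = R.r (S.image (fun e => (e.1, τ e.1 e.2))) := by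
  classical
  have hk3 : k + 1 ≤ (k + 1) ^ 2 := Nat.le_self_pow (by norm_num) _
  have hk2 : (k + 1) * (k + 1) ≤ (k + 1) ^ 2 := (pow_two _).ge
  have hn2 : 2 ≤ n := by omega
  have hcard : Fintype.card (Fin n × Fin n) = n * n := by
    rw [Fintype.card_prod, Fintype.card_fin]
  have hfull : R.r univ = n := by
    apply le_antisymm (hg.le _)
    calc n = R.r (univ.filter (fun e : Fin n × Fin n => e.1 = (⟨0, by omega⟩ : Fin n))) :=
          (hrow _).symm
      _ ≤ R.r univ := R.r_mono (Finset.subset_univ _)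
  obtain ⟨F0, hF0, hF⟩ := exists_F0 R n k hg hfull hcard hn2
  obtain ⟨t, ht⟩ : ∃ t, t + R.r F0 = n := ⟨n - R.r F0, by
    have := hg.le F0
    omega⟩
  have htk : t ≤ k := by omega
  have htn : t * t ≤ n := by
    have h1 : t * t ≤ (k + 1) * (k + 1) := Nat.mul_le_mul (by omega) (by omega)
    omega
  have hrowF : ∀ i, R.r (univ.filter (fun e : Fin n × Fin n => e.1 = i) ∪ F0) = n := by
    intro i
    apply le_antisymm (hg.le _)
    calc n = R.r (univ.filter (fun e : Fin n × Fin n => e.1 = i)) := (hrow _).symm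
      _ ≤ _ := R.r_mono Finset.subset_union_left
  have hex : ∀ i, ∃ Di ⊆ univ.filter (fun e : Fin n × Fin n => e.1 = i),
      Di.card = t ∧ R.r (Di ∪ F0) = R.r F0 + t := fun i =>
    exists_ext R _ F0 t (by
      rw [hrowF]
      omega)
  choose Di hDi1 hDi2 hDi3 using hex
  have hrowi : ∀ i e, e ∈ Di i → e.1 = i := fun i e he => (Finset.mem_filter.1 (hDi1 i he)).2
  obtain ⟨DD, hDD⟩ : ∃ DD : Finset (Fin n × Fin n), ∀ e, e ∈ DD ↔ e ∈ Di e.1 :=
    ⟨univ.filter (fun e => e ∈ Di e.1), fun e => by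
      rw [Finset.mem_filter]
      exact and_iff_right (Finset.mem_univ _)⟩
  have hDrow : ∀ i, DD.filter (fun e => Prod.fst e = i) = Di i := by
    intro i
    ext e
    rw [Finset.mem_filter, hDD]
    constructor
    · rintro ⟨h1, h2⟩
      rw [← h2]
      exact h1
    · intro h
      have h2 := hrowi i e h
      refine ⟨?_, h2⟩
      rw [h2]
      exact h
  have hNle : ∀ S, (R.con F0).r S ≤ t := by
    intro S
    have h1 := R.con_add F0 S
    have h2 := hg.le (S ∪ F0)
    omega
  obtain ⟨col, hcol, hinj⟩ := core_partition (R.con F0) n t htn hNle Prod.fst DD (fun i => by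
    rw [hDrow]
    refine ⟨hDi2 i, ?_⟩
    have h1 := R.con_add F0 (Di i)
    rw [hDi3] at h1
    omega)
  have hperm : ∀ i, ∃ σ : Equiv.Perm (Fin n), ∀ a ∈ Di i, σ (col a) = a.2 := by
    intro i
    refine ext_perm (Di i) col Prod.snd ?_ ?_
    · intro a ha b hb hab
      rw [Finset.mem_coe] at ha hb
      have ha1 := hrowi i a ha
      have hb1 := hrowi i b hb
      refine hinj a ((hDD a).2 ?_) b ((hDD b).2 ?_) hab (ha1.trans hb1.symm)
      · rw [ha1]; exact ha
      · rw [hb1]; exact hb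
    · intro a ha b hb hab
      rw [Finset.mem_coe] at ha hb
      exact Prod.ext ((hrowi i a ha).trans (hrowi i b hb).symm) hab
  choose τ hτ using hperm
  let f : (Fin n × Fin n) ≃ (Fin n × Fin n) :=
    { toFun := fun e => (e.1, τ e.1 e.2)
      invFun := fun e => (e.1, (τ e.1).symm e.2)
      left_inv := fun e => Prod.ext rfl ((τ e.1).symm_apply_apply e.2)
      right_inv := fun e => Prod.ext rfl ((τ e.1).apply_symm_apply e.2) }
  have hf : ∀ e, f e = (e.1, τ e.1 e.2) := fun e => rfl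
  have hfd : ∀ d ∈ DD, (d.1, τ d.1 (col d)) = d := fun d hd =>
    Prod.ext rfl (hτ d.1 d ((hDD d).1 hd))
  obtain ⟨Q, hQ⟩ : ∃ Q : Finset (Fin n × Fin n), ∀ i c,
      (i, c) ∈ Q ↔ (i, τ i c) ∈ DD ∧ col (i, τ i c) = c :=
    ⟨univ.filter (fun p => (p.1, τ p.1 p.2) ∈ DD ∧ col (p.1, τ p.1 p.2) = p.2), fun i c => by
      rw [Finset.mem_filter]
      exact and_iff_right (Finset.mem_univ _)⟩
  have hQD : ∀ d ∈ DD, (d.1, col d) ∈ Q := by
    intro d hd
    rw [hQ, hfd d hd]
    exact ⟨hd, rfl⟩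
  have hrowQ : ∀ i, (univ.filter (fun c => (i, c) ∈ Q)).card = t := by
    intro i
    rw [← hDi2 i]
    symm
    apply Finset.card_bij (fun d _ => col d)
    · intro d hd
      have h1 := hrowi i d hd
      rw [Finset.mem_filter]
      refine ⟨Finset.mem_univ _, ?_⟩
      have h2 := hQD d ((hDD d).2 (by rw [h1]; exact hd))
      rw [h1] at h2
      exact h2
    · intro a ha b hb hab
      have ha1 := hrowi i a ha
      have hb1 := hrowi i b hb
      refine hinj a ((hDD a).2 ?_) b ((hDD b).2 ?_) hab (ha1.trans hb1.symm)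
      · rw [ha1]; exact ha
      · rw [hb1]; exact hb
    · intro c hc
      rw [Finset.mem_filter, hQ] at hc
      exact ⟨(i, τ i c), (hDD _).1 hc.2.1, hc.2.2⟩
  have hcolQ : ∀ c, (univ.filter (fun i => (i, c) ∈ Q)).card = t := by
    intro c
    rw [← (hcol c).1]
    symm
    apply Finset.card_bij (fun d _ => d.1)
    · intro d hd
      rw [Finset.mem_filter] at hd ⊢
      refine ⟨Finset.mem_univ _, ?_⟩
      have h2 := hQD d hd.1
      rw [hd.2] at h2
      exact h2
    · intro a ha b hb hab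
      rw [Finset.mem_filter] at ha hb
      exact hinj a ha.1 b hb.1 (ha.2.trans hb.2.symm) hab
    · intro i hi
      rw [Finset.mem_filter, hQ] at hi
      exact ⟨(i, τ i c), Finset.mem_filter.2 hi.2, rfl⟩
  have hcardQ : Q.card = t * n := by
    rw [Finset.card_eq_sum_card_fiberwise (f := Prod.fst) (t := univ)
      (fun _ _ => Finset.mem_coe.2 (Finset.mem_univ _))]
    have h1 : ∀ i : Fin n, (Q.filter (fun e => e.1 = i)).card = t := by
      intro i
      rw [← hrowQ i]
      apply Finset.card_bij (fun e _ => e.2)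
      · intro e he
        rw [Finset.mem_filter] at he ⊢
        refine ⟨Finset.mem_univ _, ?_⟩
        rw [← he.2]
        exact he.1
      · intro a ha b hb hab
        rw [Finset.mem_filter] at ha hb
        exact Prod.ext (ha.2.trans hb.2.symm) hab
      · intro c hc
        rw [Finset.mem_filter] at hc
        exact ⟨(i, c), Finset.mem_filter.2 ⟨hc.2, rfl⟩, rfl⟩
    rw [Finset.sum_congr rfl (fun i _ => h1 i), Finset.sum_const, Finset.card_univ,
      Fintype.card_fin, smul_eq_mul, Nat.mul_comm]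
  have hcardC : ∀ c, (univ.filter (fun e : Fin n × Fin n => (e.1, c) ∈ Q)).card = t * n := by
    intro c
    have h1 : univ.filter (fun e : Fin n × Fin n => (e.1, c) ∈ Q) =
        (univ.filter (fun i => (i, c) ∈ Q)) ×ˢ (univ : Finset (Fin n)) := by
      ext e
      rw [Finset.mem_filter, Finset.mem_product, Finset.mem_filter]
      constructor
      · rintro ⟨-, h⟩
        exact ⟨⟨Finset.mem_univ _, h⟩, Finset.mem_univ _⟩
      · rintro ⟨⟨-, h⟩, -⟩
        exact ⟨Finset.mem_univ _, h⟩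
    rw [h1, Finset.card_product, hcolQ, Finset.card_univ, Fintype.card_fin]
  refine ⟨⟨pull R f, k, t, 4 * (k + 1), Q, ⟨fun S => hg.le _, fun X hX => ?_⟩, htk, hk, by omega,
    by nlinarith, by nlinarith, hrowQ, hcolQ,
    ?_⟩, τ, fun S => rfl⟩
  · rw [pull_r, hg.ind, Finset.card_image_of_injective _ f.injective]
    rw [Finset.card_image_of_injective _ f.injective]
    exact hX
  · intro c X hX hr
    rw [pull_r] at hr
    have hsub : DD.filter (fun e => col e = c) ⊆ X.image f := by
      intro d hd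
      rw [Finset.mem_filter] at hd
      rw [Finset.mem_image]
      refine ⟨(d.1, c), hX d.1 ?_, ?_⟩
      · have h2 := hQD d hd.1
        rw [hd.2] at h2
        exact h2
      · have h2 := hfd d hd.1
        rw [hd.2] at h2
        exact h2
    have hun : R.r (X.image f ∪ F0) = n := by
      apply le_antisymm (hg.le _)
      calc n = R.r (DD.filter (fun e => col e = c) ∪ F0) := by
            have h1 := R.con_add F0 (DD.filter (fun e => col e = c))
            rw [(hcol c).2] at h1
            omega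
        _ ≤ _ := R.r_mono (Finset.union_subset_union_left hsub)
    have hM := hF _ hr hun
    have hMc : (univ \ cl R (X.image f)).card =
        (univ.filter (fun e : Fin n × Fin n => e ∉ cl (pull R f) X)).card := by
      symm
      apply Finset.card_bij (fun e _ => f e)
      · intro e he
        rw [Finset.mem_filter, cl_pull] at he
        rw [Finset.mem_sdiff]
        exact ⟨Finset.mem_univ _, he.2⟩
      · intro a _ b _ hab
        exact f.injective hab
      · intro e he
        rw [Finset.mem_sdiff] at he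
        refine ⟨f.symm e, ?_, f.apply_symm_apply e⟩
        rw [Finset.mem_filter, cl_pull, f.apply_symm_apply]
        exact ⟨Finset.mem_univ _, he.2⟩
    have hMle : (univ.filter (fun e : Fin n × Fin n => e ∉ cl (pull R f) X)).card ≤
        (univ.filter (fun e : Fin n × Fin n => (e.1, c) ∉ Q ∧ e ∉ Q ∧ e ∉ cl (pull R f) X)).card
          + 2 * (t * n) := by
      have h1 : univ.filter (fun e : Fin n × Fin n => e ∉ cl (pull R f) X) ⊆
          (univ.filter (fun e : Fin n × Fin n =>
            (e.1, c) ∉ Q ∧ e ∉ Q ∧ e ∉ cl (pull R f) X)) ∪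
          ((univ.filter (fun e : Fin n × Fin n => (e.1, c) ∈ Q)) ∪ Q) := by
        intro e he
        rw [Finset.mem_filter] at he
        rw [Finset.mem_union, Finset.mem_union, Finset.mem_filter, Finset.mem_filter]
        by_cases h2 : (e.1, c) ∈ Q
        · exact Or.inr (Or.inl ⟨Finset.mem_univ _, h2⟩)
        · by_cases h3 : e ∈ Q
          · exact Or.inr (Or.inr h3)
          · exact Or.inl ⟨Finset.mem_univ _, h2, h3, he.2⟩
      have h2 := (Finset.card_le_card h1).trans (Finset.card_union_le _ _)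
      have h3 := Finset.card_union_le (univ.filter (fun e : Fin n × Fin n => (e.1, c) ∈ Q)) Q
      rw [hcardQ, hcardC] at h3
      omega
    rw [hMc] at hM
    show n * n ≤ 4 * (k + 1) *
      (univ.filter (fun e : Fin n × Fin n => (e.1, c) ∉ Q ∧ e ∉ Q ∧ e ∉ cl (pull R f) X)).card
    generalize (univ.filter (fun e : Fin n × Fin n =>
      (e.1, c) ∉ Q ∧ e ∉ Q ∧ e ∉ cl (pull R f) X)).card = M' at hMle ⊢
    generalize (univ.filter (fun e : Fin n × Fin n => e ∉ cl (pull R f) X)).card = M at hM hMle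
    have h5 : 8 * (k + 1) * t ≤ n := by
      have h6 : (k + 1) * t ≤ (k + 1) * (k + 1) := Nat.mul_le_mul_left _ (by omega)
      have h7 : 8 * (k + 1) * t = 8 * ((k + 1) * t) := by ring
      omega
    have h8 : 8 * (k + 1) * t * n ≤ n * n := Nat.mul_le_mul_right n h5
    have h9 : 2 * (k + 1) * M ≤ 2 * (k + 1) * (M' + 2 * (t * n)) := Nat.mul_le_mul_left _ hMle
    have h10 : 2 * (k + 1) * (M' + 2 * (t * n)) * 2 = 4 * (k + 1) * M' + 8 * (k + 1) * t * n := by
      ring
    omega

/-- [d5] The cored array with empty cores, for an array in which every set of rank less than `n` misses at least `n² / L` elements. -/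
theorem exists_Cd0 (n k L : ℕ) (R : RkF (Fin n × Fin n)) (hg : Gir R n k) (hk : 1 ≤ k) (hL : 4 ≤ L)
    (hbigK : 2 ^ 22 * (L * (k + 1)) ≤ n) (hbigL : 2 ^ 20 * (L * L) ≤ n)
    (hcog : ∀ X : Finset (Fin n × Fin n), R.r X < n → n * n ≤ L * (univ \ X).card) :
    ∃ D : Cd n, D.R = R := by
  refine ⟨⟨R, k, 0, L, ∅, hg, Nat.zero_le _, hk, hL, hbigK, hbigL, fun i => ?_, fun c => ?_,
    fun c X _ hr => ?_⟩, rfl⟩
  · simp
  · simp
  · have h1 := hcog (cl R X) (by rw [r_cl]; exact hr)
    refine h1.trans (Nat.mul_le_mul_left _ (le_of_eq ?_))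
    congr 1
    ext e
    simp

end Pool.Agent.RGs
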