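import Pool.Agent.RGs.Cd

/-!
# A random column is almost surely a basis (section 4 of the text)
-/

set_option autoImplicit false

namespace Pool.Agent.RGs

open Finset Pool.Agent.RotaP Pool.Agent.RGi

/-- [f1] Resampling one coordinate: the involution `(z, x) ↦ (update z m x, z m)`. -/
theorem swap_pi {ι α : Type*} [Fintype ι] [DecidableEq ι] (S : ι → Finset α) (m : ι)
    (G : (ι → α) → α → ℝ) :
    ∑ z ∈ Fintype.piFinset S, ∑ x ∈ S m, G z x =
      ∑ z ∈ Fintype.piFinset S, ∑ x ∈ S m, G (Function.update z m x) (z m) := by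
  rw [← Finset.sum_product', ← Finset.sum_product']
  refine Finset.sum_nbij' (fun a => (Function.update a.1 m a.2, a.1 m))
    (fun a => (Function.update a.1 m a.2, a.1 m)) ?_ ?_ ?_ ?_ ?_
  · intro a ha
    rw [Finset.mem_product, Fintype.mem_piFinset] at ha ⊢
    refine ⟨fun i => ?_, ha.1 m⟩
    by_cases h : i = m
    · subst h
      simpa using ha.2
    · simpa [h] using ha.1 i
  · intro a ha
    rw [Finset.mem_product, Fintype.mem_piFinset] at ha ⊢
    refine ⟨fun i => ?_, ha.1 m⟩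
    by_cases h : i = m
    · subst h
      simpa using ha.2
    · simpa [h] using ha.1 i
  · intro a _
    simp
  · intro a _
    simp
  · intro a _
    simp

namespace Cd

variable {n : ℕ} (D : Cd n)

/-- [f1] -/
theorem swap (c m : Fin n) (G : (Fin n → Fin n) → Fin n → ℝ) :
    ∑ z ∈ D.Om c, ∑ x ∈ D.S c m, G z x =
      ∑ z ∈ D.Om c, ∑ x ∈ D.S c m, G (Function.update z m x) (z m) := by
  exact swap_pi (D.S c) m G

/-- [f2] the rank of `Z - z_m`, of `Z`: if `x` is outside the closure of `Z - z_m` then the column with entry `x` in row `m` has rank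
one more than `Z - z_m`, otherwise the same rank and the same closure. -/
theorem rk_update_out {z : Fin n → Fin n} {m x : Fin n} (h : (m, x) ∉ cl D.R (Ze z m)) :
    D.rk (Function.update z m x) = D.R.r (Ze z m) + 1 := by
  unfold rk
  rw [Zs_update, r_insert_notMem D.R h]

/-- [f2] -/
theorem rk_update_in {z : Fin n → Fin n} {m x : Fin n} (h : (m, x) ∈ cl D.R (Ze z m)) :
    D.rk (Function.update z m x) = D.R.r (Ze z m) ∧
      cl D.R (Zs (Function.update z m x)) = cl D.R (Ze z m) := by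
  have h1 : D.R.r (insert (m, x) (Ze z m)) = D.R.r (Ze z m) := mem_cl.1 h
  unfold rk
  rw [Zs_update]
  exact ⟨h1, (cl_eq D.R (Finset.subset_insert _ _) h1).symm⟩

/-- [f2] -/
theorem rk_cases (z : Fin n → Fin n) (m : Fin n) :
    (D.R.r (Ze z m) = D.rk z ∧ cl D.R (Ze z m) = cl D.R (Zs z)) ∨ D.R.r (Ze z m) + 1 = D.rk z := by
  unfold rk
  rw [Zs_insert z m]
  by_cases h : (m, z m) ∈ cl D.R (Ze z m)
  · left
    have h1 : D.R.r (insert (m, z m) (Ze z m)) = D.R.r (Ze z m) := mem_cl.1 h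
    exact ⟨h1.symm, cl_eq D.R (Finset.subset_insert _ _) h1⟩
  · right
    exact (r_insert_notMem D.R h).symm

private theorem f3_inj (z : Fin n → Fin n) : Function.Injective (fun m : Fin n => (m, z m)) :=
  fun _ _ h => (Prod.ext_iff.1 h).1

private theorem f3_count {c : Fin n} {z : Fin n → Fin n} (hr : D.rk z = n) (b : Fin n × Fin n)
    (hb : b ∉ Zs z) : ((D.F c).filter (fun m => b ∈ cl D.R (Ze z m))).card ≤ D.k := by
  have h1 := D.gir.two (Zs z) (by rw [card_Zs]; exact hr) (by rw [card_Zs]) b hb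
  refine le_trans ?_ h1
  rw [← Finset.card_image_of_injective _ (f3_inj z)]
  apply Finset.card_le_card
  intro e he
  rw [Finset.mem_image] at he
  obtain ⟨m, hm, rfl⟩ := he
  rw [Finset.mem_filter] at hm ⊢
  rw [← Ze_eq]
  exact ⟨mem_Zs.2 rfl, hm.2⟩

/-- [f3] (1): for a basis `Z` the closures of the `Z - z_m` contain at most `(k+1) N²` elements together.
Proof: exchange the sums, `∑_m Bc (Z - z_m) = ∑_{b free} |{m : b ∈ cl (Z - z_m)}|`; `b ∉ Z` contributes `≤ k` (`Gir.two` for `Zs z`), the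
`N` elements `b ∈ Z` contribute at most `N` each. -/
theorem basis_sum {c : Fin n} {z : Fin n → Fin n} (hr : D.rk z = n) :
    ∑ m ∈ D.F c, D.Bc c (Ze z m) ≤ (D.k + 1) * (D.N * D.N) := by
  have h1 : ∀ m' ∈ D.F c, ∑ m ∈ D.F c, D.bm (Ze z m) m' ≤ (D.k + 1) * D.N := by
    intro m' _
    have e1 : ∀ m, D.bm (Ze z m) m' = ∑ x ∈ univ.filter (fun x => (m', x) ∉ D.Q),
        if (m', x) ∈ cl D.R (Ze z m) then 1 else 0 := by
      intro m
      rw [← Finset.card_filter, Finset.filter_filter]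
      rfl
    have e2 : ∀ x ∈ univ.filter (fun x => (m', x) ∉ D.Q),
        ∑ m ∈ D.F c, (if (m', x) ∈ cl D.R (Ze z m) then 1 else 0) ≤
          D.k + if x = z m' then D.N else 0 := by
      intro x _
      rw [← Finset.card_filter]
      by_cases hx : x = z m'
      · rw [if_pos hx]
        have := Finset.card_filter_le (D.F c) (fun m => (m', x) ∈ cl D.R (Ze z m))
        rw [D.card_F] at this
        omega
      · rw [if_neg hx, Nat.add_zero]
        exact D.f3_count hr (m', x) (fun h => hx (mem_Zs.1 h).symm)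
    calc ∑ m ∈ D.F c, D.bm (Ze z m) m' = ∑ m ∈ D.F c,
          ∑ x ∈ univ.filter (fun x => (m', x) ∉ D.Q),
            (if (m', x) ∈ cl D.R (Ze z m) then 1 else 0) :=
          Finset.sum_congr rfl (fun m _ => e1 m)
      _ = ∑ x ∈ univ.filter (fun x => (m', x) ∉ D.Q), ∑ m ∈ D.F c,
            (if (m', x) ∈ cl D.R (Ze z m) then 1 else 0) := Finset.sum_comm
      _ ≤ ∑ x ∈ univ.filter (fun x => (m', x) ∉ D.Q), (D.k + if x = z m' then D.N else 0) :=
          Finset.sum_le_sum e2
      _ = D.N * D.k + ∑ x ∈ univ.filter (fun x => (m', x) ∉ D.Q),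
            (if x = z m' then D.N else 0) := by
          rw [Finset.sum_add_distrib, Finset.sum_const, D.card_free, smul_eq_mul]
      _ ≤ D.N * D.k + D.N := by
          apply Nat.add_le_add_left
          rw [Finset.sum_ite_eq']
          split_ifs
          · exact le_refl _
          · exact Nat.zero_le _
      _ = (D.k + 1) * D.N := by ring
  calc ∑ m ∈ D.F c, D.Bc c (Ze z m) = ∑ m' ∈ D.F c, ∑ m ∈ D.F c, D.bm (Ze z m) m' :=
        Finset.sum_comm
    _ ≤ ∑ _m' ∈ D.F c, (D.k + 1) * D.N := Finset.sum_le_sum h1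
    _ = (D.k + 1) * (D.N * D.N) := by
        rw [Finset.sum_const, D.card_F, smul_eq_mul]
        ring

/-- [f3] the coloops of a dependent column (`Gir.three`). -/
theorem card_coloop {c : Fin n} {z : Fin n → Fin n} (hr : D.rk z < n) :
    ((D.F c).filter (fun m => D.R.r (Ze z m) < D.rk z)).card + 1 ≤ D.k := by
  have h1 := D.gir.three (Zs z) (by rw [card_Zs]; exact hr) (by rw [card_Zs])
  refine le_trans (Nat.add_le_add_right ?_ 1) h1
  rw [← Finset.card_image_of_injective _ (f3_inj z)]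
  apply Finset.card_le_card
  intro e he
  rw [Finset.mem_image] at he
  obtain ⟨m, hm, rfl⟩ := he
  rw [Finset.mem_filter] at hm ⊢
  rw [← Ze_eq]
  exact ⟨mem_Zs.2 rfl, hm.2⟩

/-- [f4] Proof: the sum over all `m ∈ F c` of `N - bm` is `N² - Bc`, the coloops contribute at most `(k-1) N`. -/
theorem noncol_sum {c : Fin n} {z : Fin n → Fin n} (hr : D.rk z < n) :
    (D.N : ℝ) ^ 2 - D.Bc c (Zs z) - ((D.k : ℝ) - 1) * D.N ≤
      ∑ m ∈ (D.F c).filter (fun m => D.R.r (Ze z m) = D.rk z), ((D.N : ℝ) - D.bm (Zs z) m) := by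
  have h1 := D.card_coloop (c := c) hr
  have h2 : ∀ m, D.R.r (Ze z m) ≠ D.rk z ↔ D.R.r (Ze z m) < D.rk z := by
    intro m
    have : D.R.r (Ze z m) ≤ D.rk z := by
      unfold rk
      apply D.R.r_mono
      rw [Zs_insert z m]
      exact Finset.subset_insert _ _
    omega
  have h3 := Finset.sum_filter_add_sum_filter_not (D.F c) (fun m => D.R.r (Ze z m) = D.rk z)
    (fun m => ((D.N : ℝ) - D.bm (Zs z) m))
  have h4 : ∑ m ∈ D.F c, ((D.N : ℝ) - D.bm (Zs z) m) = (D.N : ℝ) ^ 2 - D.Bc c (Zs z) := by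
    rw [Finset.sum_sub_distrib, Finset.sum_const, D.card_F, nsmul_eq_mul]
    unfold Bc
    push_cast
    ring
  have h5 : ∑ m ∈ (D.F c).filter (fun m => ¬ D.R.r (Ze z m) = D.rk z),
      ((D.N : ℝ) - D.bm (Zs z) m) ≤ ((D.k : ℝ) - 1) * D.N := by
    have e1 : (((D.F c).filter (fun m => ¬ D.R.r (Ze z m) = D.rk z)).card : ℝ) ≤
        (D.k : ℝ) - 1 := by
      have e2 : ((D.F c).filter (fun m => ¬ D.R.r (Ze z m) = D.rk z)).card + 1 ≤ D.k := by
        rw [Finset.filter_congr (fun m _ => h2 m)]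
        exact h1
      have e3 : ((((D.F c).filter (fun m => ¬ D.R.r (Ze z m) = D.rk z)).card + 1 : ℕ) : ℝ) ≤
          (D.k : ℝ) := by exact_mod_cast e2
      push_cast at e3
      linarith
    calc ∑ m ∈ (D.F c).filter (fun m => ¬ D.R.r (Ze z m) = D.rk z),
          ((D.N : ℝ) - D.bm (Zs z) m) ≤
        ∑ _m ∈ (D.F c).filter (fun m => ¬ D.R.r (Ze z m) = D.rk z), (D.N : ℝ) := by
          apply Finset.sum_le_sum
          intro m _
          have : (0 : ℝ) ≤ D.bm (Zs z) m := Nat.cast_nonneg _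
          linarith
      _ = (((D.F c).filter (fun m => ¬ D.R.r (Ze z m) = D.rk z)).card : ℝ) * D.N := by
          rw [Finset.sum_const, nsmul_eq_mul]
      _ ≤ ((D.k : ℝ) - 1) * D.N := mul_le_mul_of_nonneg_right e1 (Nat.cast_nonneg _)
  linarith

theorem L_ge : (4 : ℝ) ≤ D.L := by exact_mod_cast D.L4

theorem N_bigLR : (2 : ℝ) ^ 21 * ((D.L : ℝ) * ((D.k : ℝ) + 1)) ≤ D.N := by
  have h1 := D.N_bigL
  have h2 : ((2 ^ 21 * (D.L * (D.k + 1)) : ℕ) : ℝ) ≤ (D.N : ℝ) := by exact_mod_cast h1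
  push_cast at h2
  linarith

theorem f4_num : 2 * (D.L : ℝ) * ((D.k : ℝ) - 1) ≤ D.N ∧ (0 : ℝ) < D.N := by
  have h1 := D.N_bigLR
  have h2 : (0 : ℝ) ≤ D.k := Nat.cast_nonneg _
  have h3 := D.L_ge
  have h4 : (0 : ℝ) < (D.L : ℝ) * ((D.k : ℝ) + 1) := by positivity
  have h5 : (0 : ℝ) ≤ (D.L : ℝ) * D.k := by positivity
  constructor
  · nlinarith
  · linarith

/-- [f4] `N² - Bc ≥ δ n² ≥ δ N²`, and `(k-1) N ≤ δ N² / 2`. -/
theorem noncol_sum_nh {c : Fin n} {z : Fin n → Fin n} (hz : z ∈ D.Om c) (hr : D.rk z < n) :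
    (D.N : ℝ) ^ 2 / (2 * D.L) ≤
      ∑ m ∈ (D.F c).filter (fun m => D.R.r (Ze z m) = D.rk z), ((D.N : ℝ) - D.bm (Zs z) m) := by
  have h1 := D.noncol_sum (c := c) hr
  refine le_trans ?_ h1
  have h2 := D.nh c (Zs z) (D.core_Zs hz) hr
  have h3 : ((n * n + D.L * D.Bc c (Zs z) : ℕ) : ℝ) ≤
      ((D.L * (D.N * D.N) : ℕ) : ℝ) := by exact_mod_cast h2
  push_cast at h3
  obtain ⟨h4, h5⟩ := D.f4_num
  have h6 : (D.N : ℝ) ≤ n := by
    have := D.N_add
    have h : D.N ≤ n := by omega
    exact_mod_cast h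
  have hk : (0 : ℝ) ≤ D.k := Nat.cast_nonneg _
  have hL := D.L_ge
  rw [div_le_iff₀ (by positivity)]
  have h7 : (D.N : ℝ) * D.N ≤ (n : ℝ) * n := mul_le_mul h6 h6 h5.le (by linarith)
  have h8 : 2 * (D.L : ℝ) * ((D.k : ℝ) - 1) * D.N ≤ (D.N : ℝ) * D.N :=
    mul_le_mul_of_nonneg_right h4 h5.le
  nlinarith

/-- [f4] -/
theorem noncol_sum_small {c : Fin n} {z : Fin n → Fin n} (hr : D.rk z < n)
    (hB : 2 * D.Bc c (Zs z) ≤ D.N * D.N) :
    (D.N : ℝ) ^ 2 / 3 ≤
      ∑ m ∈ (D.F c).filter (fun m => D.R.r (Ze z m) = D.rk z), ((D.N : ℝ) - D.bm (Zs z) m) := by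
  have h1 := D.noncol_sum (c := c) hr
  refine le_trans ?_ h1
  obtain ⟨h4, h5⟩ := D.f4_num
  have hk : (0 : ℝ) ≤ D.k := Nat.cast_nonneg _
  have hk1 : (1 : ℝ) ≤ D.k := by exact_mod_cast D.k1
  have h3 : ((2 * D.Bc c (Zs z) : ℕ) : ℝ) ≤ ((D.N * D.N : ℕ) : ℝ) := by exact_mod_cast hB
  push_cast at h3
  have hL := D.L_ge
  have h6 : 6 * ((D.k : ℝ) - 1) ≤ D.N := by nlinarith
  have h7 : 6 * ((D.k : ℝ) - 1) * D.N ≤ (D.N : ℝ) * D.N := mul_le_mul_of_nonneg_right h6 h5.le
  nlinarith

private theorem f5_cl {c : Fin n} {X Y : Finset (Fin n × Fin n)} (h : cl D.R X = cl D.R Y) :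
    D.Bc c X = D.Bc c Y := by
  unfold Bc bm
  rw [h]

private theorem f5_out {c m : Fin n} (hm : m ∈ D.F c) (X : Finset (Fin n × Fin n)) :
    (((D.S c m).filter (fun x => (m, x) ∉ cl D.R X)).card : ℝ) = (D.N : ℝ) - D.bm X m := by
  rw [D.S_free hm]
  have h1 := Finset.card_filter_add_card_filter_not
    (s := univ.filter (fun x => (m, x) ∉ D.Q)) (fun x => (m, x) ∈ cl D.R X)
  rw [D.card_free] at h1
  have h2 : ((univ.filter (fun x => (m, x) ∉ D.Q)).filter (fun x => (m, x) ∈ cl D.R X)).card =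
      D.bm X m := by
    rw [Finset.filter_filter]
    rfl
  rw [h2] at h1
  have h3 : ((D.bm X m + ((univ.filter (fun x => (m, x) ∉ D.Q)).filter
      (fun x => ¬ (m, x) ∈ cl D.R X)).card : ℕ) : ℝ) = (D.N : ℝ) := by exact_mod_cast h1
  push_cast at h3
  linarith

private theorem f5_in {c m : Fin n} (hm : m ∈ D.F c) (X : Finset (Fin n × Fin n)) :
    ((D.S c m).filter (fun x => (m, x) ∈ cl D.R X)).card = D.bm X m := by
  rw [D.S_free hm, Finset.filter_filter]
  rfl

private theorem f5_cond {z : Fin n → Fin n} {m x : Fin n} :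
    (D.rk (Function.update z m x) + 1 = n ∧
      D.R.r (Ze (Function.update z m x) m) = D.rk (Function.update z m x) ∧
      (m, z m) ∉ cl D.R (Zs (Function.update z m x))) ↔
    (D.rk z = n ∧ (m, x) ∈ cl D.R (Ze z m)) := by
  rw [Ze_update]
  by_cases h : (m, x) ∈ cl D.R (Ze z m)
  · obtain ⟨h1, h2⟩ := D.rk_update_in h
    rw [h1, h2]
    by_cases h3 : (m, z m) ∈ cl D.R (Ze z m)
    · have h4 : D.rk z = D.R.r (Ze z m) := by
        have := (D.rk_update_in h3).1
        rwa [Function.update_eq_self] at this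
      have h5 : D.R.r (Ze z m) ≤ (Ze z m).card := D.R.r_le_card _
      have h6 := card_Ze z m
      constructor
      · rintro ⟨-, -, h7⟩
        exact absurd h3 h7
      · rintro ⟨h7, -⟩
        omega
    · have h4 : D.rk z = D.R.r (Ze z m) + 1 := by
        have := D.rk_update_out h3
        rwa [Function.update_eq_self] at this
      constructor
      · rintro ⟨h5, -, -⟩
        exact ⟨by omega, h⟩
      · rintro ⟨h5, -⟩
        exact ⟨by omega, rfl, h3⟩
  · have h1 := D.rk_update_out h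
    constructor
    · rintro ⟨-, h2, -⟩
      omega
    · rintro ⟨-, h2⟩
      exact absurd h2 h

/-- [f5] The flow identity.  Proof: for fixed `m ∈ F c` use `swap` with
`G z x = 1[rk z + 1 = n, r (Z - z_m) = rk z, (m, x) ∉ cl Z] φ (Bc Z)` (its sum over `x ∈ S c m` is `(N - bm Z m) φ` or `0`); by f2
`G (update z m x) (z m) = 1[rk z = n, (m, x) ∈ cl (Z - z_m)] φ (Bc (Z - z_m))`. -/
theorem flow (c : Fin n) (φ : ℕ → ℝ) :
    ∑ z ∈ (D.Om c).filter (fun z => D.rk z + 1 = n),
      ∑ m ∈ (D.F c).filter (fun m => D.R.r (Ze z m) = D.rk z),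
        ((D.N : ℝ) - D.bm (Zs z) m) * φ (D.Bc c (Zs z)) =
    ∑ z ∈ (D.Om c).filter (fun z => D.rk z = n), ∑ m ∈ D.F c,
        (D.bm (Ze z m) m : ℝ) * φ (D.Bc c (Ze z m)) := by
  set G : Fin n → (Fin n → Fin n) → Fin n → ℝ := fun m z x =>
    if D.rk z + 1 = n ∧ D.R.r (Ze z m) = D.rk z ∧ (m, x) ∉ cl D.R (Zs z) then
      φ (D.Bc c (Zs z)) else 0 with hG
  have hL : ∀ m ∈ D.F c, ∑ z ∈ D.Om c, ∑ x ∈ D.S c m, G m z x =
      ∑ z ∈ D.Om c, if D.rk z + 1 = n ∧ D.R.r (Ze z m) = D.rk z then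
        ((D.N : ℝ) - D.bm (Zs z) m) * φ (D.Bc c (Zs z)) else 0 := by
    intro m hm
    refine Finset.sum_congr rfl fun z _ => ?_
    by_cases h : D.rk z + 1 = n ∧ D.R.r (Ze z m) = D.rk z
    · rw [if_pos h, ← D.f5_out hm, ← nsmul_eq_mul, ← Finset.sum_const, Finset.sum_filter]
      refine Finset.sum_congr rfl fun x _ => ?_
      simp only [hG]
      by_cases hx : (m, x) ∉ cl D.R (Zs z)
      · rw [if_pos ⟨h.1, h.2, hx⟩, if_pos hx]
      · rw [if_neg (fun hh => hx hh.2.2), if_neg hx]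
    · rw [if_neg h]
      refine Finset.sum_eq_zero fun x _ => ?_
      simp only [hG]
      rw [if_neg (fun hh => h ⟨hh.1, hh.2.1⟩)]
  have hR : ∀ m ∈ D.F c, ∑ z ∈ D.Om c, ∑ x ∈ D.S c m, G m (Function.update z m x) (z m) =
      ∑ z ∈ D.Om c, if D.rk z = n then
        (D.bm (Ze z m) m : ℝ) * φ (D.Bc c (Ze z m)) else 0 := by
    intro m hm
    refine Finset.sum_congr rfl fun z _ => ?_
    by_cases h : D.rk z = n
    · rw [if_pos h, ← D.f5_in hm, ← nsmul_eq_mul, ← Finset.sum_const, Finset.sum_filter]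
      refine Finset.sum_congr rfl fun x _ => ?_
      simp only [hG]
      by_cases hx : (m, x) ∈ cl D.R (Ze z m)
      · rw [if_pos (D.f5_cond.2 ⟨h, hx⟩), if_pos hx, D.f5_cl (D.rk_update_in hx).2]
      · rw [if_neg (fun hh => hx (D.f5_cond.1 hh).2), if_neg hx]
    · rw [if_neg h]
      refine Finset.sum_eq_zero fun x _ => ?_
      simp only [hG]
      rw [if_neg (fun hh => h (D.f5_cond.1 hh).1)]
  have h1 : ∑ z ∈ (D.Om c).filter (fun z => D.rk z + 1 = n),
      ∑ m ∈ (D.F c).filter (fun m => D.R.r (Ze z m) = D.rk z),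
        ((D.N : ℝ) - D.bm (Zs z) m) * φ (D.Bc c (Zs z)) =
      ∑ m ∈ D.F c, ∑ z ∈ D.Om c, ∑ x ∈ D.S c m, G m z x := by
    rw [Finset.sum_congr rfl hL, Finset.sum_comm, Finset.sum_filter]
    refine Finset.sum_congr rfl fun z _ => ?_
    by_cases h : D.rk z + 1 = n
    · rw [if_pos h, Finset.sum_filter]
      refine Finset.sum_congr rfl fun m _ => ?_
      by_cases h' : D.R.r (Ze z m) = D.rk z
      · rw [if_pos h', if_pos ⟨h, h'⟩]
      · rw [if_neg h', if_neg (fun hh => h' hh.2)]
    · rw [if_neg h]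
      symm
      refine Finset.sum_eq_zero fun m _ => ?_
      rw [if_neg (fun hh => h hh.1)]
  have h2 : ∑ z ∈ (D.Om c).filter (fun z => D.rk z = n), ∑ m ∈ D.F c,
        (D.bm (Ze z m) m : ℝ) * φ (D.Bc c (Ze z m)) =
      ∑ m ∈ D.F c, ∑ z ∈ D.Om c, ∑ x ∈ D.S c m, G m (Function.update z m x) (z m) := by
    rw [Finset.sum_congr rfl hR, Finset.sum_comm]
    refine Finset.sum_congr rfl fun m _ => ?_
    rw [Finset.sum_filter]
  rw [h1, h2]
  exact Finset.sum_congr rfl fun m _ => D.swap c m (G m)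

/-- corank one, closure contains at most half of the free elements -/
def A1 (c : Fin n) : Finset (Fin n → Fin n) :=
  (D.Om c).filter (fun z => D.rk z + 1 = n ∧ 2 * D.Bc c (Zs z) ≤ D.N * D.N)

/-- corank one, closure contains more than half of the free elements -/
def L1 (c : Fin n) : Finset (Fin n → Fin n) :=
  (D.Om c).filter (fun z => D.rk z + 1 = n ∧ D.N * D.N < 2 * D.Bc c (Zs z))

/-- [f6] `flow` with `φ b = b` for `2 b ≤ N²`, `0` otherwise; left side `≥ (N²/3) ∑_{A1} Bc` (`noncol_sum_small`), right side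
`≤ ∑_z N (k+1) N²` (`bm_le`, `basis_sum`). -/
theorem flow_small (c : Fin n) :
    ∑ z ∈ D.A1 c, (D.Bc c (Zs z) : ℝ) ≤ 3 * (D.k + 1) * D.N * (D.Om c).card := by
  obtain ⟨-, hN⟩ := D.f4_num
  have hf := D.flow c (fun b => if 2 * b ≤ D.N * D.N then (b : ℝ) else 0)
  have h1 : (D.N : ℝ) ^ 2 / 3 * ∑ z ∈ D.A1 c, (D.Bc c (Zs z) : ℝ) ≤
      ∑ z ∈ (D.Om c).filter (fun z => D.rk z + 1 = n),
      ∑ m ∈ (D.F c).filter (fun m => D.R.r (Ze z m) = D.rk z),
        ((D.N : ℝ) - D.bm (Zs z) m) *
          (if 2 * D.Bc c (Zs z) ≤ D.N * D.N then (D.Bc c (Zs z) : ℝ) else 0) := by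
    have e1 : D.A1 c = ((D.Om c).filter (fun z => D.rk z + 1 = n)).filter
        (fun z => 2 * D.Bc c (Zs z) ≤ D.N * D.N) := by
      unfold A1
      rw [Finset.filter_filter]
    rw [e1, Finset.mul_sum, Finset.sum_filter]
    apply Finset.sum_le_sum
    intro z hz
    rw [Finset.mem_filter] at hz
    rw [← Finset.sum_mul]
    by_cases h : 2 * D.Bc c (Zs z) ≤ D.N * D.N
    · rw [if_pos h, if_pos h]
      exact mul_le_mul_of_nonneg_right (D.noncol_sum_small (c := c) (by omega) h)
        (Nat.cast_nonneg _)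
    · rw [if_neg h, if_neg h, mul_zero]
  have h2 : ∑ z ∈ (D.Om c).filter (fun z => D.rk z = n), ∑ m ∈ D.F c,
        (D.bm (Ze z m) m : ℝ) *
          (if 2 * D.Bc c (Ze z m) ≤ D.N * D.N then (D.Bc c (Ze z m) : ℝ) else 0) ≤
      ((D.Om c).card : ℝ) * (D.N * ((D.k + 1) * (D.N * D.N))) := by
    calc _ ≤ ∑ _z ∈ (D.Om c).filter (fun z => D.rk z = n),
          ((D.N : ℝ) * ((D.k + 1) * (D.N * D.N))) := by
          apply Finset.sum_le_sum
          intro z hz
          rw [Finset.mem_filter] at hz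
          have h3 := D.basis_sum (c := c) hz.2
          have h4 : ((∑ m ∈ D.F c, D.Bc c (Ze z m) : ℕ) : ℝ) ≤
              (((D.k + 1) * (D.N * D.N) : ℕ) : ℝ) := by exact_mod_cast h3
          push_cast at h4
          calc _ ≤ ∑ m ∈ D.F c, (D.N : ℝ) * (D.Bc c (Ze z m) : ℝ) := by
                apply Finset.sum_le_sum
                intro m _
                have h5 : (D.bm (Ze z m) m : ℝ) ≤ D.N := by exact_mod_cast D.bm_le _ _
                have h6 : (0 : ℝ) ≤ D.Bc c (Ze z m) := Nat.cast_nonneg _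
                split_ifs
                · exact mul_le_mul_of_nonneg_right h5 h6
                · rw [mul_zero]
                  positivity
            _ = (D.N : ℝ) * ∑ m ∈ D.F c, (D.Bc c (Ze z m) : ℝ) := by rw [Finset.mul_sum]
            _ ≤ (D.N : ℝ) * ((D.k + 1) * (D.N * D.N)) :=
                mul_le_mul_of_nonneg_left h4 hN.le
      _ = (((D.Om c).filter (fun z => D.rk z = n)).card : ℝ) *
            (D.N * ((D.k + 1) * (D.N * D.N))) := by rw [Finset.sum_const, nsmul_eq_mul]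
      _ ≤ ((D.Om c).card : ℝ) * (D.N * ((D.k + 1) * (D.N * D.N))) := by
          apply mul_le_mul_of_nonneg_right _ (by positivity)
          exact_mod_cast Finset.card_filter_le _ _
  have h3 : (D.N : ℝ) ^ 2 / 3 * ∑ z ∈ D.A1 c, (D.Bc c (Zs z) : ℝ) ≤
      (D.N : ℝ) ^ 2 / 3 * (3 * (D.k + 1) * D.N * (D.Om c).card) := by
    calc _ ≤ _ := h1
      _ = _ := hf
      _ ≤ _ := h2
      _ = _ := by ring
  exact le_of_mul_le_mul_left h3 (by positivity)

/-- [f7] `flow` with `φ b = 1` for `N² < 2 b`, `0` otherwise; left side `≥ |L1| N² / (2 L)` (`noncol_sum_nh`), right side: for a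
basis at most `2 (k+1)` rows `m` have `N² < 2 Bc (Z - z_m)` (`basis_sum`), each contributes `≤ N`. -/
theorem flow_large (c : Fin n) :
    (D.N : ℝ) * (D.L1 c).card ≤ 4 * (D.L * (D.k + 1)) * (D.Om c).card := by
  obtain ⟨-, hN⟩ := D.f4_num
  have hk : (0 : ℝ) ≤ D.k := Nat.cast_nonneg _
  have hL := D.L_ge
  have hf := D.flow c (fun b => if D.N * D.N < 2 * b then (1 : ℝ) else 0)
  have h1 : (D.N : ℝ) ^ 2 / (2 * D.L) * ((D.L1 c).card : ℝ) ≤
      ∑ z ∈ (D.Om c).filter (fun z => D.rk z + 1 = n),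
      ∑ m ∈ (D.F c).filter (fun m => D.R.r (Ze z m) = D.rk z),
        ((D.N : ℝ) - D.bm (Zs z) m) *
          (if D.N * D.N < 2 * D.Bc c (Zs z) then (1 : ℝ) else 0) := by
    have e1 : D.L1 c = ((D.Om c).filter (fun z => D.rk z + 1 = n)).filter
        (fun z => D.N * D.N < 2 * D.Bc c (Zs z)) := by
      unfold L1
      rw [Finset.filter_filter]
    rw [e1, mul_comm, ← nsmul_eq_mul, ← Finset.sum_const, Finset.sum_filter]
    apply Finset.sum_le_sum
    intro z hz
    rw [Finset.mem_filter] at hz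
    rw [← Finset.sum_mul]
    by_cases h : D.N * D.N < 2 * D.Bc c (Zs z)
    · rw [if_pos h, if_pos h, mul_one]
      exact D.noncol_sum_nh hz.1 (by omega)
    · rw [if_neg h, if_neg h, mul_zero]
  have h2 : ∑ z ∈ (D.Om c).filter (fun z => D.rk z = n), ∑ m ∈ D.F c,
        (D.bm (Ze z m) m : ℝ) *
          (if D.N * D.N < 2 * D.Bc c (Ze z m) then (1 : ℝ) else 0) ≤
      ((D.Om c).card : ℝ) * (D.N * (2 * (D.k + 1))) := by
    calc _ ≤ ∑ _z ∈ (D.Om c).filter (fun z => D.rk z = n),
          ((D.N : ℝ) * (2 * (D.k + 1))) := by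
          apply Finset.sum_le_sum
          intro z hz
          rw [Finset.mem_filter] at hz
          have h3 := D.basis_sum (c := c) hz.2
          have h4 : ((∑ m ∈ D.F c, D.Bc c (Ze z m) : ℕ) : ℝ) ≤
              (((D.k + 1) * (D.N * D.N) : ℕ) : ℝ) := by exact_mod_cast h3
          push_cast at h4
          have h7 : ∑ m ∈ D.F c, (if D.N * D.N < 2 * D.Bc c (Ze z m) then (1 : ℝ) else 0) ≤
              2 * (D.k + 1) := by
            have h8 : (D.N : ℝ) * D.N *
                ∑ m ∈ D.F c, (if D.N * D.N < 2 * D.Bc c (Ze z m) then (1 : ℝ) else 0) ≤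
                (D.N : ℝ) * D.N * (2 * (D.k + 1)) := by
              calc _ ≤ ∑ m ∈ D.F c, 2 * (D.Bc c (Ze z m) : ℝ) := by
                    rw [Finset.mul_sum]
                    apply Finset.sum_le_sum
                    intro m _
                    split_ifs with h9
                    · have : ((D.N * D.N : ℕ) : ℝ) ≤ ((2 * D.Bc c (Ze z m) : ℕ) : ℝ) := by
                        exact_mod_cast h9.le
                      push_cast at this
                      linarith
                    · rw [mul_zero]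
                      positivity
                _ = 2 * ∑ m ∈ D.F c, (D.Bc c (Ze z m) : ℝ) := by rw [Finset.mul_sum]
                _ ≤ (D.N : ℝ) * D.N * (2 * (D.k + 1)) := by linarith
            exact le_of_mul_le_mul_left h8 (by positivity)
          calc _ ≤ ∑ m ∈ D.F c, (D.N : ℝ) *
                (if D.N * D.N < 2 * D.Bc c (Ze z m) then (1 : ℝ) else 0) := by
                apply Finset.sum_le_sum
                intro m _
                have h5 : (D.bm (Ze z m) m : ℝ) ≤ D.N := by exact_mod_cast D.bm_le _ _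
                apply mul_le_mul_of_nonneg_right h5
                split_ifs
                · exact zero_le_one
                · exact le_refl _
            _ = (D.N : ℝ) * ∑ m ∈ D.F c,
                (if D.N * D.N < 2 * D.Bc c (Ze z m) then (1 : ℝ) else 0) := by
                rw [Finset.mul_sum]
            _ ≤ (D.N : ℝ) * (2 * (D.k + 1)) :=
                mul_le_mul_of_nonneg_left h7 hN.le
      _ = (((D.Om c).filter (fun z => D.rk z = n)).card : ℝ) *
            (D.N * (2 * (D.k + 1))) := by rw [Finset.sum_const, nsmul_eq_mul]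
      _ ≤ ((D.Om c).card : ℝ) * (D.N * (2 * (D.k + 1))) := by
          apply mul_le_mul_of_nonneg_right _ (by positivity)
          exact_mod_cast Finset.card_filter_le _ _
  have h3 : (D.N : ℝ) / (2 * D.L) * (D.N * (D.L1 c).card) ≤
      (D.N : ℝ) / (2 * D.L) * (4 * (D.L * (D.k + 1)) * (D.Om c).card) := by
    calc _ = (D.N : ℝ) ^ 2 / (2 * D.L) * ((D.L1 c).card : ℝ) := by ring
      _ ≤ _ := h1
      _ = _ := hf
      _ ≤ _ := h2
      _ = _ := by
        field_simp
        ring
  exact le_of_mul_le_mul_left h3 (by positivity)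

theorem f10_count (c m : Fin n) (hm : m ∈ D.F c) (X : Finset (Fin n × Fin n)) :
    (D.N : ℝ) - D.bm X m = (((D.S c m).filter (fun x => (m, x) ∉ cl D.R X)).card : ℝ) := by
  have h1 : ((D.S c m).filter (fun x => (m, x) ∈ cl D.R X)).card +
      ((D.S c m).filter (fun x => ¬ (m, x) ∈ cl D.R X)).card = (D.S c m).card :=
    Finset.card_filter_add_card_filter_not _
  have h2 : (D.S c m).filter (fun x => (m, x) ∈ cl D.R X) =
      univ.filter (fun x => (m, x) ∉ D.Q ∧ (m, x) ∈ cl D.R X) := by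
    rw [D.S_free hm, Finset.filter_filter]
  rw [h2, D.card_S hm] at h1
  have h3 : (D.bm X m : ℝ) + (((D.S c m).filter (fun x => (m, x) ∉ cl D.R X)).card : ℝ) = D.N := by
    unfold bm
    exact_mod_cast h1
  linarith

/-- [f10] (4).  Proof: `swap` for `G z x = 1[rk z + u + 1 = n, r (Z - z_m) = rk z, (m, x) ∉ cl Z]`, summed over `m ∈ F c`.  Left side
`≥ |level u+1| N²/(2 L)` (`noncol_sum_nh`).  `G (update z m x) (z m) = 1` implies `rk z + u = n` and `m` is a coloop of `z`
(`r (Z - z_m) + 1 = rk z`), at most `k - 1` such `m`, `N` values of `x`: right side `≤ |level u| k N`; `16 (k+1) k ≤ N`. -/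
theorem level (c : Fin n) (u : ℕ) (hu : 1 ≤ u) :
    2 * ((D.Om c).filter (fun z => D.rk z + (u + 1) = n)).card ≤
      ((D.Om c).filter (fun z => D.rk z + u = n)).card := by

  classical
  have hN : 0 < D.N := lt_of_lt_of_le (by positivity) D.N_big
  have hNR : (0 : ℝ) < D.N := by exact_mod_cast hN
  have hk : (1 : ℝ) ≤ D.k := by exact_mod_cast D.k1
  set a1 := (D.Om c).filter (fun z => D.rk z + (u + 1) = n) with ha1
  set a0 := (D.Om c).filter (fun z => D.rk z + u = n) with ha0
  set P : Fin n → (Fin n → Fin n) → Fin n → Prop := fun m z x =>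
    D.rk z + (u + 1) = n ∧ D.R.r (Ze z m) = D.rk z ∧ (m, x) ∉ cl D.R (Zs z) with hP
  set G : Fin n → (Fin n → Fin n) → Fin n → ℝ := fun m z x => if P m z x then 1 else 0 with hG
  -- the left side
  have hL : ∑ z ∈ a1, ∑ m ∈ (D.F c).filter (fun m => D.R.r (Ze z m) = D.rk z), ((D.N : ℝ) - D.bm (Zs z) m)
      = ∑ m ∈ D.F c, ∑ z ∈ D.Om c, ∑ x ∈ D.S c m, G m z x := by
    rw [Finset.sum_comm, ha1, Finset.sum_filter]
    refine Finset.sum_congr rfl fun z _ => ?_
    by_cases hz : D.rk z + (u + 1) = n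
    · rw [if_pos hz, Finset.sum_filter]
      refine Finset.sum_congr rfl fun m hm => ?_
      by_cases hm2 : D.R.r (Ze z m) = D.rk z
      · rw [if_pos hm2, f10_count D c m hm (Zs z)]
        rw [Finset.card_filter]
        push_cast
        refine Finset.sum_congr rfl fun x _ => ?_
        by_cases hx : (m, x) ∉ cl D.R (Zs z)
        · rw [if_pos hx, hG]
          simp only
          rw [if_pos ⟨hz, hm2, hx⟩]
        · rw [if_neg hx, hG]
          simp only
          rw [if_neg (fun h => hx h.2.2)]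
      · rw [if_neg hm2]
        symm
        refine Finset.sum_eq_zero fun x _ => ?_
        rw [hG]
        simp only
        rw [if_neg (fun h => hm2 h.2.1)]
    · rw [if_neg hz]
      symm
      refine Finset.sum_eq_zero fun m _ => Finset.sum_eq_zero fun x _ => ?_
      rw [hG]
      simp only
      rw [if_neg (fun h => hz h.1)]
  have hLge : (a1.card : ℝ) * ((D.N : ℝ) ^ 2 / (2 * D.L)) ≤
      ∑ z ∈ a1, ∑ m ∈ (D.F c).filter (fun m => D.R.r (Ze z m) = D.rk z), ((D.N : ℝ) - D.bm (Zs z) m) := by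
    rw [← nsmul_eq_mul, ← Finset.sum_const]
    refine Finset.sum_le_sum fun z hz => ?_
    rw [ha1, Finset.mem_filter] at hz
    exact D.noncol_sum_nh hz.1 (by omega)
  -- the right side
  have hR : ∑ m ∈ D.F c, ∑ z ∈ D.Om c, ∑ x ∈ D.S c m, G m z x ≤ (a0.card : ℝ) * (((D.k : ℝ) - 1) * D.N) := by
    have e1 : ∑ m ∈ D.F c, ∑ z ∈ D.Om c, ∑ x ∈ D.S c m, G m z x
        = ∑ z ∈ D.Om c, ∑ m ∈ D.F c, ∑ x ∈ D.S c m, G m (Function.update z m x) (z m) := by
      rw [Finset.sum_comm]
      rw [Finset.sum_comm]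
      rw [Finset.sum_comm (s := D.Om c)]
      exact Finset.sum_congr rfl fun m _ => D.swap c m (G m)
    rw [e1]
    have e2 : ∀ z ∈ D.Om c, ∑ m ∈ D.F c, ∑ x ∈ D.S c m, G m (Function.update z m x) (z m)
        ≤ if D.rk z + u = n then ((D.k : ℝ) - 1) * D.N else 0 := by
      intro z hz
      have hp : ∀ m x, P m (Function.update z m x) (z m) → D.rk z + u = n ∧ D.R.r (Ze z m) < D.rk z := by
        intro m x h
        obtain ⟨g1, g2, g3⟩ := h
        rw [Ze_update] at g2
        have g4 : cl D.R (Ze z m) = cl D.R (Zs (Function.update z m x)) := by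
          refine cl_eq D.R ?_ g2.symm
          rw [Zs_update]
          exact Finset.subset_insert _ _
        rw [← g4] at g3
        have g5 := D.rk_update_out (z := z) (m := m) (x := z m) g3
        rw [Function.update_eq_self] at g5
        constructor <;> omega
      by_cases hu2 : D.rk z + u = n
      · rw [if_pos hu2]
        have e3 : ∀ m ∈ D.F c, ∑ x ∈ D.S c m, G m (Function.update z m x) (z m)
            ≤ if D.R.r (Ze z m) < D.rk z then (D.N : ℝ) else 0 := by
          intro m hm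
          split_ifs with h
          · calc ∑ x ∈ D.S c m, G m (Function.update z m x) (z m) ≤ ∑ _x ∈ D.S c m, (1 : ℝ) := by
                  refine Finset.sum_le_sum fun x _ => ?_
                  rw [hG]
                  simp only
                  split_ifs
                  · exact le_refl _
                  · exact zero_le_one
              _ = D.N := by
                  rw [Finset.sum_const, nsmul_eq_mul, mul_one, D.card_S hm]
          · refine le_of_eq (Finset.sum_eq_zero fun x _ => ?_)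
            rw [hG]
            simp only
            rw [if_neg (fun hp1 => h (hp m x hp1).2)]
        refine (Finset.sum_le_sum e3).trans ?_
        rw [← Finset.sum_filter, Finset.sum_const, nsmul_eq_mul]
        refine mul_le_mul_of_nonneg_right ?_ hNR.le
        have h4 := D.card_coloop (c := c) (z := z) (by omega)
        have h5 : ((((D.F c).filter (fun m => D.R.r (Ze z m) < D.rk z)).card : ℝ)) + 1 ≤ D.k := by exact_mod_cast h4
        linarith
      · rw [if_neg hu2]
        refine le_of_eq (Finset.sum_eq_zero fun m _ => Finset.sum_eq_zero fun x _ => ?_)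
        rw [hG]
        simp only
        rw [if_neg (fun hp1 => hu2 (hp m x hp1).1)]
    refine (Finset.sum_le_sum e2).trans (le_of_eq ?_)
    rw [← Finset.sum_filter, Finset.sum_const, nsmul_eq_mul]
  rw [hL] at hLge
  have h1 := hLge.trans hR
  -- numbers
  have hbig := D.N_bigLR
  have hL := D.L_ge
  have h2 : (a1.card : ℝ) * D.N ≤ a0.card * (2 * D.L * (D.k - 1)) := by
    rw [mul_div_assoc', div_le_iff₀ (by positivity)] at h1
    have h3 : ((a1.card : ℝ) * D.N) * D.N ≤ (a0.card * (2 * D.L * (D.k - 1))) * D.N := by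
      calc ((a1.card : ℝ) * D.N) * D.N = a1.card * (D.N : ℝ) ^ 2 := by ring
        _ ≤ _ := h1
        _ = (a0.card * (2 * D.L * (D.k - 1))) * D.N := by ring
    exact le_of_mul_le_mul_right h3 hNR
  have h3 : (2 * a1.card : ℝ) ≤ a0.card := by
    have h4 : (2 : ℝ) * D.L * (D.k - 1) ≤ D.N / 2 := by nlinarith
    have h5 : (a0.card : ℝ) * (2 * D.L * (D.k - 1)) ≤ a0.card * (D.N / 2) :=
      mul_le_mul_of_nonneg_left h4 (Nat.cast_nonneg _)
    have h6 : (2 * a1.card : ℝ) * D.N ≤ a0.card * D.N := by linarith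
    exact le_of_mul_le_mul_right h6 hNR
  exact_mod_cast h3

/-- the dependent columns -/
def dep (c : Fin n) : Finset (Fin n → Fin n) := (D.Om c).filter (fun z => D.rk z < n)

/-- the number of the columns of corank at least `j` is halved at every step -/
theorem f11_half (c : Fin n) (j : ℕ) (hj : 1 ≤ j) :
    2 * ((D.Om c).filter (fun z => D.rk z + (j + 1) ≤ n)).card ≤
      ((D.Om c).filter (fun z => D.rk z + j ≤ n)).card := by
  have h1 : ∀ i : ℕ, ((D.Om c).filter (fun z => D.rk z + i ≤ n)).card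
      = ∑ u ∈ Finset.Icc i n, ((D.Om c).filter (fun z => D.rk z + u = n)).card := by
    intro i
    have h2 : ((D.Om c).filter (fun z => D.rk z + i ≤ n)).card
        = ∑ u ∈ Finset.Icc i n, (((D.Om c).filter (fun z => D.rk z + i ≤ n)).filter
          (fun z => n - D.rk z = u)).card := by
      refine Finset.card_eq_sum_card_fiberwise fun z hz => ?_
      rw [Finset.mem_coe, Finset.mem_filter] at hz
      rw [Finset.mem_coe, Finset.mem_Icc]
      omega
    rw [h2]
    refine Finset.sum_congr rfl fun u hu => ?_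
    rw [Finset.mem_Icc] at hu
    congr 1
    ext z
    simp only [Finset.mem_filter]
    have := D.rk_le z
    constructor
    · rintro ⟨⟨h3, h4⟩, h5⟩
      exact ⟨h3, by omega⟩
    · rintro ⟨h3, h4⟩
      exact ⟨⟨h3, by omega⟩, by omega⟩
  rw [h1, h1]
  rcases Nat.lt_or_ge n (j + 1) with h | h
  · rw [Finset.Icc_eq_empty (by omega), Finset.sum_empty, mul_zero]
    exact Nat.zero_le _
  · have h3 : ∑ u ∈ Finset.Icc (j + 1) n, ((D.Om c).filter (fun z => D.rk z + u = n)).card
        = ∑ u ∈ Finset.Icc j (n - 1), ((D.Om c).filter (fun z => D.rk z + (u + 1) = n)).card := by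
      have h4 : Finset.Icc (j + 1) n = (Finset.Icc j (n - 1)).map (addRightEmbedding 1) := by
        rw [Finset.map_add_right_Icc]
        congr 1
        omega
      rw [h4, Finset.sum_map]
      rfl
    rw [h3, Finset.mul_sum]
    calc ∑ u ∈ Finset.Icc j (n - 1), 2 * ((D.Om c).filter (fun z => D.rk z + (u + 1) = n)).card
        ≤ ∑ u ∈ Finset.Icc j (n - 1), ((D.Om c).filter (fun z => D.rk z + u = n)).card :=
          Finset.sum_le_sum fun u hu => D.level c u (by have := Finset.mem_Icc.mp hu; omega)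
      _ ≤ ∑ u ∈ Finset.Icc j n, ((D.Om c).filter (fun z => D.rk z + u = n)).card :=
          Finset.sum_le_sum_of_subset (Finset.Icc_subset_Icc_right (by omega))

theorem f11_le (c : Fin n) (j : ℕ) (hj : 1 ≤ j) :
    ((D.Om c).filter (fun z => D.rk z + j ≤ n)).card ≤
      2 * ((D.Om c).filter (fun z => D.rk z + j = n)).card := by
  have h1 := D.f11_half c j hj
  have h2 : ((D.Om c).filter (fun z => D.rk z + j ≤ n)).card ≤
      ((D.Om c).filter (fun z => D.rk z + j = n)).card +
      ((D.Om c).filter (fun z => D.rk z + (j + 1) ≤ n)).card := by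
    refine (Finset.card_le_card (t := (D.Om c).filter (fun z => D.rk z + j = n) ∪
      (D.Om c).filter (fun z => D.rk z + (j + 1) ≤ n)) fun z hz => ?_).trans (Finset.card_union_le _ _)
    rw [Finset.mem_filter] at hz
    rw [Finset.mem_union, Finset.mem_filter, Finset.mem_filter]
    rcases Nat.lt_or_ge (D.rk z + j) n with h | h
    · exact Or.inr ⟨hz.1, by omega⟩
    · exact Or.inl ⟨hz.1, by omega⟩
  omega

/-- [f11] Proof: `∑ (n - rk) = ∑_{j ≥ 1} |{z : rk z + j ≤ n}|`, `|{rk z + j + 1 ≤ n}| ≤ (1/2) |{rk z + j ≤ n}|` (`level`), so it is `≤ 2 |dep|`. -/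
theorem sum_corank (c : Fin n) : ∑ z ∈ D.Om c, ((n : ℝ) - D.rk z) ≤ 2 * (D.dep c).card := by

  have hD : ∀ j : ℕ, (((D.Om c).filter (fun z => D.rk z + (j + 1) ≤ n)).card : ℝ) ≤
      (D.dep c).card * (1 / 2) ^ j := by
    intro j
    induction j with
    | zero =>
      rw [pow_zero, mul_one]
      exact le_of_eq rfl
    | succ j ih =>
      have h1 := D.f11_half c (j + 1) (by omega)
      have h2 : 2 * (((D.Om c).filter (fun z => D.rk z + (j + 1 + 1) ≤ n)).card : ℝ) ≤
          ((D.Om c).filter (fun z => D.rk z + (j + 1) ≤ n)).card := by exact_mod_cast h1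
      rw [pow_succ]
      linarith
  have h1 : ∀ z, ((n : ℝ) - D.rk z) = ∑ j ∈ Finset.range n, (if D.rk z + (j + 1) ≤ n then (1 : ℝ) else 0) := by
    intro z
    have h2 := D.rk_le z
    rw [← Finset.sum_filter, Finset.sum_const, nsmul_eq_mul, mul_one]
    have h3 : (Finset.range n).filter (fun j => D.rk z + (j + 1) ≤ n) = Finset.range (n - D.rk z) := by
      ext j
      simp only [Finset.mem_filter, Finset.mem_range]
      omega
    rw [h3, Finset.card_range, Nat.cast_sub h2]
  simp only [h1]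
  rw [Finset.sum_comm]
  have h2 : ∀ j ∈ Finset.range n, ∑ z ∈ D.Om c, (if D.rk z + (j + 1) ≤ n then (1 : ℝ) else 0) ≤
      (D.dep c).card * (1 / 2) ^ j := by
    intro j _
    rw [← Finset.sum_filter, Finset.sum_const, nsmul_eq_mul, mul_one]
    exact hD j
  refine (Finset.sum_le_sum h2).trans ?_
  rw [← Finset.mul_sum, mul_comm]
  refine mul_le_mul_of_nonneg_right ?_ (Nat.cast_nonneg _)
  have h3 : ∑ j ∈ Finset.range n, ((1 : ℝ) / 2) ^ j = 2 - 2 * (1 / 2) ^ n := by
    rw [geom_sum_eq (by norm_num)]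
    ring
  rw [h3]
  have : (0 : ℝ) < (1 / 2) ^ n := by positivity
  linarith

end Cd

end Pool.Agent.RGs
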