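import Pool.Agent.RGs.Rep
import Pool.Agent.RotaP.Tra

set_option autoImplicit false

namespace Pool.Agent.RGs

open Finset Pool.Agent.RotaP Pool.Agent.RGi

/-- [m1] Proof: `k = 0`: every set with `n` elements has rank `n`, the identities do (`card_Zs`).  `k ≥ 1`: `exists_Cd`, `Cd.exists_all`;
with the `ρ` of `exists_all` take `σ i = ρ i` followed by `τ i`: the image of `Zs (colm ρ c)` under `e ↦ (e.1, τ e.1 e.2)` is
`{(i, τ i (ρ i c))}`. -/
theorem core_thm (n k : ℕ) (R : RkF (Fin n × Fin n)) (hg : Gir R n k)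
    (hbig : 2 ^ 24 * (k + 1) ^ 2 ≤ n) (hrow : ∀ i, R.r (univ.filter (fun e : Fin n × Fin n => e.1 = i)) = n) :
    ∃ σ : Fin n → Equiv.Perm (Fin n), ∀ c, R.r (univ.image (fun i => (i, σ i c))) = n := by
  rcases Nat.eq_zero_or_pos k with h0 | hk
  · subst h0
    refine ⟨fun _ => 1, fun c => ?_⟩
    have h1 : (Zs (fun _ : Fin n => c)).card = n := card_Zs _
    have h2 := hg.ind (Zs (fun _ => c)) (by omega)
    rw [h1] at h2
    exact h2
  · obtain ⟨D, τ, hD⟩ := exists_Cd n k R hg hk hbig hrow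
    obtain ⟨ρ, hρ, hall⟩ := D.exists_all
    refine ⟨fun i => (ρ i).trans (τ i), fun c => ?_⟩
    have h1 := hall c
    rw [Cd.rk, hD, Zs, image_image] at h1
    exact h1

/-- [m1'] Proof: as `core_thm`, with empty cores (`exists_Cd0`). -/
theorem core_thm0 (n k L : ℕ) (R : RkF (Fin n × Fin n)) (hg : Gir R n k) (hL : 4 ≤ L)
    (hbigK : 2 ^ 22 * (L * (k + 1)) ≤ n) (hbigL : 2 ^ 20 * (L * L) ≤ n)
    (hcog : ∀ X : Finset (Fin n × Fin n), R.r X < n → n * n ≤ L * (univ \ X).card) :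
    ∃ σ : Fin n → Equiv.Perm (Fin n), ∀ c, R.r (univ.image (fun i => (i, σ i c))) = n := by
  rcases Nat.eq_zero_or_pos k with h0 | hk
  · subst h0
    refine ⟨fun _ => 1, fun c => ?_⟩
    have h1 : (Zs (fun _ : Fin n => c)).card = n := card_Zs _
    have h2 := hg.ind (Zs (fun _ => c)) (by omega)
    rw [h1] at h2
    exact h2
  · obtain ⟨D, hD⟩ := exists_Cd0 n k L R hg hk hL hbigK hbigL hcog
    obtain ⟨ρ, hρ, hall⟩ := D.exists_all
    refine ⟨ρ, fun c => ?_⟩
    have h1 := hall c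
    rw [Cd.rk, hD, Zs] at h1
    exact h1

/-- the array of the elements of the bases -/
theorem m2_aux {α : Type*} [DecidableEq α] (M : Matroid α) (n k : ℕ) (B : Fin n → Set α)
    (hB : ∀ i, M.IsBase (B i)) (hn : ∀ i, (B i).encard = (n : ℕ∞))
    (hd : ∀ i j, i ≠ j → Disjoint (B i) (B j))
    (hg : ∀ X ⊆ ⋃ i, B i, X.encard + (k : ℕ∞) ≤ (n : ℕ∞) → M.Indep X)
    (a : Fin n → Fin n → α) (ha : ∀ i, Set.range (a i) = B i) :
    Function.Injective (fun e : Fin n × Fin n => a e.1 e.2) ∧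
    Gir (pull (ofM M) (fun e : Fin n × Fin n => a e.1 e.2)) n k ∧
    ∀ i, (pull (ofM M) (fun e : Fin n × Fin n => a e.1 e.2)).r
      (univ.filter (fun e : Fin n × Fin n => e.1 = i)) = n := by
  have hbas : ∀ i, Bas (ofM M) n (a i) := fun i => bas_of_range M n _ (hB i) (hn i) _ (ha i)
  have hmem : ∀ i x, a i x ∈ B i := fun i x => by rw [← ha i]; exact ⟨x, rfl⟩
  have hf : Function.Injective (fun e : Fin n × Fin n => a e.1 e.2) := by
    intro e e' hee
    simp only at hee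
    by_cases h1 : e.1 = e'.1
    · rw [h1] at hee
      exact Prod.ext h1 ((hbas e'.1).inj hee)
    · exfalso
      exact Set.disjoint_left.mp (hd _ _ h1) (hmem e.1 e.2) (by rw [hee]; exact hmem _ _)
  refine ⟨hf, ?_, ?_⟩
  · constructor
    · intro S
      rw [pull_r]
      rcases Nat.eq_zero_or_pos n with h0 | h0
      · subst h0
        have : S = ∅ := by
          ext e
          exact e.1.elim0
        rw [this, image_empty, (ofM M).r_empty]
      · exact (hbas ⟨0, h0⟩).le _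
    · intro X hX
      rw [pull_r, ofM_r]
      have h1 : M.Indep ((X.image (fun e : Fin n × Fin n => a e.1 e.2) : Finset α) : Set α) := by
        apply hg
        · intro x hx
          rw [mem_coe, mem_image] at hx
          obtain ⟨e, _, rfl⟩ := hx
          exact Set.mem_iUnion.mpr ⟨e.1, hmem _ _⟩
        · rw [Set.encard_coe_eq_coe_finsetCard, card_image_of_injective _ hf]
          exact_mod_cast hX
      rw [h1.eRk_eq_encard, Set.encard_coe_eq_coe_finsetCard, card_image_of_injective _ hf,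
        ENat.toNat_natCast]
  · intro i
    rw [pull_r]
    refine Eq.trans ?_ (hbas i).eq
    congr 1
    ext x
    simp only [mem_image, mem_filter, mem_univ, true_and]
    constructor
    · rintro ⟨e, he, rfl⟩
      exact ⟨e.2, by rw [he]⟩
    · rintro ⟨y, rfl⟩
      exact ⟨(i, y), rfl, rfl⟩

/-- [m2] Proof: `transfer` with `rep = id`; for the enumerations `a` (`range (a i) = B i`, `a i` injective since `B i` has `n` elements)
`core_thm` for `pull (ofM M) (fun e => a e.1 e.2)` (its `Gir`: `e ↦ a e.1 e.2` is injective, the image of `X` is a subset of the union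
with `|X|` elements, so `M.Indep`). -/
theorem rota_girth (α : Type*) (M : Matroid α) (n k : ℕ) (B : Fin n → Set α)
    (hB : ∀ i, M.IsBase (B i)) (hn : ∀ i, (B i).encard = (n : ℕ∞))
    (hd : ∀ i j, i ≠ j → Disjoint (B i) (B j)) (hbig : 2 ^ 24 * (k + 1) ^ 2 ≤ n)
    (hg : ∀ X ⊆ ⋃ i, B i, X.encard + (k : ℕ∞) ≤ (n : ℕ∞) → M.Indep X) :
    ∃ T : Fin n → Set α, (∀ k, M.IsBase (T k)) ∧ (∀ k i, (T k ∩ B i).encard = 1) ∧
      (∀ k l, k ≠ l → Disjoint (T k) (T l)) := by
  classical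
  refine transfer M n B hB hn hd id (fun i x hx => ⟨x, hx, rfl⟩) ?_
  intro a ha
  obtain ⟨hf, hG, hR⟩ := m2_aux M n k B hB hn hd hg a ha
  obtain ⟨σ, hσ⟩ := core_thm n k (pull (ofM M) (fun e : Fin n × Fin n => a e.1 e.2)) hG hbig hR
  refine ⟨σ, fun c => ?_⟩
  have h1 := hσ c
  rw [pull_r, image_image] at h1
  exact h1

/-- [m3] Linear girth and quadratic cogirth: every small set is independent, every large set spans. -/
theorem rota_linear (α : Type*) (M : Matroid α) (n k L : ℕ) (B : Fin n → Set α)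
    (hB : ∀ i, M.IsBase (B i)) (hn : ∀ i, (B i).encard = (n : ℕ∞))
    (hd : ∀ i j, i ≠ j → Disjoint (B i) (B j)) (hL : 4 ≤ L)
    (hbigK : 2 ^ 22 * (L * (k + 1)) ≤ n) (hbigL : 2 ^ 20 * (L * L) ≤ n)
    (hg : ∀ X ⊆ ⋃ i, B i, X.encard + (k : ℕ∞) ≤ (n : ℕ∞) → M.Indep X)
    (hs : ∀ X ⊆ ⋃ i, B i, (L : ℕ∞) * ((⋃ i, B i) \ X).encard < ((n * n : ℕ) : ℕ∞) → M.Spanning X) :
    ∃ T : Fin n → Set α, (∀ k, M.IsBase (T k)) ∧ (∀ k i, (T k ∩ B i).encard = 1) ∧
      (∀ k l, k ≠ l → Disjoint (T k) (T l)) := by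
  classical
  refine transfer M n B hB hn hd id (fun i x hx => ⟨x, hx, rfl⟩) ?_
  intro a ha
  obtain ⟨hf, hG, hR⟩ := m2_aux M n k B hB hn hd hg a ha
  have hmem : ∀ i x, a i x ∈ B i := fun i x => by rw [← ha i]; exact ⟨x, rfl⟩
  have hcog : ∀ X : Finset (Fin n × Fin n), (pull (ofM M) (fun e : Fin n × Fin n => a e.1 e.2)).r X < n →
      n * n ≤ L * (univ \ X).card := by
    intro X hX
    by_contra hlt
    push Not at hlt
    have hXn : 0 < n := by omega
    have e1 : (⋃ i, B i) \ ((X.image (fun e : Fin n × Fin n => a e.1 e.2) : Finset α) : Set α) ⊆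
        (((univ \ X).image (fun e : Fin n × Fin n => a e.1 e.2) : Finset α) : Set α) := by
      intro x hx
      obtain ⟨hx1, hx2⟩ := hx
      obtain ⟨i, hi⟩ := Set.mem_iUnion.mp hx1
      rw [← ha i] at hi
      obtain ⟨y, rfl⟩ := hi
      rw [mem_coe, mem_image] at hx2 ⊢
      refine ⟨(i, y), ?_, rfl⟩
      rw [mem_sdiff]
      exact ⟨mem_univ _, fun h => hx2 ⟨(i, y), h, rfl⟩⟩
    have e2 := Set.encard_le_encard e1
    rw [Set.encard_coe_eq_coe_finsetCard, card_image_of_injective _ hf] at e2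
    have h1 : M.Spanning ((X.image (fun e : Fin n × Fin n => a e.1 e.2) : Finset α) : Set α) := by
      apply hs
      · intro x hx
        rw [mem_coe, mem_image] at hx
        obtain ⟨e, _, rfl⟩ := hx
        exact Set.mem_iUnion.mpr ⟨e.1, hmem _ _⟩
      · calc (L : ℕ∞) * ((⋃ i, B i) \
              ((X.image (fun e : Fin n × Fin n => a e.1 e.2) : Finset α) : Set α)).encard
            ≤ (L : ℕ∞) * (((univ \ X).card : ℕ) : ℕ∞) := by gcongr
          _ = ((L * (univ \ X).card : ℕ) : ℕ∞) := by push_cast; rfl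
          _ < ((n * n : ℕ) : ℕ∞) := by exact_mod_cast hlt
    have hrank : M.eRank = (n : ℕ∞) := by
      rw [← (hB ⟨0, hXn⟩).encard_eq_eRank, hn]
    have h2 : M.eRk ((X.image (fun e : Fin n × Fin n => a e.1 e.2) : Finset α) : Set α) = (n : ℕ∞) := by
      rw [← hrank]
      exact h1.eRk_eq
    rw [pull_r, ofM_r, h2, ENat.toNat_natCast] at hX
    omega
  obtain ⟨σ, hσ⟩ := core_thm0 n k L (pull (ofM M) (fun e : Fin n × Fin n => a e.1 e.2)) hG hL hbigK hbigL hcog
  refine ⟨σ, fun c => ?_⟩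
  have h1 := hσ c
  rw [pull_r, image_image] at h1
  exact h1

end Pool.Agent.RGs
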