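import Pool.Agent.RGs.Flow
import Pool.Agent.RGi.Tens

/-!
# Random arrangements: independent uniform permutations of the rows
-/

set_option autoImplicit false

namespace Pool.Agent.RGs

open Finset Pool.Agent.RotaP Pool.Agent.RGi

/-- permutations fixing the elements of `q` -/
def fixP {n : ℕ} (q : Finset (Fin n)) : Finset (Equiv.Perm (Fin n)) :=
  univ.filter (fun σ => ∀ c ∈ q, σ c = c)

/-- [p1] -/
theorem fixP_pos {n : ℕ} (q : Finset (Fin n)) : 0 < (fixP q).card := by

  refine Finset.card_pos.mpr ⟨1, ?_⟩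
  simp [fixP]

/-- [p1] -/
theorem fixP_notMem {n : ℕ} {q : Finset (Fin n)} {σ : Equiv.Perm (Fin n)} (h : σ ∈ fixP q) {c : Fin n} :
    σ c ∉ q ↔ c ∉ q := by

  have h1 : ∀ c ∈ q, σ c = c := by
    simpa [fixP] using h
  constructor
  · intro h2 h3
    apply h2
    rw [h1 c h3]
    exact h3
  · intro h2 h3
    apply h2
    have h4 := σ.injective (h1 _ h3)
    rw [← h4]
    exact h3

private theorem p1_swap {n : ℕ} {q : Finset (Fin n)} {x y : Fin n} (hx : x ∉ q) (hy : y ∉ q)
    {σ : Equiv.Perm (Fin n)} (h : σ ∈ fixP q) : Equiv.swap x y * σ ∈ fixP q := by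
  have h1 : ∀ c ∈ q, σ c = c := by
    simpa [fixP] using h
  have h2 : ∀ c ∈ q, (Equiv.swap x y * σ) c = c := by
    intro c hc
    rw [Equiv.Perm.mul_apply, h1 c hc]
    exact Equiv.swap_apply_of_ne_of_ne (fun h => hx (h ▸ hc)) (fun h => hy (h ▸ hc))
  simpa [fixP] using h2

/-- [p1] `σ ↦ swap x y * σ` shows that the number does not depend on `x`; the sum over the `x ∉ q` is `|fixP q|`. -/
theorem card_one {n : ℕ} (q : Finset (Fin n)) {c x : Fin n} (hc : c ∉ q) (hx : x ∉ q) :
    (n - q.card) * ((fixP q).filter (fun σ => σ c = x)).card = (fixP q).card := by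

  have h1 : (fixP q).card = ∑ y ∈ univ \ q, ((fixP q).filter (fun σ => σ c = y)).card := by
    refine Finset.card_eq_sum_card_fiberwise fun σ hσ => ?_
    have h2 := (fixP_notMem (Finset.mem_coe.mp hσ)).mpr hc
    simpa using h2
  have h2 : ∀ y ∈ univ \ q, ((fixP q).filter (fun σ => σ c = y)).card = ((fixP q).filter (fun σ => σ c = x)).card := by
    intro y hy
    have hy' : y ∉ q := by simpa using hy
    refine Finset.card_bij' (fun σ _ => Equiv.swap x y * σ) (fun σ _ => Equiv.swap x y * σ) ?_ ?_ ?_ ?_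
    · intro σ hσ
      rw [Finset.mem_filter] at hσ ⊢
      refine ⟨p1_swap hx hy' hσ.1, ?_⟩
      rw [Equiv.Perm.mul_apply, hσ.2, Equiv.swap_apply_right]
    · intro σ hσ
      rw [Finset.mem_filter] at hσ ⊢
      refine ⟨p1_swap hx hy' hσ.1, ?_⟩
      rw [Equiv.Perm.mul_apply, hσ.2, Equiv.swap_apply_left]
    · intro σ _
      rw [← mul_assoc, Equiv.swap_mul_self, one_mul]
    · intro σ _
      rw [← mul_assoc, Equiv.swap_mul_self, one_mul]
  rw [Finset.sum_congr rfl h2, Finset.sum_const, smul_eq_mul] at h1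
  have h3 : (univ \ q).card = n - q.card := by
    rw [Finset.card_sdiff_of_subset (Finset.subset_univ q), Finset.card_univ, Fintype.card_fin]
  rw [h3] at h1
  exact h1.symm

/-- [p2] the same for pairs: by `card_one`, and for fixed `x` the number of the `σ` with `σ c = x`, `σ c' = x'` does not depend on
`x' ∉ q`, `x' ≠ x` (`σ ↦ swap x' y' * σ`). -/
theorem card_two {n : ℕ} (q : Finset (Fin n)) {c c' x x' : Fin n} (hc : c ∉ q) (hc' : c' ∉ q) (hcc : c ≠ c')
    (hx : x ∉ q) (hx' : x' ∉ q) (hxx : x ≠ x') :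
    (n - q.card) * (n - q.card - 1) * ((fixP q).filter (fun σ => σ c = x ∧ σ c' = x')).card =
      (fixP q).card := by

  have h0 := card_one q hc hx
  have h1 : ((fixP q).filter (fun σ => σ c = x)).card
      = ∑ y ∈ (univ \ q).erase x, (((fixP q).filter (fun σ => σ c = x)).filter (fun σ => σ c' = y)).card := by
    refine Finset.card_eq_sum_card_fiberwise fun σ hσ => ?_
    rw [Finset.mem_coe, Finset.mem_filter] at hσ
    have h2 := (fixP_notMem hσ.1).mpr hc'
    rw [Finset.mem_coe, Finset.mem_erase]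
    refine ⟨fun h3 => hcc ?_, by simpa using h2⟩
    exact σ.injective (hσ.2.trans h3.symm)
  have h2 : ∀ y ∈ (univ \ q).erase x, (((fixP q).filter (fun σ => σ c = x)).filter (fun σ => σ c' = y)).card
      = ((fixP q).filter (fun σ => σ c = x ∧ σ c' = x')).card := by
    intro y hy
    have hyx : y ≠ x := Finset.ne_of_mem_erase hy
    have hy' : y ∉ q := by simpa using Finset.mem_of_mem_erase hy
    refine Finset.card_bij' (fun σ _ => Equiv.swap x' y * σ) (fun σ _ => Equiv.swap x' y * σ) ?_ ?_ ?_ ?_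
    · intro σ hσ
      rw [Finset.mem_filter, Finset.mem_filter] at hσ
      rw [Finset.mem_filter]
      refine ⟨p1_swap hx' hy' hσ.1.1, ?_, ?_⟩
      · rw [Equiv.Perm.mul_apply, hσ.1.2]
        exact Equiv.swap_apply_of_ne_of_ne hxx hyx.symm
      · rw [Equiv.Perm.mul_apply, hσ.2, Equiv.swap_apply_right]
    · intro σ hσ
      rw [Finset.mem_filter] at hσ
      rw [Finset.mem_filter, Finset.mem_filter]
      refine ⟨⟨p1_swap hx' hy' hσ.1, ?_⟩, ?_⟩
      · rw [Equiv.Perm.mul_apply, hσ.2.1]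
        exact Equiv.swap_apply_of_ne_of_ne hxx hyx.symm
      · rw [Equiv.Perm.mul_apply, hσ.2.2, Equiv.swap_apply_left]
    · intro σ _
      rw [← mul_assoc, Equiv.swap_mul_self, one_mul]
    · intro σ _
      rw [← mul_assoc, Equiv.swap_mul_self, one_mul]
  rw [Finset.sum_congr rfl h2, Finset.sum_const, smul_eq_mul] at h1
  have h3 : ((univ \ q).erase x).card = n - q.card - 1 := by
    rw [Finset.card_erase_of_mem (by simpa using hx), Finset.card_sdiff_of_subset (Finset.subset_univ q),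
      Finset.card_univ, Fintype.card_fin]
  rw [h3] at h1
  rw [← h0, h1, mul_assoc]

/-- law of the pair `(σ c, σ c')` -/
noncomputable def qrow {n : ℕ} (q : Finset (Fin n)) (c c' : Fin n) (x y : Fin n) : ℝ :=
  (((fixP q).filter (fun σ => σ c = x ∧ σ c' = y)).card : ℝ) / (fixP q).card

theorem p3_sum {n : ℕ} (q : Finset (Fin n)) (c c' : Fin n) : ∑ x, ∑ y, qrow q c c' x y = 1 := by
  have hpos : (0 : ℝ) < (fixP q).card := by exact_mod_cast fixP_pos q
  unfold qrow
  simp_rw [← Finset.sum_div]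
  rw [div_eq_one_iff_eq (ne_of_gt hpos)]
  have h1 : ∀ x y : Fin n, (((fixP q).filter (fun σ => σ c = x ∧ σ c' = y)).card : ℝ) =
      ∑ σ ∈ fixP q, if σ c = x ∧ σ c' = y then (1 : ℝ) else 0 := by
    intro x y
    rw [Finset.sum_boole]
  simp_rw [h1]
  have h2 : ∀ x : Fin n, ∑ y : Fin n, ∑ σ ∈ fixP q, (if σ c = x ∧ σ c' = y then (1 : ℝ) else 0) =
      ∑ σ ∈ fixP q, ∑ y : Fin n, (if σ c = x ∧ σ c' = y then (1 : ℝ) else 0) := fun x =>
    Finset.sum_comm
  simp_rw [h2]
  rw [Finset.sum_comm]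
  have h3 : ∀ σ ∈ fixP q, ∑ x : Fin n, ∑ y : Fin n, (if σ c = x ∧ σ c' = y then (1 : ℝ) else 0) = 1 := by
    intro σ _
    simp_rw [ite_and]
    simp
  rw [Finset.sum_congr rfl h3]
  simp

/-- [p3] Proof: if `c, c' ∉ q` the law is the one of `cov_distinct` for `s = univ \ q` (`card_two`); if `c ∈ q` use `cov_left`
(`σ c = c`), if `c' ∈ q` `cov_right`. -/
theorem cov_qrow {n : ℕ} (q : Finset (Fin n)) (hq : q.card + 2 ≤ n) {c c' : Fin n} (hcc : c ≠ c') :
    Cov (1 / ((n : ℝ) - q.card - 1)) (qrow q c c') := by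
  have hpos : (0 : ℝ) < (fixP q).card := by exact_mod_cast fixP_pos q
  have hρ : (0 : ℝ) ≤ 1 / ((n : ℝ) - q.card - 1) := by
    have : (q.card : ℝ) + 2 ≤ n := by exact_mod_cast hq
    apply div_nonneg zero_le_one
    linarith
  have h0 : ∀ x y, 0 ≤ qrow q c c' x y := fun x y => by unfold qrow; positivity
  by_cases hc : c ∈ q
  · refine cov_left hρ c _ h0 (p3_sum q c c') ?_
    intro x y hx
    unfold qrow
    rw [Finset.filter_eq_empty_iff.mpr]
    · simp
    · intro σ hσ
      have h4 : σ c = c := (Finset.mem_filter.mp hσ).2 c hc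
      rintro ⟨h5, _⟩
      exact hx (h5.symm.trans h4)
  · by_cases hc' : c' ∈ q
    · refine cov_right hρ c' _ h0 (p3_sum q c c') ?_
      intro x y hy
      unfold qrow
      rw [Finset.filter_eq_empty_iff.mpr]
      · simp
      · intro σ hσ
        have h4 : σ c' = c' := (Finset.mem_filter.mp hσ).2 c' hc'
        rintro ⟨_, h5⟩
        exact hy (h5.symm.trans h4)
    · have hs : (univ \ q).card = n - q.card := by
        rw [Finset.card_sdiff_of_subset (Finset.subset_univ q), Finset.card_univ, Fintype.card_fin]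
      have hsr : (((univ \ q).card : ℕ) : ℝ) = (n : ℝ) - q.card := by
        rw [hs, Nat.cast_sub (by omega)]
      have h5 := cov_distinct (univ \ q) (by omega : 2 ≤ (univ \ q).card)
      rw [hsr] at h5
      have h6 : (fun x y => if x ∈ univ \ q ∧ y ∈ univ \ q ∧ x ≠ y then
          1 / (((n : ℝ) - q.card) * ((n : ℝ) - q.card - 1)) else 0) = qrow q c c' := by
        funext x y
        split_ifs with h
        · obtain ⟨hx, hy, hxy⟩ := h
          have hx' : x ∉ q := (Finset.mem_sdiff.mp hx).2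
          have hy' : y ∉ q := (Finset.mem_sdiff.mp hy).2
          have h7 := card_two q hc hc' hcc hx' hy' hxy
          have h8 : (((n - q.card : ℕ) : ℝ) * ((n - q.card - 1 : ℕ) : ℝ)) *
              (((fixP q).filter (fun σ => σ c = x ∧ σ c' = y)).card : ℝ) = (fixP q).card := by
            exact_mod_cast h7
          have h9 : ((n - q.card : ℕ) : ℝ) = (n : ℝ) - q.card := Nat.cast_sub (by omega)
          have h10 : ((n - q.card - 1 : ℕ) : ℝ) = (n : ℝ) - q.card - 1 := by
            rw [Nat.cast_sub (by omega), h9]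
            simp
          rw [h9, h10] at h8
          have hb : (q.card : ℝ) + 2 ≤ n := by exact_mod_cast hq
          unfold qrow
          rw [div_eq_div_iff (by nlinarith) (ne_of_gt hpos)]
          linarith
        · unfold qrow
          rw [Finset.filter_eq_empty_iff.mpr]
          · simp
          · intro σ hσ
            rintro ⟨h7, h8⟩
            apply h
            refine ⟨?_, ?_, ?_⟩
            · rw [Finset.mem_sdiff, ← h7]
              exact ⟨Finset.mem_univ _, (fixP_notMem hσ).mpr hc⟩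
            · rw [Finset.mem_sdiff, ← h8]
              exact ⟨Finset.mem_univ _, (fixP_notMem hσ).mpr hc'⟩
            · rw [← h7, ← h8]
              exact fun h9 => hcc (σ.injective h9)
      rw [h6] at h5
      exact h5

/-- column `c` of an arrangement -/
def colm {n : ℕ} (σ : Fin n → Equiv.Perm (Fin n)) (c : Fin n) : Fin n → Fin n := fun i => σ i c

/-- average of `f` over the finite set `s` -/
noncomputable def Ex {ω : Type*} (s : Finset ω) (f : ω → ℝ) : ℝ := (∑ w ∈ s, f w) / s.card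

/-- [p4] Markov: if `f ≥ 0` and `4 Ex f ≤ a`, `0 < a`, then at most a quarter has `f > a`. -/
theorem markov {ω : Type*} (s : Finset ω) (f : ω → ℝ) (hf : ∀ w ∈ s, 0 ≤ f w) (a : ℝ) (ha : 0 < a)
    (h : 4 * Ex s f ≤ a) : 4 * ((s.filter (fun w => a < f w)).card : ℝ) ≤ s.card := by

  rcases s.eq_empty_or_nonempty with h0 | h0
  · subst h0
    simp
  · have hc : (0 : ℝ) < s.card := by exact_mod_cast Finset.card_pos.mpr h0
    have h1 : a * ((s.filter (fun w => a < f w)).card : ℝ) ≤ ∑ w ∈ s, f w := by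
      calc a * ((s.filter (fun w => a < f w)).card : ℝ) = ∑ _w ∈ s.filter (fun w => a < f w), a := by
            rw [Finset.sum_const, nsmul_eq_mul, mul_comm]
        _ ≤ ∑ w ∈ s.filter (fun w => a < f w), f w :=
            Finset.sum_le_sum fun w hw => (Finset.mem_filter.mp hw).2.le
        _ ≤ ∑ w ∈ s, f w := Finset.sum_le_sum_of_subset_of_nonneg (Finset.filter_subset _ _) fun w hw _ => hf w hw
    have h2 : 4 * ∑ w ∈ s, f w ≤ a * s.card := by
      unfold Ex at h
      rw [mul_div_assoc', div_le_iff₀ hc] at h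
      exact h
    have h3 : a * (4 * ((s.filter (fun w => a < f w)).card : ℝ)) ≤ a * s.card := by
      linarith
    exact le_of_mul_le_mul_left h3 ha

/-- [p4] Markov: `P(f ≥ a) ≤ Ex f / a`. -/
theorem markov' {ω : Type*} (s : Finset ω) (f : ω → ℝ) (hf : ∀ w ∈ s, 0 ≤ f w) (a : ℝ) (ha : 0 < a) :
    Ex s (fun w => if a ≤ f w then (1 : ℝ) else 0) ≤ Ex s f / a := by

  unfold Ex
  rw [div_div, mul_comm, ← div_div]
  refine div_le_div_of_nonneg_right ?_ (Nat.cast_nonneg _)
  rw [le_div_iff₀ ha, Finset.sum_mul]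
  refine Finset.sum_le_sum fun w hw => ?_
  split_ifs with h
  · rw [one_mul]
    exact h
  · rw [zero_mul]
    exact hf w hw

/-- [p5] The law of a function of one coordinate map of every factor: `X i : Ω → α`. -/
theorem sum_pi_map {m : ℕ} {Ω α : Type*} [Fintype α] [DecidableEq α] [DecidableEq Ω] (P : Fin m → Finset Ω)
    (X : Ω → α) (H : (Fin m → α) → ℝ) :
    ∑ σ ∈ Fintype.piFinset P, H (fun i => X (σ i)) =
      ∑ z : Fin m → α, (∏ i, (((P i).filter (fun w => X w = z i)).card : ℝ)) * H z := by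

  rw [← Finset.sum_fiberwise (Fintype.piFinset P) (fun σ => fun i => X (σ i)) (fun σ => H (fun i => X (σ i)))]
  refine Finset.sum_congr rfl fun z _ => ?_
  have h1 : ∀ σ ∈ (Fintype.piFinset P).filter (fun σ => (fun i => X (σ i)) = z), H (fun i => X (σ i)) = H z :=
    fun σ hσ => by rw [(Finset.mem_filter.mp hσ).2]
  rw [Finset.sum_congr rfl h1, Finset.sum_const, nsmul_eq_mul]
  congr 1
  have h2 : (Fintype.piFinset P).filter (fun σ => (fun i => X (σ i)) = z)
      = Fintype.piFinset (fun i => (P i).filter (fun w => X w = z i)) := by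
    ext σ
    simp only [Finset.mem_filter, Fintype.mem_piFinset]
    constructor
    · rintro ⟨h3, h4⟩ i
      exact ⟨h3 i, congrFun h4 i⟩
    · intro h3
      exact ⟨fun i => (h3 i).1, funext fun i => (h3 i).2⟩
  rw [h2, Fintype.card_piFinset]
  push_cast
  rfl

/-- [p5] The joint law of two. -/
theorem sum_pi_map2 {m : ℕ} {Ω α : Type*} [Fintype α] [DecidableEq α] [DecidableEq Ω] (P : Fin m → Finset Ω)
    (X Y : Ω → α) (H : (Fin m → α) → (Fin m → α) → ℝ) :
    ∑ σ ∈ Fintype.piFinset P, H (fun i => X (σ i)) (fun i => Y (σ i)) =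
      ∑ z : Fin m → α, ∑ w : Fin m → α,
        (∏ i, (((P i).filter (fun ω => X ω = z i ∧ Y ω = w i)).card : ℝ)) * H z w := by

  rw [← Finset.sum_fiberwise (Fintype.piFinset P) (fun σ => fun i => X (σ i))
    (fun σ => H (fun i => X (σ i)) (fun i => Y (σ i)))]
  refine Finset.sum_congr rfl fun z _ => ?_
  rw [← Finset.sum_fiberwise ((Fintype.piFinset P).filter (fun σ => (fun i => X (σ i)) = z)) (fun σ => fun i => Y (σ i))
    (fun σ => H (fun i => X (σ i)) (fun i => Y (σ i)))]
  refine Finset.sum_congr rfl fun w _ => ?_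
  have h1 : ∀ σ ∈ ((Fintype.piFinset P).filter (fun σ => (fun i => X (σ i)) = z)).filter
      (fun σ => (fun i => Y (σ i)) = w), H (fun i => X (σ i)) (fun i => Y (σ i)) = H z w :=
    fun σ hσ => by
      rw [Finset.mem_filter, Finset.mem_filter] at hσ
      rw [hσ.1.2, hσ.2]
  rw [Finset.sum_congr rfl h1, Finset.sum_const, nsmul_eq_mul]
  congr 1
  have h2 : ((Fintype.piFinset P).filter (fun σ => (fun i => X (σ i)) = z)).filter (fun σ => (fun i => Y (σ i)) = w)
      = Fintype.piFinset (fun i => (P i).filter (fun ω => X ω = z i ∧ Y ω = w i)) := by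
    ext σ
    simp only [Finset.mem_filter, Fintype.mem_piFinset]
    constructor
    · rintro ⟨⟨h3, h4⟩, h5⟩ i
      exact ⟨h3 i, congrFun h4 i, congrFun h5 i⟩
    · intro h3
      exact ⟨⟨fun i => (h3 i).1, funext fun i => (h3 i).2.1⟩, funext fun i => (h3 i).2.2⟩
  rw [h2, Fintype.card_piFinset]
  push_cast
  rfl

namespace Cd

variable {n : ℕ} (D : Cd n)

/-- the core columns of row `i` -/
def Qr (i : Fin n) : Finset (Fin n) := univ.filter (fun c => (i, c) ∈ D.Q)

/-- the arrangements: in row `i` a permutation fixing the core -/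
def Ar : Finset (Fin n → Equiv.Perm (Fin n)) := Fintype.piFinset (fun i => fixP (D.Qr i))

/-- [r1] -/
theorem Ar_pos : 0 < D.Ar.card := by
  unfold Ar
  rw [Fintype.card_piFinset]
  exact Finset.prod_pos (fun i _ => fixP_pos _)

/-- [r1] -/
theorem mem_Ar {σ : Fin n → Equiv.Perm (Fin n)} :
    σ ∈ D.Ar ↔ ∀ i c, (i, c) ∈ D.Q → σ i c = c := by
  unfold Ar
  rw [Fintype.mem_piFinset]
  simp [fixP, Qr]

theorem r1_Qr {i c : Fin n} : c ∈ D.Qr i ↔ (i, c) ∈ D.Q := by simp [Qr]

theorem r1_fix {σ : Fin n → Equiv.Perm (Fin n)} (h : σ ∈ D.Ar) (i : Fin n) : σ i ∈ fixP (D.Qr i) :=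
  Fintype.mem_piFinset.mp h i

/-- [r1] -/
theorem Ar_free {σ : Fin n → Equiv.Perm (Fin n)} (h : σ ∈ D.Ar) {i c : Fin n} :
    (i, σ i c) ∈ D.Q ↔ (i, c) ∈ D.Q := by
  rw [← D.r1_Qr, ← D.r1_Qr]
  exact not_iff_not.mp (fixP_notMem (D.r1_fix h i))

/-- possible images of `c` -/
theorem r1_mem_S {i c : Fin n} {w : Equiv.Perm (Fin n)} (hw : w ∈ fixP (D.Qr i)) : w c ∈ D.S c i := by
  unfold S
  split_ifs with h1
  · rw [Finset.mem_singleton]
    exact (Finset.mem_filter.mp hw).2 c (D.r1_Qr.mpr h1)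
  · rw [Finset.mem_filter]
    refine ⟨Finset.mem_univ _, ?_⟩
    rw [← D.r1_Qr] at h1 ⊢
    exact (fixP_notMem hw).mpr h1

/-- [r1] -/
theorem colm_mem {σ : Fin n → Equiv.Perm (Fin n)} (h : σ ∈ D.Ar) (c : Fin n) : colm σ c ∈ D.Om c := by
  rw [D.mem_Om]
  intro i
  exact D.r1_mem_S (D.r1_fix h i)

theorem r2_Qr_card (i : Fin n) : (D.Qr i).card = D.t := D.rowQ i

theorem r2_card (c i x : Fin n) :
    (D.S c i).card * ((fixP (D.Qr i)).filter (fun w => w c = x)).card =
      if x ∈ D.S c i then (fixP (D.Qr i)).card else 0 := by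
  split_ifs with hx
  · by_cases h1 : (i, c) ∈ D.Q
    · have h2 : D.S c i = {c} := by unfold S; rw [if_pos h1]
      rw [h2, Finset.mem_singleton] at hx
      subst hx
      rw [h2, Finset.card_singleton, one_mul, Finset.filter_true_of_mem]
      intro w hw
      exact (Finset.mem_filter.mp hw).2 x (D.r1_Qr.mpr h1)
    · have h3 : i ∈ D.F c := D.mem_F.mpr h1
      rw [D.card_S h3]
      have h4 : D.N = n - (D.Qr i).card := by rw [D.r2_Qr_card]; rfl
      rw [h4]
      rw [D.S_free h3, Finset.mem_filter] at hx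
      exact card_one (D.Qr i) (fun h => h1 (D.r1_Qr.mp h)) (fun h => hx.2 (D.r1_Qr.mp h))
  · rw [Finset.filter_eq_empty_iff.mpr]
    · simp
    · intro w hw h1
      exact hx (h1 ▸ D.r1_mem_S hw)

/-- [r2] A single column is uniform on `Om c`.  Proof: `sum_pi_map` with `X σ = σ c`; for `z ∈ Om c` every factor is
`|fixP|/|S c i|` (`card_one`, or `σ c = c`), for `z ∉ Om c` some factor is zero. -/
theorem ex_col (c : Fin n) (F : (Fin n → Fin n) → ℝ) :
    Ex D.Ar (fun σ => F (colm σ c)) = Ex (D.Om c) F := by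
  have hA : (0 : ℝ) < D.Ar.card := by exact_mod_cast D.Ar_pos
  have hO : (0 : ℝ) < (D.Om c).card := by exact_mod_cast D.Om_pos c
  have h1 : ∑ σ ∈ D.Ar, F (colm σ c) =
      ∑ z : Fin n → Fin n, (∏ i, (((fixP (D.Qr i)).filter (fun w => w c = z i)).card : ℝ)) * F z :=
    sum_pi_map (fun i => fixP (D.Qr i)) (fun w => w c) F
  have h2 : ∀ z : Fin n → Fin n, ((D.Om c).card : ℝ) *
      (∏ i, (((fixP (D.Qr i)).filter (fun w => w c = z i)).card : ℝ)) =
      if z ∈ D.Om c then (D.Ar.card : ℝ) else 0 := by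
    intro z
    have h3 : (D.Om c).card * (∏ i, ((fixP (D.Qr i)).filter (fun w => w c = z i)).card) =
        if z ∈ D.Om c then D.Ar.card else 0 := by
      unfold Om Ar
      rw [Fintype.card_piFinset, Fintype.card_piFinset, ← Finset.prod_mul_distrib]
      simp_rw [r2_card]
      rw [Finset.prod_ite_zero]
      simp only [Finset.mem_univ, forall_true_left, Fintype.mem_piFinset]
    have h4 := congrArg (fun m : ℕ => (m : ℝ)) h3
    simp only [Nat.cast_mul, Nat.cast_prod, Nat.cast_ite, Nat.cast_zero] at h4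
    exact h4
  unfold Ex
  rw [div_eq_div_iff (ne_of_gt hA) (ne_of_gt hO), h1, Finset.sum_mul, ]
  have h5 : ∀ z : Fin n → Fin n, (∏ i, (((fixP (D.Qr i)).filter (fun w => w c = z i)).card : ℝ)) * F z *
      ((D.Om c).card : ℝ) = (if z ∈ D.Om c then (D.Ar.card : ℝ) else 0) * F z := by
    intro z
    rw [← h2 z]
    ring
  rw [Finset.sum_congr rfl (fun z _ => h5 z)]
  simp_rw [ite_mul, zero_mul]
  rw [Finset.sum_ite_mem, Finset.univ_inter, ← Finset.mul_sum, mul_comm]

theorem r3_law {c c' : Fin n} (H : (Fin n → Fin n) → (Fin n → Fin n) → ℝ) :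
    Ex D.Ar (fun σ => H (colm σ c) (colm σ c')) =
      ∑ z, ∑ w, (∏ i, qrow (D.Qr i) c c' (z i) (w i)) * H z w := by
  have h1 : ∑ σ ∈ D.Ar, H (colm σ c) (colm σ c') =
      ∑ z : Fin n → Fin n, ∑ w : Fin n → Fin n,
        (∏ i, (((fixP (D.Qr i)).filter (fun ω => ω c = z i ∧ ω c' = w i)).card : ℝ)) * H z w :=
    sum_pi_map2 (fun i => fixP (D.Qr i)) (fun w => w c) (fun w => w c') H
  unfold Ex
  rw [h1, Finset.sum_div]
  refine Finset.sum_congr rfl (fun z _ => ?_)
  rw [Finset.sum_div]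
  refine Finset.sum_congr rfl (fun w _ => ?_)
  unfold qrow
  rw [Finset.prod_div_distrib]
  have h2 : (D.Ar.card : ℝ) = ∏ i, ((fixP (D.Qr i)).card : ℝ) := by
    unfold Ar
    rw [Fintype.card_piFinset]
    push_cast
    rfl
  rw [h2]
  ring

/-- [r3] Covariance of functions of two columns.  Proof: `sum_pi_map2` with `X σ = σ c`, `Y σ = σ c'`, divided by `∏ |fixP|`: the joint
law is `∏ i, qrow (Qr i) c c' (z i) (w i)`, `cov_pi` and `cov_qrow` (`|Qr i| = t`, `N = n - t`). -/
theorem cov_cols {c c' : Fin n} (hcc : c ≠ c') (F G : (Fin n → Fin n) → ℝ) :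
    |Ex D.Ar (fun σ => F (colm σ c) * G (colm σ c')) -
        Ex D.Ar (fun σ => F (colm σ c)) * Ex D.Ar (fun σ => G (colm σ c'))| ≤
      1 / (2 * ((D.N : ℝ) - 1)) *
        ((Ex D.Ar (fun σ => F (colm σ c) ^ 2) - Ex D.Ar (fun σ => F (colm σ c)) ^ 2) +
         (Ex D.Ar (fun σ => G (colm σ c') ^ 2) - Ex D.Ar (fun σ => G (colm σ c')) ^ 2)) := by
  have hN := D.N_add
  have hb := D.N_big
  have hN2 : 2 ≤ D.N := by
    omega
  have hNr : (2 : ℝ) ≤ D.N := by exact_mod_cast hN2
  have hρ : (0 : ℝ) ≤ 1 / ((D.N : ℝ) - 1) := by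
    apply div_nonneg zero_le_one
    linarith
  have hcov : Cov (1 / ((D.N : ℝ) - 1)) (fun (z w : Fin n → Fin n) => ∏ i, qrow (D.Qr i) c c' (z i) (w i)) := by
    refine cov_pi hρ n (fun i => qrow (D.Qr i) c c') (fun i => ?_)
    have h1 := cov_qrow (D.Qr i) (by rw [D.r2_Qr_card]; omega) hcc
    have h2 : (n : ℝ) - ((D.Qr i).card : ℝ) = D.N := by
      rw [D.r2_Qr_card]
      have h3 : ((D.N + D.t : ℕ) : ℝ) = (n : ℝ) := by rw [hN]
      push_cast at h3
      linarith
    rw [h2] at h1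
    exact h1
  have h := hcov.cov F G
  have e1 : eB (fun (z w : Fin n → Fin n) => ∏ i, qrow (D.Qr i) c c' (z i) (w i)) F G =
      Ex D.Ar (fun σ => F (colm σ c) * G (colm σ c')) := by
    rw [D.r3_law (c := c) (c' := c') (fun z w => F z * G w)]
    rfl
  have e2 : ∀ F : (Fin n → Fin n) → ℝ, eL (fun (z w : Fin n → Fin n) => ∏ i, qrow (D.Qr i) c c' (z i) (w i)) F =
      Ex D.Ar (fun σ => F (colm σ c)) := by
    intro F
    rw [D.r3_law (c := c) (c' := c') (fun z w => F z)]
    rfl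
  have e3 : ∀ G : (Fin n → Fin n) → ℝ, eR (fun (z w : Fin n → Fin n) => ∏ i, qrow (D.Qr i) c c' (z i) (w i)) G =
      Ex D.Ar (fun σ => G (colm σ c')) := by
    intro G
    rw [D.r3_law (c := c) (c' := c') (fun z w => G w)]
    rfl
  rw [e1, e2, e3, e2, e3] at h
  have e4 : 1 / (2 * ((D.N : ℝ) - 1)) = 1 / ((D.N : ℝ) - 1) / 2 := by
    rw [div_div, mul_comm]
  rw [e4]
  exact h

end Cd

end Pool.Agent.RGs
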