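import Pool.Agent.RGs.Spr

/-!
# A nice arrangement, and its repair (section D of the text)
-/

set_option autoImplicit false

namespace Pool.Agent.RGs

open Finset Pool.Agent.RotaP Pool.Agent.RGi

namespace Cd

variable {n : ℕ} (D : Cd n)

/-- the properties of the arrangement used in the repair -/
structure Nice (σ : Fin n → Equiv.Perm (Fin n)) : Prop where
  mem : σ ∈ D.Ar
  cor : 2 ^ 13 * D.cor σ ≤ n
  tl : D.tl σ ≤ 2 ^ 10 * ((D.k : ℝ) + 1) * n
  high : ∀ c, 32 * (D.L : ℝ) *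
    ((D.F c).filter (fun j => (D.N : ℝ) ≤ 8 * D.Xl j (σ j c) σ)).card ≤ 3 * D.N
  spread : D.Spread σ

private theorem n1_N_pos : (1 : ℝ) ≤ D.N := by
  have h := D.N_big
  have : 1 ≤ D.N := by
    omega
  exact_mod_cast this

open Classical in
private theorem n1_frac {ω : Type*} (s : Finset ω) (P : ω → Prop) :
    Ex s (fun w => if P w then (1 : ℝ) else 0) = ((s.filter P).card : ℝ) / s.card := by
  unfold Ex
  rw [Finset.sum_boole]

open Classical in
private theorem n1_mark (f : (Fin n → Equiv.Perm (Fin n)) → ℝ) (hf : ∀ w ∈ D.Ar, 0 ≤ f w) (a : ℝ)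
    (ha : 0 < a) (h : 8 * Ex D.Ar f ≤ a) :
    8 * ((D.Ar.filter (fun w => a ≤ f w)).card : ℝ) ≤ D.Ar.card := by
  have hA : (0 : ℝ) < D.Ar.card := by exact_mod_cast D.Ar_pos
  have h1 := markov' D.Ar f hf a ha
  rw [n1_frac] at h1
  have h2 : Ex D.Ar f / a ≤ 1 / 8 := by
    rw [div_le_div_iff₀ ha (by norm_num)]
    linarith
  have h3 := h1.trans h2
  rw [div_le_div_iff₀ hA (by norm_num)] at h3
  linarith

open Classical in
private theorem n1_union (c : Fin n) :
    8 * (n : ℝ) * ((D.Ar.filter (fun σ => (D.N : ℝ) ≤ 32 * D.L * D.yc c (colm σ c))).card : ℝ) ≤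
      D.Ar.card := by
  have h1 := D.ex_col c (fun z => if (D.N : ℝ) ≤ 32 * D.L * D.yc c z then (1 : ℝ) else 0)
  rw [n1_frac, n1_frac] at h1
  have hA : (0 : ℝ) < D.Ar.card := by exact_mod_cast D.Ar_pos
  have hO : (0 : ℝ) < (D.Om c).card := by exact_mod_cast D.Om_pos c
  have h2 := D.ex_yc c
  rw [div_eq_div_iff hA.ne' hO.ne'] at h1
  have h3 : 8 * (n : ℝ) * ((D.Ar.filter (fun σ => (D.N : ℝ) ≤ 32 * D.L * D.yc c (colm σ c))).card : ℝ)
      * (D.Om c).card ≤ D.Ar.card * (D.Om c).card := by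
    rw [mul_assoc, h1]
    calc 8 * (n : ℝ) * ((((D.Om c).filter (fun z => (D.N : ℝ) ≤ 32 * D.L * D.yc c z)).card : ℝ) *
          D.Ar.card) = (8 * (n : ℝ) *
          (((D.Om c).filter (fun z => (D.N : ℝ) ≤ 32 * D.L * D.yc c z)).card : ℝ)) * D.Ar.card := by
          ring
      _ ≤ (D.Om c).card * D.Ar.card := by
          apply mul_le_mul_of_nonneg_right h2 hA.le
      _ = _ := by ring
  exact le_of_mul_le_mul_right h3 hO

/-- [n1] Proof (see `RGi.Cd.exists_nice`): `markov'` for `cor` (`a = n/2^13`), `tl` (`a = 2^10 (k+1) n`), `dev` (`a = 2^17 (k+1)`), each with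
probability `≤ 1/8` (`ex_cor`, `ex_tl`, `ex_dev`), `ex_yc` with `ex_col` (union over the `n` columns: `≤ 1/8`) and `bad_spread`.
`high`: `high_le`, `dev ≤ 2^17 (k+1)`, `yc ≤ N/(32 L)`, `32 L 2^17 (k+1) = 2^22 L (k+1) ≤ 2 N`. -/
theorem exists_nice : ∃ σ, D.Nice σ := by
  classical
  have hN := D.n1_N_pos
  set K : ℝ := (D.k : ℝ) + 1 with hK
  have hK0 : 0 < K := by positivity
  have hn : (n : ℝ) ≤ 2 * D.N := by exact_mod_cast D.n_le
  have hL := D.L_ge
  have hL0 : (0 : ℝ) < D.L := by linarith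
  have hbig : (2 : ℝ) ^ 22 * ((D.L : ℝ) * K) ≤ n := by
    have h : ((2 ^ 22 * (D.L * (D.k + 1)) : ℕ) : ℝ) ≤ n := by exact_mod_cast D.bigK
    push_cast at h
    rw [hK]
    linarith
  have hn1 : (1 : ℝ) ≤ n := by
    have h := D.N_add
    have : D.N ≤ n := by omega
    have : (D.N : ℝ) ≤ n := by exact_mod_cast this
    linarith
  have hA : (0 : ℝ) < D.Ar.card := by exact_mod_cast D.Ar_pos
  have hcor0 : ∀ σ ∈ D.Ar, 0 ≤ D.cor σ := by
    intro σ _
    unfold cor
    apply Finset.sum_nonneg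
    intro c _
    have : (D.rk (colm σ c) : ℝ) ≤ n := by exact_mod_cast D.rk_le _
    linarith
  have htt0 : ∀ σ ∈ D.Ar, 0 ≤ D.tl σ := by
    intro σ _
    unfold tl
    apply Finset.sum_nonneg
    intro c _
    apply Finset.sum_nonneg
    intro j _
    split_ifs <;> norm_num
  have hdev0 : ∀ σ ∈ D.Ar, 0 ≤ D.dev σ := by
    intro σ _
    unfold dev
    apply Finset.sum_nonneg
    intro c _
    apply Finset.sum_nonneg
    intro j _
    split_ifs <;> norm_num
  have m1 := D.n1_mark D.cor hcor0 (n / 2 ^ 13) (by positivity) (by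
    have := D.ex_cor
    rw [le_div_iff₀ (by positivity)]
    linarith)
  have m2 := D.n1_mark D.tl htt0 (2 ^ 10 * K * n) (by positivity) (by
    have := D.ex_tl
    rw [← hK] at this
    linarith)
  have m3 := D.n1_mark D.dev hdev0 (2 ^ 17 * K) (by positivity) (by
    have := D.ex_dev
    rw [← hK] at this
    linarith)
  have m4 := D.bad_spread
  set A1 := D.Ar.filter (fun w => n / 2 ^ 13 ≤ D.cor w) with hA1
  set A2 := D.Ar.filter (fun w => 2 ^ 10 * K * n ≤ D.tl w) with hA2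
  set A3 := D.Ar.filter (fun w => 2 ^ 17 * K ≤ D.dev w) with hA3
  set A4 := D.Ar.filter (fun w => ¬ D.Spread w) with hA4
  set B : Fin n → Finset (Fin n → Equiv.Perm (Fin n)) := fun c =>
    D.Ar.filter (fun σ => (D.N : ℝ) ≤ 32 * (D.L : ℝ) * D.yc c (colm σ c)) with hB
  have hB8 : 8 * (((univ : Finset (Fin n)).biUnion B).card : ℝ) ≤ D.Ar.card := by
    have h1 : (((univ : Finset (Fin n)).biUnion B).card : ℝ) ≤ ∑ c, ((B c).card : ℝ) := by
      exact_mod_cast Finset.card_biUnion_le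
    have h2 : ∀ c, 8 * ((B c).card : ℝ) ≤ D.Ar.card / n := by
      intro c
      rw [le_div_iff₀ (by linarith)]
      have := D.n1_union c
      simp only [hB]
      linarith
    calc 8 * (((univ : Finset (Fin n)).biUnion B).card : ℝ) ≤ 8 * ∑ c, ((B c).card : ℝ) := by linarith
      _ = ∑ c : Fin n, 8 * ((B c).card : ℝ) := by rw [Finset.mul_sum]
      _ ≤ ∑ _c : Fin n, (D.Ar.card / n : ℝ) := Finset.sum_le_sum (fun c _ => h2 c)
      _ = D.Ar.card := by
        rw [Finset.sum_const, card_univ, Fintype.card_fin, nsmul_eq_mul]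
        field_simp
  obtain ⟨σ, hσ, hgood⟩ : ∃ σ ∈ D.Ar,
      σ ∉ A1 ∪ A2 ∪ A3 ∪ A4 ∪ (univ : Finset (Fin n)).biUnion B := by
    by_contra hno
    push Not at hno
    have hsub : D.Ar ⊆ A1 ∪ A2 ∪ A3 ∪ A4 ∪ (univ : Finset (Fin n)).biUnion B := hno
    have h1 := card_le_card hsub
    have h2 := card_union_le (A1 ∪ A2 ∪ A3 ∪ A4) ((univ : Finset (Fin n)).biUnion B)
    have h3 := card_union_le (A1 ∪ A2 ∪ A3) A4
    have h3' := card_union_le (A1 ∪ A2) A3
    have h4 := card_union_le A1 A2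
    have h5 : D.Ar.card ≤ A1.card + A2.card + A3.card + A4.card +
        ((univ : Finset (Fin n)).biUnion B).card := by
      omega
    have h6 : (D.Ar.card : ℝ) ≤ A1.card + A2.card + A3.card + A4.card +
        ((univ : Finset (Fin n)).biUnion B).card := by
      exact_mod_cast h5
    linarith
  simp only [mem_union, not_or, mem_biUnion, not_exists, not_and, mem_univ, true_implies] at hgood
  obtain ⟨⟨⟨⟨g1, g2⟩, g3⟩, g5⟩, g4⟩ := hgood
  have g1' : D.cor σ < n / 2 ^ 13 := by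
    by_contra h
    exact g1 (mem_filter.2 ⟨hσ, not_lt.1 h⟩)
  have g2' : D.tl σ < 2 ^ 10 * K * n := by
    by_contra h
    exact g2 (mem_filter.2 ⟨hσ, not_lt.1 h⟩)
  have g3' : D.dev σ < 2 ^ 17 * K := by
    by_contra h
    exact g3 (mem_filter.2 ⟨hσ, not_lt.1 h⟩)
  have g4' : ∀ c, 32 * (D.L : ℝ) * D.yc c (colm σ c) < D.N := by
    intro c
    by_contra h
    exact g4 c (mem_filter.2 ⟨hσ, not_lt.1 h⟩)
  have g5' : D.Spread σ := by
    by_contra h
    exact g5 (mem_filter.2 ⟨hσ, h⟩)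
  refine ⟨σ, hσ, ?_, g2'.le, ?_, g5'⟩
  · rw [lt_div_iff₀ (by positivity)] at g1'
    linarith
  · intro c
    have h1 := D.high_le σ hσ c
    have h2 := g4' c
    have h3 : 32 * (D.L : ℝ) * ((((D.F c).filter (fun j => (D.N : ℝ) ≤ 8 * D.Xl j (σ j c) σ)).card : ℝ)) ≤
        32 * (D.L : ℝ) * (D.dev σ + D.yc c (colm σ c)) :=
      mul_le_mul_of_nonneg_left h1 (by positivity)
    have h4 : 32 * (D.L : ℝ) * D.dev σ ≤ 32 * (D.L : ℝ) * (2 ^ 17 * K) :=
      mul_le_mul_of_nonneg_left g3'.le (by positivity)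
    nlinarith

/-- total corank, in `ℕ` -/
def tot (σ : Fin n → Equiv.Perm (Fin n)) : ℕ := ∑ c, (n - D.rk (colm σ c))

/-- The state of the repair: `σ` the original arrangement, `τ` the current one, `U` the used columns.  An unused column is contained in the
original column and the set `Y` of the elements received in the repair, with the same rank. -/
structure St (σ τ : Fin n → Equiv.Perm (Fin n)) (U : Finset (Fin n)) : Prop where
  mem : τ ∈ D.Ar
  used : ∀ c ∈ U, D.rk (colm σ c) = n ∧ D.rk (colm τ c) = n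
  ch : ∀ c, c ∉ U → ∃ Y : Finset (Fin n × Fin n), Y.card + D.rk (colm σ c) ≤ D.rk (colm τ c) ∧
    Zs (colm τ c) ⊆ Zs (colm σ c) ∪ Y ∧ D.R.r (Zs (colm σ c) ∪ Y) = D.rk (colm τ c)
  cnt : U.card + 2 * D.tot τ ≤ 2 * D.tot σ

/-- the columns which must not be used as helpers: used ones and originally dependent ones -/
def Bd (σ : Fin n → Equiv.Perm (Fin n)) (U : Finset (Fin n)) : Finset (Fin n) :=
  U ∪ univ.filter (fun c => D.rk (colm σ c) < n)

private theorem n2_cor (σ : Fin n → Equiv.Perm (Fin n)) : D.cor σ = (D.tot σ : ℝ) := by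
  unfold cor tot
  rw [Nat.cast_sum]
  refine sum_congr rfl (fun c _ => ?_)
  rw [Nat.cast_sub (D.rk_le _)]

/-- [n2] `|U| ≤ 2 tot σ`, the number of dependent columns is `≤ tot σ = cor σ ≤ n / 2^13`. -/
theorem card_Bd {σ τ : Fin n → Equiv.Perm (Fin n)} {U : Finset (Fin n)} (hσ : D.Nice σ)
    (h : D.St σ τ U) : 2 ^ 11 * (D.Bd σ U).card ≤ n := by
  have h1 := hσ.cor
  have h2 := D.n2_cor σ
  rw [h2] at h1
  have h3 : 2 ^ 13 * D.tot σ ≤ n := by exact_mod_cast h1
  have h4 : (D.Bd σ U).card ≤ U.card + (univ.filter (fun c => D.rk (colm σ c) < n)).card := card_union_le _ _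
  have h5 : (univ.filter (fun c => D.rk (colm σ c) < n)).card ≤ D.tot σ := by
    unfold tot
    rw [card_eq_sum_ones, sum_filter]
    refine sum_le_sum (fun c _ => ?_)
    split_ifs with hc <;> omega
  have h6 := h.cnt
  omega

/-- [n2] an unused independent column is unchanged (`Y = ∅` since `rk ≤ n`; `mem_Zs`). -/
theorem same {σ τ : Fin n → Equiv.Perm (Fin n)} {U : Finset (Fin n)} (h : D.St σ τ U) {c : Fin n}
    (hc : c ∉ D.Bd σ U) : ∀ i, τ i c = σ i c := by
  intro i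
  unfold Bd at hc
  rw [mem_union, not_or, mem_filter] at hc
  have h1 : D.rk (colm σ c) = n := by
    have := D.rk_le (colm σ c)
    by_contra h0
    exact hc.2 ⟨mem_univ _, by omega⟩
  obtain ⟨Y, h2, h5, _⟩ := h.ch c hc.1
  have h3 := D.rk_le (colm τ c)
  have h4 : Y.card = 0 := by omega
  rw [card_eq_zero] at h4
  rw [h4, union_empty] at h5
  have h6 := h5 (mem_Zs.2 (rfl : colm τ c (i, τ i c).1 = (i, τ i c).2))
  exact (mem_Zs.1 h6).symm

/-- [n2] the dependent columns of `τ` are in `Bd` (otherwise unchanged of rank `n`, `same`) and unused. -/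
theorem dep_Bd {σ τ : Fin n → Equiv.Perm (Fin n)} {U : Finset (Fin n)} (h : D.St σ τ U) {c : Fin n}
    (hc : D.rk (colm τ c) < n) : c ∈ D.Bd σ U ∧ c ∉ U := by
  refine ⟨?_, fun h0 => ?_⟩
  · by_contra h0
    have h2 : colm τ c = colm σ c := funext (D.same h h0)
    apply h0
    unfold Bd
    rw [mem_union, mem_filter]
    exact Or.inr ⟨mem_univ _, by rw [← h2]; exact hc⟩
  · have := (h.used c h0).2
    omega

/-- the basis columns which are heavy at `m` -/
def qq (σ : Fin n → Equiv.Perm (Fin n)) (m : Fin n) : Finset (Fin n) :=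
  (D.Gam m).filter (fun w => D.rk (colm σ w) = n ∧ m ∈ D.hv w (colm σ w))

/-- [n3] exchange the sums, `card_hv`. -/
theorem sum_qq (σ : Fin n → Equiv.Perm (Fin n)) : ∑ m, (D.qq σ m).card ≤ 2 * (D.k + 1) * n := by
  have h1 : ∀ m, (D.qq σ m).card ≤ ∑ w, if D.rk (colm σ w) = n ∧ m ∈ D.hv w (colm σ w) then 1 else 0 := by
    intro m
    rw [← card_filter]
    apply card_le_card
    intro w hw
    unfold qq at hw
    rw [mem_filter] at hw ⊢
    exact ⟨mem_univ _, hw.2⟩
  refine (sum_le_sum (fun m _ => h1 m)).trans ?_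
  rw [sum_comm]
  have h2 : ∀ w ∈ (univ : Finset (Fin n)),
      ∑ m, (if D.rk (colm σ w) = n ∧ m ∈ D.hv w (colm σ w) then 1 else 0) ≤ 2 * (D.k + 1) := by
    intro w _
    by_cases hr : D.rk (colm σ w) = n
    · refine le_trans ?_ (D.card_hv (c := w) hr)
      rw [← card_filter]
      apply card_le_card
      intro m hm
      exact (mem_filter.1 hm).2.2
    · rw [sum_eq_zero]
      · exact Nat.zero_le _
      · intro m _
        rw [if_neg (fun h => hr h.1)]
  refine (sum_le_sum h2).trans ?_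
  rw [sum_const, card_univ, Fintype.card_fin, smul_eq_mul, Nat.mul_comm]

/-- [n3] the number of rows in which an eighth of the columns is heavy (`sum_qq`, `n_le`). -/
theorem card_qrow (σ : Fin n → Equiv.Perm (Fin n)) :
    (univ.filter (fun m => D.N ≤ 8 * (D.qq σ m).card)).card ≤ 32 * (D.k + 1) := by
  have h1 := D.sum_qq σ
  have h2 : ∑ _m ∈ univ.filter (fun m => D.N ≤ 8 * (D.qq σ m).card), D.N ≤ 8 * ∑ m, (D.qq σ m).card := by
    rw [mul_sum]
    calc ∑ _m ∈ univ.filter (fun m => D.N ≤ 8 * (D.qq σ m).card), D.N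
        ≤ ∑ m ∈ univ.filter (fun m => D.N ≤ 8 * (D.qq σ m).card), 8 * (D.qq σ m).card :=
          sum_le_sum (fun m hm => (mem_filter.1 hm).2)
      _ ≤ ∑ m, 8 * (D.qq σ m).card := sum_le_sum_of_subset (filter_subset _ _)
  rw [sum_const, smul_eq_mul] at h2
  have h3 := D.n_le
  have hN : 0 < D.N := lt_of_lt_of_le (by positivity) D.N_big
  have h4 : (univ.filter (fun m => D.N ≤ 8 * (D.qq σ m).card)).card * D.N ≤ (32 * (D.k + 1)) * D.N := by
    calc (univ.filter (fun m => D.N ≤ 8 * (D.qq σ m).card)).card * D.N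
        ≤ 8 * (2 * (D.k + 1) * n) := h2.trans (Nat.mul_le_mul_left _ h1)
      _ ≤ 8 * (2 * (D.k + 1) * (2 * D.N)) := by
          exact Nat.mul_le_mul_left _ (Nat.mul_le_mul_left _ h3)
      _ = (32 * (D.k + 1)) * D.N := by ring
  exact Nat.le_of_mul_le_mul_right h4 hN

/-- [n4] The entries outside the closure of `X`, as pairs (row `m`, column `w`): their number is `Out c X`, the part with `w ∈ U` has
`cnt c X U σ` elements (`σ m` is a bijection; `σ m w ∈ Vo X m` implies `(m, σ m w) ∉ Q`). -/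
theorem card_pairs (c : Fin n) (X : Finset (Fin n × Fin n)) (U : Finset (Fin n))
    (σ : Fin n → Equiv.Perm (Fin n)) :
    (univ.filter (fun p : Fin n × Fin n => p.1 ∈ D.F c ∧ σ p.1 p.2 ∈ D.Vo X p.1)).card = D.Out c X ∧
    (univ.filter (fun p : Fin n × Fin n => p.1 ∈ D.F c ∧ σ p.1 p.2 ∈ D.Vo X p.1 ∧ p.2 ∈ U)).card =
      D.cnt c X U σ := by
  constructor
  · unfold Out
    rw [← card_sigma]
    refine card_bij' (fun p _ => (⟨p.1, σ p.1 p.2⟩ : (_ : Fin n) × Fin n))
      (fun q _ => (q.1, (σ q.1).symm q.2)) ?_ ?_ ?_ ?_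
    · intro p hp
      rw [mem_filter] at hp
      exact mem_sigma.2 ⟨hp.2.1, hp.2.2⟩
    · intro q hq
      rw [mem_sigma] at hq
      refine mem_filter.2 ⟨mem_univ _, hq.1, ?_⟩
      show σ q.1 ((σ q.1).symm q.2) ∈ D.Vo X q.1
      rw [Equiv.apply_symm_apply]
      exact hq.2
    · intro p _
      exact Prod.ext rfl (Equiv.symm_apply_apply _ _)
    · intro q _
      simp
  · unfold cnt
    rw [← card_sigma]
    refine card_bij' (fun p _ => (⟨p.1, p.2⟩ : (_ : Fin n) × Fin n))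
      (fun q _ => (q.1, q.2)) ?_ ?_ ?_ ?_
    · intro p hp
      rw [mem_filter] at hp
      exact mem_sigma.2 ⟨hp.2.1, mem_filter.2 ⟨hp.2.2.2, hp.2.2.1⟩⟩
    · intro q hq
      rw [mem_sigma] at hq
      have h2 := mem_filter.1 hq.2
      exact mem_filter.2 ⟨mem_univ _, hq.1, h2.2, h2.1⟩
    · intro p _
      rfl
    · intro q _
      rfl

private theorem n5_fun {α : Type*} [DecidableEq α] (k : ℕ) (hk : 1 ≤ k) (Y : Finset α) (hY : Y.card ≤ k) (e : α) :
    ∃ y : Fin k → α, Y ⊆ univ.image y ∧ univ.image y ⊆ insert e Y := by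
  classical
  refine ⟨fun i => if h : (i : ℕ) < Y.card then (Y.equivFin.symm ⟨i, h⟩ : α) else e, ?_, ?_⟩
  · intro x hx
    rw [mem_image]
    refine ⟨⟨(Y.equivFin ⟨x, hx⟩ : Fin Y.card), by
      have := (Y.equivFin ⟨x, hx⟩).2
      omega⟩, mem_univ _, ?_⟩
    simp
  · intro x hx
    rw [mem_image] at hx
    obtain ⟨i, _, rfl⟩ := hx
    by_cases h : (i : ℕ) < Y.card
    · simp only [h, dif_pos]
      exact mem_insert_of_mem (Y.equivFin.symm ⟨i, h⟩).2
    · simp only [h, dif_neg, not_false_iff]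
      exact mem_insert_self _ _

/-- [n5] SPREAD for the current column.  Proof: `Y` from `St.ch` (`c ∉ U` by `dep_Bd`), `|Y| ≤ k` (`le_rk`); a function `y : Fin k → Fin n × Fin n` with
`Y ⊆ image y ⊆ Y ∪ Zs (colm σ c)` (`k ≥ 1`), so `Zs (colm σ c) ∪ image y = Zs (colm σ c) ∪ Y`, which has the same closure as `Zs (colm τ c)` (`cl_eq`);
`Out_congr`, `Nice.spread`, `card_Bd`. -/
theorem spread_cur {σ τ : Fin n → Equiv.Perm (Fin n)} {U : Finset (Fin n)} (hσ : D.Nice σ)
    (h : D.St σ τ U) {c : Fin n} (hc : D.rk (colm τ c) < n) :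
    8 * D.cnt c (Zs (colm τ c)) (D.Bd σ U) σ ≤ D.Out c (Zs (colm τ c)) := by
  obtain ⟨_, hcU⟩ := D.dep_Bd h hc
  obtain ⟨Y, h1, h2, h3⟩ := h.ch c hcU
  have h4 := D.le_rk (colm σ c)
  have h5 := D.rk_le (colm τ c)
  have hYk : Y.card ≤ D.k := by omega
  obtain ⟨y, hy1, hy2⟩ := n5_fun D.k D.k1 Y hYk (c, colm σ c c)
  have h6 : Zs (colm σ c) ∪ univ.image y = Zs (colm σ c) ∪ Y := by
    apply subset_antisymm
    · apply union_subset subset_union_left
      refine hy2.trans ?_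
      apply insert_subset
      · exact mem_union_left _ (mem_Zs.2 rfl)
      · exact subset_union_right
    · exact union_subset_union_right hy1
  have h7 : cl D.R (Zs (colm τ c)) = cl D.R (Zs (colm σ c) ∪ Y) := cl_eq D.R h2 h3
  obtain ⟨h8, h9⟩ := D.Out_congr h7 c
  rw [h8, h9, ← h6]
  refine hσ.spread c y (D.Bd σ U) (D.card_Bd hσ h) ?_
  rw [h6, h3]
  exact hc

/-- [n6] the number of changed rows of a dependent column: `(i, τ i c) ∈ Y` if `τ i c ≠ σ i c`, `|Y| ≤ k`. -/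
theorem card_changed {σ τ : Fin n → Equiv.Perm (Fin n)} {U : Finset (Fin n)}
    (h : D.St σ τ U) {c : Fin n} (hc : D.rk (colm τ c) < n) :
    (univ.filter (fun i => τ i c ≠ σ i c)).card ≤ D.k := by
  obtain ⟨_, hcU⟩ := D.dep_Bd h hc
  obtain ⟨Y, h1, h2, _⟩ := h.ch c hcU
  have h3 := D.le_rk (colm σ c)
  have h4 := D.rk_le (colm τ c)
  have h5 : (univ.filter (fun i => τ i c ≠ σ i c)).card ≤ Y.card := by
    apply card_le_card_of_injOn (fun i => (i, τ i c))
    · intro i hi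
      rw [mem_coe, mem_filter] at hi
      have h6 := h2 (mem_Zs.2 (rfl : colm τ c (i, τ i c).1 = (i, τ i c).2))
      rw [mem_union] at h6
      rcases h6 with h6 | h6
      · exact absurd (mem_Zs.1 h6).symm hi.2
      · exact mem_coe.2 h6
    · intro a _ b _ hab
      exact (Prod.ext_iff.1 hab).1
  omega

private theorem n7_rows (rows : Finset (Fin n)) :
    (univ.filter (fun e : Fin n × Fin n => e.1 ∈ rows)).card = rows.card * n := by
  have : univ.filter (fun e : Fin n × Fin n => e.1 ∈ rows) = rows ×ˢ (univ : Finset (Fin n)) := by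
    ext e
    simp
  rw [this, card_product, card_univ, Fintype.card_fin]

/-- [n7] CHOICE OF THE ROW AND THE FIRST HELPER.  Proof: there are `Out ≥ n²/L` pairs `(m, w)` (`card_pairs`, `Out_nh`, `core_Zs`; `K = k + 1`).
Excluded are: those with `w ∈ Bd` (`≤ Out/8`, `card_pairs`, `spread_cur`); those with `m` changed (`≤ k` rows), `m` a coloop (`≤ k` rows,
`card_coloop`), `m` with `N ≤ 8 |qq m|` (`≤ 32 K` rows), `m` with `N ≤ 8 Xl m (σ m c) σ` (`≤ 3N/(32 L)` rows, `Nice.high`), `≤ n` columns each;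
those counted in `tl` (`≤ 2^10 K n`); those with `m ∈ hv w (colm σ w)`, `w ∉ Bd` (`≤ ∑ |qq| ≤ 2 K n`).  Total
`≤ Out/8 + 2^11 K n + 3 n²/(32 L) < Out` since `7 Out/8 ≥ 28 n²/(32 L)` and `2^11 K n ≤ n²/(32 L)`. -/
theorem choice1 {σ τ : Fin n → Equiv.Perm (Fin n)} {U : Finset (Fin n)} (hσ : D.Nice σ) (h : D.St σ τ U)
    {c : Fin n} (hc : D.rk (colm τ c) < n) :
    ∃ m w : Fin n, m ∈ D.F c ∧ w ∈ D.Gam m ∧ w ∉ D.Bd σ U ∧ τ m c = σ m c ∧
      D.R.r (Ze (colm τ c) m) = D.rk (colm τ c) ∧ (m, σ m w) ∉ cl D.R (Zs (colm τ c)) ∧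
      8 * (D.qq σ m).card < D.N ∧ 8 * D.Xl m (σ m c) σ < D.N ∧ m ∉ D.hv w (colm σ w) ∧
      8 * ∑ x ∈ D.Gam m, D.rejl w m x (colm σ w) < D.N := by
  classical
  by_contra hno
  push Not at hno
  -- the exceptional sets
  obtain ⟨r1, hr1⟩ : ∃ r1 : Finset (Fin n), r1 = univ.filter (fun i => τ i c ≠ σ i c) := ⟨_, rfl⟩
  obtain ⟨r2, hr2⟩ : ∃ r2 : Finset (Fin n), r2 = (D.F c).filter (fun m => D.R.r (Ze (colm τ c) m) < D.rk (colm τ c)) :=
    ⟨_, rfl⟩
  obtain ⟨r3, hr3⟩ : ∃ r3 : Finset (Fin n), r3 = (D.F c).filter (fun j => (D.N : ℝ) ≤ 8 * D.Xl j (σ j c) σ) :=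
    ⟨_, rfl⟩
  obtain ⟨r4, hr4⟩ : ∃ r4 : Finset (Fin n), r4 = univ.filter (fun m => D.N ≤ 8 * (D.qq σ m).card) := ⟨_, rfl⟩
  obtain ⟨P, hP⟩ : ∃ P : Finset (Fin n × Fin n), P = univ.filter (fun p : Fin n × Fin n =>
    p.1 ∈ D.F c ∧ σ p.1 p.2 ∈ D.Vo (Zs (colm τ c)) p.1) := ⟨_, rfl⟩
  obtain ⟨B5, hB5⟩ : ∃ B5 : Finset (Fin n × Fin n), B5 = univ.filter (fun p : Fin n × Fin n =>
    p.1 ∈ D.F c ∧ σ p.1 p.2 ∈ D.Vo (Zs (colm τ c)) p.1 ∧ p.2 ∈ D.Bd σ U) := ⟨_, rfl⟩
  obtain ⟨B6, hB6⟩ : ∃ B6 : Finset (Fin n × Fin n), B6 = univ.filter (fun p =>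
      p.2 ∈ D.Gam p.1 ∧ (D.N : ℝ) ≤ 8 * ∑ x ∈ D.Gam p.1, D.rejl p.2 p.1 x (colm σ p.2)) := ⟨_, rfl⟩
  obtain ⟨B7, hB7⟩ : ∃ B7 : Finset (Fin n × Fin n), B7 = univ.filter (fun p => p.2 ∈ D.qq σ p.1) := ⟨_, rfl⟩
  obtain ⟨cP, cB⟩ := D.card_pairs c (Zs (colm τ c)) (D.Bd σ U) σ
  rw [← hP] at cP
  rw [← hB5] at cB
  have hNH := D.Out_nh c (Zs (colm τ c)) (D.core_Zs (D.colm_mem h.mem c)) hc
  have hsub : P ⊆ univ.filter (fun e : Fin n × Fin n => e.1 ∈ r1) ∪
      (univ.filter (fun e : Fin n × Fin n => e.1 ∈ r2) ∪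
      (univ.filter (fun e : Fin n × Fin n => e.1 ∈ r3) ∪
      (univ.filter (fun e : Fin n × Fin n => e.1 ∈ r4) ∪ (B5 ∪ (B6 ∪ B7))))) := by
    intro p hp
    rw [hP, mem_filter] at hp
    obtain ⟨_, hF, hV⟩ := hp
    simp only [mem_union, mem_filter, mem_univ, true_and]
    by_contra hcon
    push Not at hcon
    obtain ⟨h1, h2, h3, h4, h5, h6, h7⟩ := hcon
    have hV' := hV
    unfold Vo at hV'
    rw [mem_filter] at hV'
    obtain ⟨_, hVQ, hVcl⟩ := hV'
    have hw : p.2 ∈ D.Gam p.1 := by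
      refine mem_filter.mpr ⟨mem_univ _, ?_⟩
      rw [← D.Ar_free hσ.mem]
      exact hVQ
    have h1' : τ p.1 c = σ p.1 c := by
      by_contra hne
      exact h1 (by rw [hr1]; exact mem_filter.mpr ⟨mem_univ _, hne⟩)
    have h2' : D.R.r (Ze (colm τ c) p.1) = D.rk (colm τ c) := by
      rcases D.rk_cases (colm τ c) p.1 with h | h
      · exact h.1
      · exact absurd (by rw [hr2]; exact mem_filter.mpr ⟨hF, by omega⟩) h2
    have h3' : 8 * D.Xl p.1 (σ p.1 c) σ < D.N := by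
      by_contra hne
      exact h3 (by rw [hr3]; exact mem_filter.mpr ⟨hF, not_lt.mp hne⟩)
    have h4' : 8 * (D.qq σ p.1).card < D.N := by
      by_contra hne
      exact h4 (by rw [hr4]; exact mem_filter.mpr ⟨mem_univ _, not_lt.mp hne⟩)
    have h5' : p.2 ∉ D.Bd σ U := by
      intro hne
      exact h5 (by rw [hB5]; exact mem_filter.mpr ⟨mem_univ _, hF, hV, hne⟩)
    have hrk : D.rk (colm σ p.2) = n := by
      have e1 := D.rk_le (colm σ p.2)
      by_contra hne
      exact h5' (mem_union_right _ (mem_filter.mpr ⟨mem_univ _, by omega⟩))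
    have h7' : p.1 ∉ D.hv p.2 (colm σ p.2) := by
      intro hne
      exact h7 (by rw [hB7]; exact mem_filter.mpr ⟨mem_univ _, mem_filter.mpr ⟨hw, hrk, hne⟩⟩)
    have h6' := hno p.1 p.2 hF hw h5' h1' h2' hVcl h4' h3' h7'
    exact h6 (by rw [hB6]; exact mem_filter.mpr ⟨mem_univ _, hw, h6'⟩)
  -- the bounds
  have hb1 : r1.card ≤ D.k := by
    rw [hr1]
    exact D.card_changed h hc
  have hb2 : r2.card ≤ D.k := by
    have := D.card_coloop (c := c) hc
    rw [← hr2] at this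
    omega
  have hb3 : 32 * (D.L : ℝ) * r3.card ≤ 3 * D.N := by
    have := hσ.high c
    rw [← hr3] at this
    exact this
  have hb4 : r4.card ≤ 32 * (D.k + 1) := by
    rw [hr4]
    exact D.card_qrow σ
  have hb5 : 8 * B5.card ≤ P.card := by
    rw [cP, cB]
    exact D.spread_cur hσ h hc
  have hb6 : (B6.card : ℝ) ≤ 2 ^ 10 * ((D.k : ℝ) + 1) * n := by
    refine le_trans ?_ hσ.tl
    have e0 : D.tl σ = (((univ : Finset (Fin n)).sigma (fun c => (D.F c).filter (fun j =>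
        (D.N : ℝ) ≤ 8 * ∑ x ∈ D.Gam j, D.rejl c j x (colm σ c)))).card : ℝ) := by
      rw [card_sigma, tl]
      push_cast
      apply sum_congr rfl
      intro c _
      rw [sum_boole]
    rw [e0]
    have : B6.card ≤ ((univ : Finset (Fin n)).sigma (fun c => (D.F c).filter (fun j =>
        (D.N : ℝ) ≤ 8 * ∑ x ∈ D.Gam j, D.rejl c j x (colm σ c)))).card := by
      apply card_le_card_of_injOn (fun e => (⟨e.2, e.1⟩ : (_ : Fin n) × Fin n))
      · intro e he
        rw [mem_coe, hB6, mem_filter] at he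
        refine mem_coe.mpr (mem_sigma.mpr ⟨mem_univ _, mem_filter.mpr ⟨?_, he.2.2⟩⟩)
        exact D.mem_F.mpr (mem_filter.mp he.2.1).2
      · intro e1 _ e2 _ h12
        simp only [Sigma.mk.injEq, heq_eq_eq] at h12
        exact Prod.ext h12.2 h12.1
    exact_mod_cast this
  have hb7 : B7.card ≤ 2 * (D.k + 1) * n := by
    refine le_trans ?_ (D.sum_qq σ)
    rw [← card_sigma]
    apply card_le_card_of_injOn (fun e => (⟨e.1, e.2⟩ : (_ : Fin n) × Fin n))
    · intro e he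
      rw [mem_coe, hB7, mem_filter] at he
      exact mem_coe.mpr (mem_sigma.mpr ⟨mem_univ _, he.2⟩)
    · intro e1 _ e2 _ h12
      simp only [Sigma.mk.injEq, heq_eq_eq] at h12
      exact Prod.ext h12.1 h12.2
  have hcard : P.card ≤ r1.card * n + (r2.card * n + (r3.card * n + (r4.card * n +
      (B5.card + (B6.card + B7.card))))) := by
    refine (card_le_card hsub).trans ((card_union_le _ _).trans ?_)
    rw [n7_rows]
    apply Nat.add_le_add_left
    refine (card_union_le _ _).trans ?_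
    rw [n7_rows]
    apply Nat.add_le_add_left
    refine (card_union_le _ _).trans ?_
    rw [n7_rows]
    apply Nat.add_le_add_left
    refine (card_union_le _ _).trans ?_
    rw [n7_rows]
    apply Nat.add_le_add_left
    refine (card_union_le _ _).trans ?_
    apply Nat.add_le_add_left
    exact card_union_le _ _
  -- final computation
  obtain ⟨K, hK⟩ : ∃ K : ℝ, K = (D.k : ℝ) + 1 := ⟨_, rfl⟩
  have hbig : (2 : ℝ) ^ 22 * ((D.L : ℝ) * ((D.k : ℝ) + 1)) ≤ n := by
    have h : ((2 ^ 22 * (D.L * (D.k + 1)) : ℕ) : ℝ) ≤ n := by exact_mod_cast D.bigK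
    push_cast at h
    linarith
  have hL := D.L_ge
  have hL0 : (0 : ℝ) < D.L := by linarith
  have hNn : (D.N : ℝ) ≤ n := by
    have := D.N_add
    have h2 : D.N ≤ n := by omega
    exact_mod_cast h2
  have hK1 : (1 : ℝ) ≤ K := by
    rw [hK]
    have : (0 : ℝ) ≤ D.k := Nat.cast_nonneg _
    linarith
  rw [← hK] at hbig hb6
  have hn0 : (0 : ℝ) < n := by
    have : (0 : ℝ) < 2 ^ 22 * ((D.L : ℝ) * K) := by positivity
    linarith
  have hNH' : (n : ℝ) * n ≤ D.L * P.card := by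
    rw [cP]
    exact_mod_cast hNH
  have hcard' : (P.card : ℝ) ≤ r1.card * n + (r2.card * n + (r3.card * n + (r4.card * n +
      (B5.card + (B6.card + B7.card))))) := by
    exact_mod_cast hcard
  have hb1' : (r1.card : ℝ) ≤ K := by
    have : (r1.card : ℝ) ≤ D.k := by exact_mod_cast hb1
    linarith
  have hb2' : (r2.card : ℝ) ≤ K := by
    have : (r2.card : ℝ) ≤ D.k := by exact_mod_cast hb2
    linarith
  have hb4' : (r4.card : ℝ) ≤ 32 * K := by
    rw [hK]
    exact_mod_cast hb4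
  have hb5' : 8 * (B5.card : ℝ) ≤ P.card := by exact_mod_cast hb5
  have hb7' : (B7.card : ℝ) ≤ 2 * K * n := by
    rw [hK]
    exact_mod_cast hb7
  have g1 : (r1.card : ℝ) * n ≤ K * n := mul_le_mul_of_nonneg_right hb1' hn0.le
  have g2 : (r2.card : ℝ) * n ≤ K * n := mul_le_mul_of_nonneg_right hb2' hn0.le
  have g4 : (r4.card : ℝ) * n ≤ 32 * K * n := mul_le_mul_of_nonneg_right hb4' hn0.le
  have g3 : 32 * (D.L : ℝ) * (r3.card * n) ≤ 3 * ((n : ℝ) * n) := by
    have e1 : 32 * (D.L : ℝ) * r3.card * n ≤ 3 * (n : ℝ) * n :=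
      mul_le_mul_of_nonneg_right (hb3.trans (by linarith)) hn0.le
    linarith
  have g5 : (P.card : ℝ) * 7 / 8 ≤ r3.card * n + 1060 * K * n := by linarith
  have g6 : 32 * (D.L : ℝ) * ((P.card : ℝ) * 7 / 8) ≤ 32 * (D.L : ℝ) * (r3.card * n + 1060 * K * n) :=
    mul_le_mul_of_nonneg_left g5 (by positivity)
  have g7 : 28 * ((n : ℝ) * n) ≤ 32 * (D.L : ℝ) * ((P.card : ℝ) * 7 / 8) := by
    have : 32 * (D.L : ℝ) * ((P.card : ℝ) * 7 / 8) = 28 * (D.L * P.card) := by ring
    rw [this]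
    linarith
  have g8 : 32 * (D.L : ℝ) * (1060 * K * n) ≤ (n : ℝ) * n := by
    have e1 : 32 * (D.L : ℝ) * (1060 * K * n) = (33920 * ((D.L : ℝ) * K)) * n := by ring
    rw [e1]
    apply mul_le_mul_of_nonneg_right _ hn0.le
    have : (0 : ℝ) ≤ (D.L : ℝ) * K := by positivity
    linarith
  have g9 : 32 * (D.L : ℝ) * (r3.card * n + 1060 * K * n) = 32 * (D.L : ℝ) * (r3.card * n) + 32 * (D.L : ℝ) * (1060 * K * n) := by ring
  have : (0 : ℝ) < n * n := mul_pos hn0 hn0
  linarith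

private theorem n8_card {α : Type*} [DecidableEq α] (G : Finset α) (c j : α → Fin n) (x : α → Fin n)
    (z : α → Fin n → Fin n) [DecidablePred fun v => D.rejl (c v) (j v) (x v) (z v) = 1] :
    ((G.filter (fun v => D.rejl (c v) (j v) (x v) (z v) = 1)).card : ℝ) =
      ∑ v ∈ G, D.rejl (c v) (j v) (x v) (z v) := by
  rw [card_eq_sum_ones, sum_filter, Nat.cast_sum]
  refine sum_congr rfl (fun v _ => ?_)
  rcases D.rejl_cases (c v) (j v) (x v) (z v) with h | h
  · rw [if_neg (by rw [h]; norm_num), h]; simp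
  · rw [if_pos h, h]; simp

/-- [n8] CHOICE OF THE SECOND HELPER.  Proof: among the `N` columns `v ∈ Gam m` exclude: `v ∈ Bd` (`≤ n/2^11`), `v = w`; `v ∉ Bd` with
`rk (update (colm σ v) m (σ m c)) < n`: if `m ∈ hv v (colm σ v)` then `v ∈ qq σ m`, otherwise `rejl v m (σ m c) (colm σ v) = 1` (`rejl_one`;
`(m, σ m c) ∉ Q` by `Ar_free`), so fewer than `N/8 + N/8`; those with `rk (update (colm σ w) m (σ m v)) < n`:
`rejl w m (σ m v) (colm σ w) = 1` (`rejl_one`), fewer than `N/8` since `v ↦ σ m v` is a bijection of `Gam m`. -/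
theorem choice2 {σ τ : Fin n → Equiv.Perm (Fin n)} {U : Finset (Fin n)} (hσ : D.Nice σ) (h : D.St σ τ U)
    {c m w : Fin n} (hm : m ∈ D.F c) (hw : w ∈ D.Gam m) (hwB : w ∉ D.Bd σ U)
    (h0 : 8 * (D.qq σ m).card < D.N) (h1 : 8 * D.Xl m (σ m c) σ < D.N) (hh : m ∉ D.hv w (colm σ w))
    (h2 : 8 * ∑ x ∈ D.Gam m, D.rejl w m x (colm σ w) < D.N) :
    ∃ v ∈ D.Gam m, v ∉ D.Bd σ U ∧ v ≠ w ∧
      D.rk (Function.update (colm σ v) m (σ m c)) = n ∧
      D.rk (Function.update (colm σ w) m (σ m v)) = n := by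
  classical
  have hB := D.card_Bd hσ h
  have hn := D.n_le
  have hN := D.N_big
  set A1 : Finset (Fin n) := (D.Gam m).filter (fun v => D.rejl v m (σ m c) (colm σ v) = 1) with hA1
  set A2 : Finset (Fin n) := (D.Gam m).filter (fun v => D.rejl w m (σ m v) (colm σ w) = 1) with hA2
  have e1 : (A1.card : ℝ) = D.Xl m (σ m c) σ := by
    unfold Xl
    rw [hA1, D.n8_card (D.Gam m) (fun v => v) (fun _ => m) (fun _ => σ m c) (fun v => colm σ v)]
  have e2 : (A2.card : ℝ) = ∑ x ∈ D.Gam m, D.rejl w m x (colm σ w) := by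
    rw [hA2, D.n8_card (D.Gam m) (fun _ => w) (fun v => (m : Fin n)) (fun v => σ m v) (fun v => colm σ w)]
    refine sum_bij (fun v _ => σ m v) ?_ ?_ ?_ ?_
    · intro v hv
      unfold Gam at hv ⊢
      rw [mem_filter] at hv ⊢
      exact ⟨mem_univ _, fun h0 => hv.2 ((D.Ar_free hσ.mem).mp h0)⟩
    · intro a _ b _ hab
      exact (σ m).injective hab
    · intro x hx
      refine ⟨(σ m).symm x, ?_, by simp⟩
      unfold Gam at hx ⊢
      rw [mem_filter] at hx ⊢
      refine ⟨mem_univ _, fun h0 => hx.2 ?_⟩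
      have := (D.Ar_free hσ.mem (i := m) (c := (σ m).symm x)).mpr h0
      rwa [Equiv.apply_symm_apply] at this
    · intro v _
      rfl
  rw [← e1] at h1
  rw [← e2] at h2
  have h1' : 8 * A1.card < D.N := by exact_mod_cast h1
  have h2' : 8 * A2.card < D.N := by exact_mod_cast h2
  have hG := D.card_Gam m
  have hN2 : 2 ^ 23 ≤ D.N := by omega
  have hcard : (A1 ∪ A2 ∪ (D.qq σ m) ∪ (D.Bd σ U) ∪ {w}).card < (D.Gam m).card := by
    have u1 := card_union_le (A1 ∪ A2 ∪ (D.qq σ m) ∪ (D.Bd σ U)) {w}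
    have u2 := card_union_le (A1 ∪ A2 ∪ (D.qq σ m)) (D.Bd σ U)
    have u3 := card_union_le (A1 ∪ A2) (D.qq σ m)
    have u4 := card_union_le A1 A2
    rw [card_singleton] at u1
    rw [hG]
    omega
  obtain ⟨v, hv, hv2⟩ := exists_mem_notMem_of_card_lt_card hcard
  simp only [mem_union, mem_singleton, not_or] at hv2
  obtain ⟨⟨⟨⟨n1, n2⟩, n5⟩, n3⟩, n4⟩ := hv2
  have hrk : ∀ d, d ∉ D.Bd σ U → D.rk (colm σ d) = n := by
    intro d hd
    have e1 := D.rk_le (colm σ d)
    by_contra hne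
    exact hd (mem_union_right _ (mem_filter.mpr ⟨mem_univ _, by omega⟩))
  have hF : ∀ d, d ∈ D.Gam m → m ∈ D.F d := fun d hd => D.mem_F.mpr (mem_filter.mp hd).2
  have hfree : ∀ d, (m, d) ∉ D.Q → (m, σ m d) ∉ D.Q := fun d hd h0 => hd ((D.Ar_free hσ.mem).mp h0)
  refine ⟨v, hv, n3, n4, ?_, ?_⟩
  · have e3 := D.rk_le (Function.update (colm σ v) m (σ m c))
    by_contra hne
    have hd : D.rk (Function.update (colm σ v) m (σ m c)) < n := by omega
    by_cases hh' : m ∈ D.hv v (colm σ v)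
    · exact n5 (mem_filter.mpr ⟨hv, hrk v n3, hh'⟩)
    · exact n1 (by
        rw [hA1, mem_filter]
        exact ⟨hv, D.rejl_one (D.colm_mem hσ.mem v) (hrk v n3) (hF v hv) (hfree c (D.mem_F.mp hm)) hh' hd⟩)
  · have e3 := D.rk_le (Function.update (colm σ w) m (σ m v))
    by_contra hne
    have hd : D.rk (Function.update (colm σ w) m (σ m v)) < n := by omega
    exact n2 (by
      rw [hA2, mem_filter]
      exact ⟨hv, D.rejl_one (D.colm_mem hσ.mem w) (hrk w hwB) (hF w hw) (hfree v (mem_filter.mp hv).2) hh hd⟩)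

/-- [n9] The rotation in row `m`: column `c` gets the entry of `w`, `w` gets the entry of `v`, `v` gets the entry of `c`.
(`RGi.Cd.rotate`.) -/
theorem rotate {τ : Fin n → Equiv.Perm (Fin n)} (hτ : τ ∈ D.Ar) {m c w v : Fin n} (hm : m ∈ D.F c)
    (hw : w ∈ D.Gam m) (hv : v ∈ D.Gam m) (hcw : c ≠ w) (hcv : c ≠ v) (hwv : w ≠ v) :
    ∃ τ' ∈ D.Ar, colm τ' c = Function.update (colm τ c) m (τ m w) ∧
      colm τ' w = Function.update (colm τ w) m (τ m v) ∧
      colm τ' v = Function.update (colm τ v) m (τ m c) ∧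
      ∀ d, d ≠ c → d ≠ w → d ≠ v → colm τ' d = colm τ d := by
  have q1 : (m, c) ∉ D.Q := D.mem_F.mp hm
  have q2 : (m, w) ∉ D.Q := (mem_filter.mp hw).2
  have q3 : (m, v) ∉ D.Q := (mem_filter.mp hv).2
  set p : Equiv.Perm (Fin n) := Equiv.swap c w * Equiv.swap w v with hp
  have pc : p c = w := by
    rw [hp, Equiv.Perm.mul_apply, Equiv.swap_apply_of_ne_of_ne hcw hcv, Equiv.swap_apply_left]
  have pw : p w = v := by
    rw [hp, Equiv.Perm.mul_apply, Equiv.swap_apply_left, Equiv.swap_apply_of_ne_of_ne hcv.symm hwv.symm]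
  have pv : p v = c := by
    rw [hp, Equiv.Perm.mul_apply, Equiv.swap_apply_right, Equiv.swap_apply_right]
  have pd : ∀ d, d ≠ c → d ≠ w → d ≠ v → p d = d := by
    intro d h1 h2 h3
    rw [hp, Equiv.Perm.mul_apply, Equiv.swap_apply_of_ne_of_ne h2 h3, Equiv.swap_apply_of_ne_of_ne h1 h2]
  have hcol : ∀ d, colm (Function.update τ m (τ m * p)) d = Function.update (colm τ d) m (τ m (p d)) := by
    intro d
    funext i
    unfold colm
    by_cases hi : i = m
    · subst hi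
      rw [Function.update_self, Function.update_self, Equiv.Perm.mul_apply]
    · rw [Function.update_of_ne hi, Function.update_of_ne hi]
  refine ⟨Function.update τ m (τ m * p), ?_, ?_, ?_, ?_, ?_⟩
  · rw [D.mem_Ar] at hτ ⊢
    intro i d hd
    by_cases hi : i = m
    · subst hi
      rw [Function.update_self, Equiv.Perm.mul_apply, pd d (fun h => q1 (h ▸ hd)) (fun h => q2 (h ▸ hd))
        (fun h => q3 (h ▸ hd))]
      exact hτ _ _ hd
    · rw [Function.update_of_ne hi]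
      exact hτ _ _ hd
  · rw [hcol, pc]
  · rw [hcol, pw]
  · rw [hcol, pv]
  · intro d h1 h2 h3
    rw [hcol, pd d h1 h2 h3]
    exact Function.update_eq_self _ _

/-- [n10] ONE STEP.  Proof (`RGi.Cd.step`): `choice1`, `choice2`, `rotate` (`dep_Bd`: `c ∈ Bd`, so `w, v ≠ c`); the rank of column `c` grows by one
(`rk_update_out`), columns `w`, `v` keep rank `n`, `U' = insert w (insert v U)`; `Y' = insert (m, σ m w) Y` for column `c`. -/
theorem step {σ τ : Fin n → Equiv.Perm (Fin n)} {U : Finset (Fin n)} (hσ : D.Nice σ) (h : D.St σ τ U)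
    {c : Fin n} (hc : D.rk (colm τ c) < n) :
    ∃ τ' U', D.St σ τ' U' ∧ D.tot τ' < D.tot τ := by
  obtain ⟨m, w, hm, hw, hwB, hmc, hZe, hcl, hq, hX, hh, hR⟩ := D.choice1 hσ h hc
  obtain ⟨v, hv, hvB, hvw, hv1, hw1⟩ := D.choice2 hσ h hm hw hwB hq hX hh hR
  have hcU : c ∉ U := fun h0 => by
    have := (h.used c h0).2
    omega
  have hcB : c ∈ D.Bd σ U := by
    by_contra h0
    have h1 := D.same h h0
    have h2 : colm τ c = colm σ c := funext h1
    apply h0
    unfold Bd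
    rw [mem_union, mem_filter]
    exact Or.inr ⟨mem_univ _, by rw [← h2]; exact hc⟩
  have hcw : c ≠ w := fun h0 => hwB (h0 ▸ hcB)
  have hcv : c ≠ v := fun h0 => hvB (h0 ▸ hcB)
  have hBU : ∀ d, d ∉ D.Bd σ U → d ∉ U ∧ D.rk (colm σ d) = n := by
    intro d hd
    unfold Bd at hd
    rw [mem_union, not_or, mem_filter] at hd
    refine ⟨hd.1, ?_⟩
    have := D.rk_le (colm σ d)
    by_contra h0
    exact hd.2 ⟨mem_univ _, by omega⟩
  obtain ⟨τ', hτ', ec, ew, ev, ed⟩ := D.rotate h.mem hm hw hv hcw hcv hvw.symm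
  have tw : ∀ i, τ i w = σ i w := D.same h hwB
  have tv : ∀ i, τ i v = σ i v := D.same h hvB
  have tw' : colm τ w = colm σ w := funext tw
  have tv' : colm τ v = colm σ v := funext tv
  have rw' : D.rk (colm τ' w) = n := by rw [ew, tv m, tw']; exact hw1
  have rv' : D.rk (colm τ' v) = n := by rw [ev, hmc, tv']; exact hv1
  have rc' : D.rk (colm τ' c) = D.rk (colm τ c) + 1 := by
    rw [ec, tw m, D.rk_update_out (fun h0 => hcl (cl_mono D.R (by rw [Zs_insert _ m]; exact subset_insert _ _) h0)), hZe]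
  have rw0 : D.rk (colm τ w) = n := by rw [tw']; exact (hBU w hwB).2
  have rv0 : D.rk (colm τ v) = n := by rw [tv']; exact (hBU v hvB).2
  have htot : D.tot τ' + 1 = D.tot τ := by
    unfold tot
    rw [← add_sum_erase univ _ (mem_univ c), ← add_sum_erase univ (fun c => n - D.rk (colm τ c)) (mem_univ c)]
    have : ∑ x ∈ univ.erase c, (n - D.rk (colm τ' x)) = ∑ x ∈ univ.erase c, (n - D.rk (colm τ x)) := by
      refine sum_congr rfl (fun d hd => ?_)
      by_cases h1 : d = w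
      · rw [h1, rw', rw0]
      by_cases h2 : d = v
      · rw [h2, rv', rv0]
      rw [ed d (ne_of_mem_erase hd) h1 h2]
    rw [this, rc']
    omega
  refine ⟨τ', insert w (insert v U), ⟨hτ', ?_, ?_, ?_⟩, by omega⟩
  · intro d hd
    rw [mem_insert, mem_insert] at hd
    rcases hd with hd | hd | hd
    · rw [hd]; exact ⟨(hBU w hwB).2, rw'⟩
    · rw [hd]; exact ⟨(hBU v hvB).2, rv'⟩
    · have d1 : d ≠ c := fun h0 => hcU (h0 ▸ hd)
      have d2 : d ≠ w := fun h0 => (hBU w hwB).1 (h0 ▸ hd)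
      have d3 : d ≠ v := fun h0 => (hBU v hvB).1 (h0 ▸ hd)
      rw [ed d d1 d2 d3]
      exact h.used d hd
  · intro d hd
    rw [mem_insert, mem_insert, not_or, not_or] at hd
    by_cases d1 : d = c
    · subst d1
      obtain ⟨Y, y1, y2, y3⟩ := h.ch d hcU
      have hins : Zs (colm σ d) ∪ insert (m, σ m w) Y = insert (m, σ m w) (Zs (colm σ d) ∪ Y) := by
        rw [union_insert]
      have hsub : Zs (colm τ' d) ⊆ Zs (colm σ d) ∪ insert (m, σ m w) Y := by
        rw [ec, Zs_update, tw m, hins]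
        refine insert_subset_insert _ (subset_trans ?_ y2)
        rw [Zs_insert _ m]
        exact subset_insert _ _
      refine ⟨insert (m, σ m w) Y, ?_, hsub, ?_⟩
      · have := card_insert_le (m, σ m w) Y
        omega
      · have e1 := D.R.r_mono hsub
        have e2 := D.R.r_insert (m, σ m w) (Zs (colm σ d) ∪ Y)
        rw [← hins, y3] at e2
        have e3 : D.R.r (Zs (colm τ' d)) = D.rk (colm τ' d) := rfl
        omega
    · have h1 := ed d d1 hd.1 hd.2.1
      rw [h1]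
      exact h.ch d hd.2.2
  · have h1 := h.cnt
    have h2 := card_insert_le w (insert v U)
    have h3 := card_insert_le v U
    omega

/-- [n9] induction on `tot τ`, starting with `St σ σ ∅`.  (`RGi.Cd.exists_all`.) -/
theorem exists_all : ∃ τ ∈ D.Ar, ∀ c, D.rk (colm τ c) = n := by
  obtain ⟨σ, hσ⟩ := D.exists_nice
  have key : ∀ (t : ℕ) (τ : Fin n → Equiv.Perm (Fin n)) (U : Finset (Fin n)), D.tot τ = t → D.St σ τ U →
      ∃ τ ∈ D.Ar, ∀ c, D.rk (colm τ c) = n := by
    intro t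
    induction t using Nat.strong_induction_on with
    | _ t ih =>
      intro τ U ht hs
      by_cases hall : ∀ c, D.rk (colm τ c) = n
      · exact ⟨τ, hs.mem, hall⟩
      · push Not at hall
        obtain ⟨c, hc⟩ := hall
        have hc' : D.rk (colm τ c) < n := lt_of_le_of_ne (D.rk_le _) hc
        obtain ⟨τ', U', hs', ht'⟩ := D.step hσ hs hc'
        exact ih (D.tot τ') (by omega) τ' U' rfl hs'
  refine key (D.tot σ) σ ∅ rfl ⟨hσ.mem, ?_, ?_, ?_⟩
  · intro c hc
    exact absurd hc (notMem_empty c)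
  · intro c _
    exact ⟨∅, by simp, by simp, by rw [union_empty]; rfl⟩
  · simp

end Cd

end Pool.Agent.RGs
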