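import Pool.Agent.RGs.Amg
import Pool.Agent.RGs.Perm

/-!
# Rejections (sections B and C (i) - (iv) of the text)

Most statements here are variants of statements of `Pool.Agent.RGi.Exi` (fully proved there), with the rejection `rej` replaced by the
light rejection `rejl` and with other constants.
-/

set_option autoImplicit false

namespace Pool.Agent.RGs

open Finset Pool.Agent.RotaP Pool.Agent.RGi

namespace Cd

variable {n : ℕ} (D : Cd n)

open Classical in
/-- `1` if the column `z` of column `c`, with the entry of row `j` replaced by `x`, has rank `n - 1` and light closure,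
otherwise `0` -/
noncomputable def rejl (c j x : Fin n) (z : Fin n → Fin n) : ℝ :=
  if Function.update z j x ∈ D.A1 c then 1 else 0

/-- the columns which can hold a free element of row `j` (the same set as the free labels of row `j`) -/
def Gam (j : Fin n) : Finset (Fin n) := univ.filter (fun c => (j, c) ∉ D.Q)

/-- number of columns of the arrangement rejecting the element `(j, x)` lightly -/
noncomputable def Xl (j x : Fin n) (σ : Fin n → Equiv.Perm (Fin n)) : ℝ :=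
  ∑ c ∈ D.Gam j, D.rejl c j x (colm σ c)

/-- its expectation -/
noncomputable def mul (j x : Fin n) : ℝ := ∑ c ∈ D.Gam j, Ex (D.Om c) (D.rejl c j x)

/-- [j1] -/
theorem rejl_cases (c j x : Fin n) (z : Fin n → Fin n) : D.rejl c j x z = 0 ∨ D.rejl c j x z = 1 := by

  unfold rejl
  split_ifs
  · exact Or.inr rfl
  · exact Or.inl rfl

/-- [j1] -/
theorem card_Gam (j : Fin n) : (D.Gam j).card = D.N := by

  unfold Gam
  exact D.card_free j

/-- [j1] `ex_col`. -/
theorem ex_Xl (j x : Fin n) : Ex D.Ar (D.Xl j x) = D.mul j x := by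

  unfold mul
  have h : D.Xl j x = fun σ => ∑ c ∈ D.Gam j, D.rejl c j x (colm σ c) := rfl
  have h2 : Ex D.Ar (fun σ => ∑ c ∈ D.Gam j, D.rejl c j x (colm σ c)) =
      ∑ c ∈ D.Gam j, Ex D.Ar (fun σ => D.rejl c j x (colm σ c)) := by
    unfold Ex
    rw [Finset.sum_comm, Finset.sum_div]
  rw [h, h2]
  exact Finset.sum_congr rfl (fun c _ => D.ex_col c _)

/-- [j1] -/
theorem mul_nonneg' (j x : Fin n) : 0 ≤ D.mul j x := by

  unfold mul Ex
  refine Finset.sum_nonneg fun c _ => div_nonneg (Finset.sum_nonneg fun z _ => ?_)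
    (Nat.cast_nonneg _)
  rcases D.rejl_cases c j x z with h | h <;> rw [h] <;> norm_num

private theorem j2_Ex_sum {ω ι : Type*} (s : Finset ω) (t : Finset ι) (f : ι → ω → ℝ) :
    Ex s (fun w => ∑ i ∈ t, f i w) = ∑ i ∈ t, Ex s (f i) := by
  unfold Ex
  rw [Finset.sum_comm, Finset.sum_div]

private theorem j2_Ex_mono {ω : Type*} (s : Finset ω) (f g : ω → ℝ) (h : ∀ w ∈ s, f w ≤ g w) :
    Ex s f ≤ Ex s g := by
  unfold Ex
  exact div_le_div_of_nonneg_right (Finset.sum_le_sum h) (Nat.cast_nonneg _)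

private theorem j2_Ex_nonneg {ω : Type*} (s : Finset ω) (f : ω → ℝ) (h : ∀ w ∈ s, 0 ≤ f w) :
    0 ≤ Ex s f := by
  unfold Ex
  exact div_nonneg (Finset.sum_nonneg h) (Nat.cast_nonneg _)

private theorem j2_Ex_congr {ω : Type*} (s : Finset ω) (f g : ω → ℝ) (h : ∀ w ∈ s, f w = g w) :
    Ex s f = Ex s g := by
  unfold Ex
  rw [Finset.sum_congr rfl h]

private theorem j2_N_ge : (2 : ℝ) ^ 23 ≤ D.N := by
  have h := D.N_big
  have h2 : 2 ^ 23 ≤ D.N := by omega
  exact_mod_cast h2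

private theorem j2_cov (f : Fin n → (Fin n → Fin n) → ℝ)
    (hf : ∀ c z, f c z = 0 ∨ f c z = 1) (c c' : Fin n) (hcc : c ≠ c') :
    Ex D.Ar (fun σ => f c (colm σ c) * f c' (colm σ c')) -
      Ex (D.Om c) (f c) * Ex (D.Om c') (f c') ≤
      1 / (2 * ((D.N : ℝ) - 1)) * (Ex (D.Om c) (f c) + Ex (D.Om c') (f c')) := by
  have hN := j2_N_ge D
  have h := D.cov_cols hcc (f c) (f c')
  have hsq : ∀ c z, f c z ^ 2 = f c z := by
    intro c z
    rcases hf c z with h | h <;> rw [h] <;> norm_num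
  have e1 : Ex D.Ar (fun σ => f c (colm σ c)) = Ex (D.Om c) (f c) := D.ex_col c _
  have e2 : Ex D.Ar (fun σ => f c' (colm σ c')) = Ex (D.Om c') (f c') := D.ex_col c' _
  have e3 : Ex D.Ar (fun σ => f c (colm σ c) ^ 2) = Ex (D.Om c) (f c) := by
    rw [← e1]
    exact j2_Ex_congr _ _ _ (fun σ _ => hsq _ _)
  have e4 : Ex D.Ar (fun σ => f c' (colm σ c') ^ 2) = Ex (D.Om c') (f c') := by
    rw [← e2]
    exact j2_Ex_congr _ _ _ (fun σ _ => hsq _ _)
  rw [e1, e2, e3, e4] at h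
  have h' := (abs_le.mp h).2
  refine h'.trans ?_
  apply mul_le_mul_of_nonneg_left _ (by
    apply div_nonneg (by norm_num)
    nlinarith)
  nlinarith [sq_nonneg (Ex (D.Om c) (f c)), sq_nonneg (Ex (D.Om c') (f c'))]

/-- [j2] The variance of a sum of `0/1`-valued functions of `N` different columns.  Proof (`RGi.Cd.var_Xb`):
`Var = ∑_c Var + ∑_{c ≠ c'} Cov`; `f² = f`, so `Var f_c ≤ e_c := Ex (Om c) (f c)`; `cov_cols`: `|Cov| ≤ (e_c + e_c') / (2 (N-1))`, the sum over
the `c' ≠ c` gives `∑_c e_c` again. -/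
theorem var_gen (T : Finset (Fin n)) (hT : T.card = D.N) (f : Fin n → (Fin n → Fin n) → ℝ)
    (hf : ∀ c z, f c z = 0 ∨ f c z = 1) :
    Ex D.Ar (fun σ => (∑ c ∈ T, f c (colm σ c) - ∑ c ∈ T, Ex (D.Om c) (f c)) ^ 2) ≤
      2 * ∑ c ∈ T, Ex (D.Om c) (f c) := by
  have hN := j2_N_ge D
  have hpos : (0 : ℝ) < D.Ar.card := by exact_mod_cast D.Ar_pos
  have hf01 : ∀ c z, 0 ≤ f c z := fun c z => by
    rcases hf c z with h | h <;> rw [h] <;> norm_num
  set e : Fin n → ℝ := fun c => Ex (D.Om c) (f c) with he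
  set mu : ℝ := ∑ c ∈ T, e c with hmu
  set X : (Fin n → Equiv.Perm (Fin n)) → ℝ := fun σ => ∑ c ∈ T, f c (colm σ c) with hX
  have hexX : Ex D.Ar X = mu := by
    rw [hX, j2_Ex_sum]
    exact Finset.sum_congr rfl (fun c _ => D.ex_col c _)
  change Ex D.Ar (fun σ => (X σ - mu) ^ 2) ≤ 2 * mu
  -- expand
  have e1 : Ex D.Ar (fun σ => (X σ - mu) ^ 2) =
      ∑ c ∈ T, ∑ c' ∈ T,
        (Ex D.Ar (fun σ => f c (colm σ c) * f c' (colm σ c')) - e c * e c') := by
    have s1 : Ex D.Ar (fun σ => (X σ - mu) ^ 2) =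
        Ex D.Ar (fun σ => X σ ^ 2) - mu ^ 2 := by
      have h1 : Ex D.Ar X = mu := hexX
      unfold Ex at h1 ⊢
      have h2 : ∑ w ∈ D.Ar, X w = mu * D.Ar.card := by
        rw [← h1]
        field_simp
      have h3 : ∑ σ ∈ D.Ar, (X σ - mu) ^ 2 =
          ∑ σ ∈ D.Ar, X σ ^ 2 - mu ^ 2 * D.Ar.card := by
        have : ∀ σ ∈ D.Ar, (X σ - mu) ^ 2 =
            X σ ^ 2 - 2 * mu * X σ + mu ^ 2 := by
          intro σ _
          ring
        rw [Finset.sum_congr rfl this, Finset.sum_add_distrib, Finset.sum_sub_distrib,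
          ← Finset.mul_sum, h2, Finset.sum_const, nsmul_eq_mul]
        ring
      rw [h3, sub_div]
      congr 1
      field_simp
    rw [s1]
    have s2 : Ex D.Ar (fun σ => X σ ^ 2) =
        ∑ c ∈ T, ∑ c' ∈ T, Ex D.Ar (fun σ => f c (colm σ c) * f c' (colm σ c')) := by
      have : (fun σ => X σ ^ 2) = fun σ => ∑ c ∈ T, ∑ c' ∈ T,
          f c (colm σ c) * f c' (colm σ c') := by
        funext σ
        rw [hX, pow_two, Finset.sum_mul_sum]
      rw [this, j2_Ex_sum]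
      exact Finset.sum_congr rfl (fun c _ => j2_Ex_sum _ _ _)
    rw [s2, hmu, pow_two, Finset.sum_mul_sum, ← Finset.sum_sub_distrib]
    exact Finset.sum_congr rfl (fun c _ => (Finset.sum_sub_distrib _ _).symm)
  rw [e1]
  -- bound the rows
  have hrow : ∀ c ∈ T, ∑ c' ∈ T,
        (Ex D.Ar (fun σ => f c (colm σ c) * f c' (colm σ c')) - e c * e c') ≤
      e c + 1 / (2 * ((D.N : ℝ) - 1)) * (((D.N : ℝ) - 1) * e c + (mu - e c)) := by
    intro c hc
    rw [← Finset.add_sum_erase _ _ hc]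
    apply add_le_add
    · have hsq : Ex D.Ar (fun σ => f c (colm σ c) * f c (colm σ c)) = e c := by
        rw [he]
        simp only
        rw [← D.ex_col c (f c)]
        apply j2_Ex_congr
        intro σ _
        rcases hf c (colm σ c) with h | h <;> rw [h] <;> norm_num
      rw [hsq]
      nlinarith [mul_self_nonneg (e c)]
    · calc ∑ c' ∈ T.erase c,
          (Ex D.Ar (fun σ => f c (colm σ c) * f c' (colm σ c')) - e c * e c')
          ≤ ∑ c' ∈ T.erase c, 1 / (2 * ((D.N : ℝ) - 1)) * (e c + e c') := by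
            apply Finset.sum_le_sum
            intro c' hc'
            have hne : c ≠ c' := fun h => (Finset.mem_erase.mp hc').1 h.symm
            exact j2_cov D f hf c c' hne
        _ = 1 / (2 * ((D.N : ℝ) - 1)) * (((D.N : ℝ) - 1) * e c + (mu - e c)) := by
            rw [← Finset.mul_sum, Finset.sum_add_distrib, Finset.sum_const, nsmul_eq_mul,
              Finset.card_erase_of_mem hc, hT, Finset.sum_erase_eq_sub hc, hmu]
            congr 2
            have h1 : 1 ≤ D.N := by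
              have : (1 : ℝ) ≤ D.N := by
                refine le_trans ?_ hN
                norm_num
              exact_mod_cast this
            rw [Nat.cast_sub h1]
            norm_num
  refine (Finset.sum_le_sum hrow).trans ?_
  rw [Finset.sum_add_distrib, ← Finset.mul_sum, Finset.sum_add_distrib, Finset.sum_sub_distrib,
    ← Finset.mul_sum, Finset.sum_const, nsmul_eq_mul, hT, ← hmu]
  have hne : ((D.N : ℝ) - 1) ≠ 0 := by
    nlinarith
  apply le_of_eq
  field_simp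
  ring

private theorem j3_Gam_S {j c : Fin n} (hc : c ∈ D.Gam j) : D.S c j = D.Gam j := by
  have h : (j, c) ∉ D.Q := by
    unfold Gam at hc
    exact (Finset.mem_filter.mp hc).2
  rw [D.S_free (D.mem_F.mpr h)]
  rfl

private theorem j3_nonneg (c j x : Fin n) (z : Fin n → Fin n) : 0 ≤ D.rejl c j x z := by
  rcases D.rejl_cases c j x z with h | h <;> rw [h] <;> norm_num

/-- [j3] For a column `c` with `(j, c) ∉ Q` the probabilities of light rejection of the free elements of row `j` have sum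
`N |A1| / |Om|`.  Proof (`RGi.Cd.sum_rej`): `resample1` with `G z = [z ∈ A1 c]`, `S c j = Gam j`. -/
theorem sum_rejl {j c : Fin n} (hc : c ∈ D.Gam j) :
    ∑ x ∈ D.Gam j, Ex (D.Om c) (D.rejl c j x) = D.N * ((D.A1 c).card / (D.Om c).card : ℝ) := by
  classical
  have hS := j3_Gam_S D hc
  have h := D.resample1 c j (fun z => if z ∈ D.A1 c then (1 : ℝ) else 0)
  have h1 : ∑ x ∈ D.Gam j, Ex (D.Om c) (D.rejl c j x) =
      (∑ z ∈ D.Om c, ∑ x ∈ D.S c j, (if Function.update z j x ∈ D.A1 c then (1 : ℝ) else 0)) /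
        (D.Om c).card := by
    rw [← j2_Ex_sum]
    unfold Ex
    rw [hS]
    congr 1
  rw [h1, h, hS, D.card_Gam, mul_div_assoc]
  congr 2
  rw [Finset.sum_boole]
  congr 2
  ext z
  rw [Finset.mem_filter]
  exact ⟨fun h2 => h2.2, fun h2 => ⟨(Finset.mem_filter.1 h2).1, h2⟩⟩

/-- [j3] `card_A1`. -/
theorem sum_rejl_le {j c : Fin n} (hc : c ∈ D.Gam j) :
    ∑ x ∈ D.Gam j, Ex (D.Om c) (D.rejl c j x) ≤ 16 * ((D.k : ℝ) + 1) := by
  rw [D.sum_rejl hc, ← mul_div_assoc]
  have hpos : (0 : ℝ) < (D.Om c).card := by exact_mod_cast D.Om_pos c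
  rw [div_le_iff₀ hpos]
  exact D.card_A1 c

/-- [j3] -/
theorem sum_mul (j : Fin n) : ∑ x ∈ D.Gam j, D.mul j x ≤ 16 * ((D.k : ℝ) + 1) * D.N := by
  unfold mul
  rw [Finset.sum_comm]
  refine (Finset.sum_le_sum (fun c hc => D.sum_rejl_le hc)).trans ?_
  rw [Finset.sum_const, nsmul_eq_mul, D.card_Gam, mul_comm]

open Classical in
/-- the free elements of row `j` with large mean -/
noncomputable def V0 (j : Fin n) : Finset (Fin n) :=
  (D.Gam j).filter (fun x => (D.N : ℝ) ≤ 16 * D.mul j x)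

/-- [j3] `sum_mul`. -/
theorem card_V0 (j : Fin n) : ((D.V0 j).card : ℝ) ≤ 256 * ((D.k : ℝ) + 1) := by
  classical
  have hN := j2_N_ge D
  have h1 : (D.N : ℝ) * (D.V0 j).card ≤ 16 * ∑ x ∈ D.Gam j, D.mul j x := by
    have s1 : (D.N : ℝ) * (D.V0 j).card ≤ ∑ x ∈ D.V0 j, 16 * D.mul j x := by
      have : ∑ x ∈ D.V0 j, (D.N : ℝ) ≤ ∑ x ∈ D.V0 j, 16 * D.mul j x := by
        apply Finset.sum_le_sum
        intro x hx
        unfold V0 at hx
        exact (Finset.mem_filter.mp hx).2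
      rw [Finset.sum_const, nsmul_eq_mul] at this
      linarith
    have s2 : ∑ x ∈ D.V0 j, 16 * D.mul j x ≤ ∑ x ∈ D.Gam j, 16 * D.mul j x := by
      apply Finset.sum_le_sum_of_subset_of_nonneg
      · unfold V0
        exact Finset.filter_subset _ _
      · intro x _ _
        have := D.mul_nonneg' j x
        linarith
    rw [Finset.mul_sum]
    exact s1.trans s2
  have h2 := D.sum_mul j
  have hpos : (0 : ℝ) < D.N := by nlinarith
  have h3 : (D.N : ℝ) * (D.V0 j).card ≤ (D.N : ℝ) * (256 * ((D.k : ℝ) + 1)) := by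
    nlinarith
  exact le_of_mul_le_mul_left h3 hpos

open Classical in
/-- number of deviating elements: mean small, but rejected by an eighth of the columns -/
noncomputable def dev (σ : Fin n → Equiv.Perm (Fin n)) : ℝ :=
  ∑ j, ∑ x ∈ D.Gam j, if (16 * D.mul j x < D.N ∧ (D.N : ℝ) ≤ 8 * D.Xl j x σ) then (1 : ℝ) else 0

/-- [j4] Chebyshev: `P((j, x) deviates) ≤ 2 mul / (N/16)² = 512 mul / N²` (`var_gen`, `ex_Xl`); `sum_mul`: the expectation is at most
`n * 512 * 16 (k+1) N / N² ≤ 2^14 (k+1)` (`n_le`).  (`RGi.Cd.ex_dev`.) -/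
theorem ex_dev : Ex D.Ar D.dev ≤ 2 ^ 14 * ((D.k : ℝ) + 1) := by
  classical
  have hN := j2_N_ge D
  have hpos : (0 : ℝ) < D.N := by nlinarith
  have hk : (0 : ℝ) ≤ D.k := Nat.cast_nonneg _
  have e1 : Ex D.Ar D.dev = ∑ j, ∑ x ∈ D.Gam j,
      Ex D.Ar (fun σ => if (16 * D.mul j x < D.N ∧ (D.N : ℝ) ≤ 8 * D.Xl j x σ) then (1 : ℝ) else 0) := by
    have : D.dev = fun σ => ∑ j, ∑ x ∈ D.Gam j,
      if (16 * D.mul j x < D.N ∧ (D.N : ℝ) ≤ 8 * D.Xl j x σ) then (1 : ℝ) else 0 := rfl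
    rw [this, j2_Ex_sum]
    exact Finset.sum_congr rfl (fun j _ => j2_Ex_sum _ _ _)
  have h1 : ∀ j x, Ex D.Ar (fun σ => if (16 * D.mul j x < D.N ∧ (D.N : ℝ) ≤ 8 * D.Xl j x σ)
      then (1 : ℝ) else 0) ≤ 512 * D.mul j x / (D.N : ℝ) ^ 2 := by
    intro j x
    have s1 : Ex D.Ar (fun σ => if (16 * D.mul j x < D.N ∧ (D.N : ℝ) ≤ 8 * D.Xl j x σ)
      then (1 : ℝ) else 0) ≤
        Ex D.Ar (fun σ => if (D.N : ℝ) ^ 2 / 256 ≤ (D.Xl j x σ - D.mul j x) ^ 2 then (1 : ℝ) else 0) := by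
      apply j2_Ex_mono
      intro σ _
      by_cases hh : (16 * D.mul j x < D.N ∧ (D.N : ℝ) ≤ 8 * D.Xl j x σ)
      · rw [if_pos hh]
        have : (D.N : ℝ) ^ 2 / 256 ≤ (D.Xl j x σ - D.mul j x) ^ 2 := by
          have h3 : (D.N : ℝ) / 16 ≤ D.Xl j x σ - D.mul j x := by linarith [hh.1, hh.2]
          have h4 : (0 : ℝ) ≤ (D.N : ℝ) / 16 := by positivity
          nlinarith
        rw [if_pos this]
      · rw [if_neg hh]
        split_ifs <;> norm_num
    have s2 := markov' D.Ar (fun σ => (D.Xl j x σ - D.mul j x) ^ 2) (fun σ _ => sq_nonneg _)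
      ((D.N : ℝ) ^ 2 / 256) (by positivity)
    have s3 : Ex D.Ar (fun σ => (D.Xl j x σ - D.mul j x) ^ 2) ≤ 2 * D.mul j x :=
      D.var_gen (D.Gam j) (D.card_Gam j) (fun c => D.rejl c j x) (fun c z => D.rejl_cases c j x z)
    refine s1.trans (s2.trans ?_)
    rw [div_le_div_iff₀ (by positivity) (by positivity)]
    have : (0 : ℝ) < (D.N : ℝ) ^ 2 := by positivity
    nlinarith
  have h2 : ∀ j : Fin n, ∑ x ∈ D.Gam j,
      Ex D.Ar (fun σ => if (16 * D.mul j x < D.N ∧ (D.N : ℝ) ≤ 8 * D.Xl j x σ)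
        then (1 : ℝ) else 0) ≤ 2 ^ 13 * ((D.k : ℝ) + 1) / D.N := by
    intro j
    have s1 : ∑ x ∈ D.Gam j,
      Ex D.Ar (fun σ => if (16 * D.mul j x < D.N ∧ (D.N : ℝ) ≤ 8 * D.Xl j x σ)
        then (1 : ℝ) else 0) ≤ ∑ x ∈ D.Gam j, 512 * D.mul j x / (D.N : ℝ) ^ 2 :=
      Finset.sum_le_sum (fun x _ => h1 j x)
    have s2 : ∑ x ∈ D.Gam j, 512 * D.mul j x / (D.N : ℝ) ^ 2 =
        512 / (D.N : ℝ) ^ 2 * ∑ x ∈ D.Gam j, D.mul j x := by
      rw [Finset.mul_sum]
      exact Finset.sum_congr rfl (fun x _ => by ring)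
    have s3 := D.sum_mul j
    refine s1.trans ?_
    rw [s2]
    refine (mul_le_mul_of_nonneg_left s3 (by positivity)).trans (le_of_eq ?_)
    field_simp
    ring
  rw [e1]
  refine (Finset.sum_le_sum (fun j _ => h2 j)).trans ?_
  rw [Finset.sum_const, nsmul_eq_mul, Finset.card_univ, Fintype.card_fin, ← mul_div_assoc,
    div_le_iff₀ hpos]
  have hn : (n : ℝ) ≤ 2 * D.N := by exact_mod_cast D.n_le
  have h3 : (0 : ℝ) ≤ 2 ^ 13 * ((D.k : ℝ) + 1) := by positivity
  nlinarith [mul_le_mul_of_nonneg_right hn h3]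

/-- total corank of the columns -/
noncomputable def cor (σ : Fin n → Equiv.Perm (Fin n)) : ℝ := ∑ c, ((n : ℝ) - D.rk (colm σ c))

/-- [j5] `ex_col`, `sum_corank`, `card_dep`.  (`RGi.Cd.ex_cor`.) -/
theorem ex_cor : 2 ^ 16 * Ex D.Ar D.cor ≤ n := by
  have e1 : Ex D.Ar D.cor = ∑ c, Ex (D.Om c) (fun z => (n : ℝ) - D.rk z) := by
    have : D.cor = fun σ => ∑ c, ((n : ℝ) - D.rk (colm σ c)) := rfl
    rw [this, j2_Ex_sum]
    exact Finset.sum_congr rfl (fun c _ => D.ex_col c (fun z => (n : ℝ) - D.rk z))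
  have h1 : ∀ c ∈ (univ : Finset (Fin n)),
      2 ^ 16 * Ex (D.Om c) (fun z => (n : ℝ) - D.rk z) ≤ 1 := by
    intro c _
    have hpos : (0 : ℝ) < (D.Om c).card := by exact_mod_cast D.Om_pos c
    unfold Ex
    rw [← mul_div_assoc, div_le_one hpos]
    have s1 := D.sum_corank c
    have s2 := D.card_dep c
    linarith
  rw [e1, Finset.mul_sum]
  refine (Finset.sum_le_sum h1).trans ?_
  simp

open Classical in
/-- number of pairs (column `c`, free row `j`) such that column `c` rejects lightly an eighth of the free elements of row `j` -/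
noncomputable def tl (σ : Fin n → Equiv.Perm (Fin n)) : ℝ :=
  ∑ c, ∑ j ∈ D.F c,
    if (D.N : ℝ) ≤ 8 * ∑ x ∈ D.Gam j, D.rejl c j x (colm σ c) then (1 : ℝ) else 0

/-- [j5] `markov'`, `ex_col`, `sum_rejl_le`: every pair has probability `≤ 16 (k+1) / (N/8)`, there are `n N` pairs.
(`RGi.Cd.ex_tt`.) -/
theorem ex_tl : Ex D.Ar D.tl ≤ 2 ^ 7 * ((D.k : ℝ) + 1) * n := by
  classical
  have hN := j2_N_ge D
  have hpos : (0 : ℝ) < D.N := by nlinarith
  have hk : (0 : ℝ) ≤ D.k := Nat.cast_nonneg _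
  have e1 : Ex D.Ar D.tl = ∑ c, ∑ j ∈ D.F c, Ex (D.Om c)
      (fun z => if (D.N : ℝ) ≤ 8 * ∑ x ∈ D.Gam j, D.rejl c j x z then (1 : ℝ) else 0) := by
    have : D.tl = fun σ => ∑ c, ∑ j ∈ D.F c,
      if (D.N : ℝ) ≤ 8 * ∑ x ∈ D.Gam j, D.rejl c j x (colm σ c) then (1 : ℝ) else 0 := rfl
    rw [this, j2_Ex_sum]
    refine Finset.sum_congr rfl (fun c _ => ?_)
    rw [j2_Ex_sum]
    exact Finset.sum_congr rfl (fun j _ => D.ex_col c
      (fun z => if (D.N : ℝ) ≤ 8 * ∑ x ∈ D.Gam j, D.rejl c j x z then (1 : ℝ) else 0))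
  have h1 : ∀ c, ∀ j ∈ D.F c, Ex (D.Om c)
      (fun z => if (D.N : ℝ) ≤ 8 * ∑ x ∈ D.Gam j, D.rejl c j x z then (1 : ℝ) else 0) ≤
        2 ^ 7 * ((D.k : ℝ) + 1) / D.N := by
    intro c j hj
    have hc : c ∈ D.Gam j := by
      unfold Gam
      rw [Finset.mem_filter]
      exact ⟨Finset.mem_univ _, D.mem_F.mp hj⟩
    have s1 := markov' (D.Om c) (fun z => 8 * ∑ x ∈ D.Gam j, D.rejl c j x z)
      (fun z _ => mul_nonneg (by norm_num) (Finset.sum_nonneg (fun x _ => j3_nonneg D c j x z)))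
      (D.N : ℝ) hpos
    have s2 : Ex (D.Om c) (fun z => 8 * ∑ x ∈ D.Gam j, D.rejl c j x z) =
        8 * ∑ x ∈ D.Gam j, Ex (D.Om c) (D.rejl c j x) := by
      rw [← j2_Ex_sum]
      unfold Ex
      rw [← Finset.mul_sum, mul_div_assoc]
    rw [s2] at s1
    refine s1.trans (div_le_div_of_nonneg_right ?_ hpos.le)
    have s3 := D.sum_rejl_le hc
    linarith
  have h2 : ∀ c ∈ (univ : Finset (Fin n)), ∑ j ∈ D.F c, Ex (D.Om c)
      (fun z => if (D.N : ℝ) ≤ 8 * ∑ x ∈ D.Gam j, D.rejl c j x z then (1 : ℝ) else 0) ≤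
        2 ^ 7 * ((D.k : ℝ) + 1) := by
    intro c _
    refine (Finset.sum_le_sum (h1 c)).trans ?_
    rw [Finset.sum_const, nsmul_eq_mul, D.card_F, mul_div_cancel₀ _ hpos.ne']
  rw [e1]
  refine (Finset.sum_le_sum h2).trans ?_
  rw [Finset.sum_const, nsmul_eq_mul, Finset.card_univ, Fintype.card_fin, mul_comm]

open Classical in
/-- number of the entries of column `c` in `V0` -/
noncomputable def yc (c : Fin n) (z : Fin n → Fin n) : ℝ :=
  ∑ j ∈ D.F c, if z j ∈ D.V0 j then (1 : ℝ) else 0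

open Classical in
private theorem j6_yc (c : Fin n) (z : Fin n → Fin n) :
    D.yc c z = (((D.F c).filter (fun j => z j ∈ D.V0 j)).card : ℝ) := by
  unfold yc
  rw [Finset.sum_boole]

open Classical in
private theorem j6_prod (c : Fin n) (z : Fin n → Fin n) :
    ∏ i : Fin n, (if i ∈ D.F c ∧ z i ∈ D.V0 i then (2 : ℝ) else 1) =
      2 ^ ((D.F c).filter (fun j => z j ∈ D.V0 j)).card := by
  rw [Finset.prod_ite, Finset.prod_const, Finset.prod_const_one, mul_one]
  congr 2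
  ext i
  simp

private theorem j6_N_pos : (1 : ℝ) ≤ D.N := by
  have h := j2_N_ge D
  refine le_trans ?_ h
  norm_num

open Classical in
private theorem j6_sum (c : Fin n) :
    ∑ z ∈ D.Om c, (2 : ℝ) ^ ((D.F c).filter (fun j => z j ∈ D.V0 j)).card ≤
      (D.N : ℝ) ^ D.N * Real.exp (256 * ((D.k : ℝ) + 1)) := by
  have hN := D.j6_N_pos
  have hN0 : (0 : ℝ) < D.N := by linarith
  set K : ℝ := (D.k : ℝ) + 1 with hK
  have hK0 : 0 < K := by positivity
  have h1 : ∑ z ∈ D.Om c, (2 : ℝ) ^ ((D.F c).filter (fun j => z j ∈ D.V0 j)).card =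
      ∏ i : Fin n, ∑ x ∈ D.S c i, (if i ∈ D.F c ∧ x ∈ D.V0 i then (2 : ℝ) else 1) := by
    rw [Finset.prod_univ_sum]
    apply Finset.sum_congr rfl
    intro z _
    rw [j6_prod]
  rw [h1]
  have h2 : ∀ i : Fin n, ∑ x ∈ D.S c i, (if i ∈ D.F c ∧ x ∈ D.V0 i then (2 : ℝ) else 1) ≤
      if i ∈ D.F c then (D.N : ℝ) * (1 + 256 * K / D.N) else 1 := by
    intro i
    by_cases hi : i ∈ D.F c
    · simp only [hi, true_and, if_true]
      have e1 : ∑ x ∈ D.S c i, (if x ∈ D.V0 i then (2 : ℝ) else 1) =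
          ∑ x ∈ D.S c i, (1 + if x ∈ D.V0 i then (1 : ℝ) else 0) := by
        apply Finset.sum_congr rfl
        intro x _
        split_ifs <;> norm_num
      rw [e1, Finset.sum_add_distrib, Finset.sum_boole, Finset.sum_const, nsmul_eq_mul, mul_one,
        D.card_S hi]
      have e2 : (((D.S c i).filter (fun x => x ∈ D.V0 i)).card : ℝ) ≤ (D.V0 i).card := by
        exact_mod_cast card_le_card (fun x hx => (mem_filter.1 hx).2)
      have e3 := D.card_V0 i
      have e4 : (D.N : ℝ) * (1 + 256 * K / D.N) = D.N + 256 * K := by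
        field_simp
      rw [e4]
      linarith
    · have hi' : (i, c) ∈ D.Q := by
        by_contra h
        exact hi (D.mem_F.2 h)
      simp only [hi, false_and, if_false]
      unfold S
      rw [if_pos hi', Finset.sum_singleton]
  have h3 : ∏ i : Fin n, ∑ x ∈ D.S c i, (if i ∈ D.F c ∧ x ∈ D.V0 i then (2 : ℝ) else 1) ≤
      ∏ i : Fin n, if i ∈ D.F c then (D.N : ℝ) * (1 + 256 * K / D.N) else 1 := by
    apply Finset.prod_le_prod
    · intro i _
      apply Finset.sum_nonneg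
      intro x _
      split_ifs <;> norm_num
    · intro i _
      exact h2 i
  refine h3.trans ?_
  rw [Finset.prod_ite, Finset.prod_const, Finset.prod_const_one, mul_one,
    show (univ.filter (fun i => i ∈ D.F c)) = D.F c from by ext; simp, D.card_F, mul_pow]
  apply mul_le_mul_of_nonneg_left _ (by positivity)
  calc (1 + 256 * K / D.N) ^ D.N ≤ (Real.exp (256 * K / D.N)) ^ D.N := by
        apply pow_le_pow_left₀ (by positivity)
        linarith [Real.add_one_le_exp (256 * K / D.N)]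
    _ = Real.exp (256 * K) := by
        rw [← Real.exp_nat_mul]
        congr 1
        field_simp

private theorem j6_num : 8 * (n : ℝ) * Real.exp (256 * ((D.k : ℝ) + 1)) ≤
    Real.exp (D.N / (32 * (D.L : ℝ)) * Real.log 2) := by
  have hN := D.j6_N_pos
  set K : ℝ := (D.k : ℝ) + 1 with hK
  have hK0 : 0 < K := by positivity
  set L : ℝ := (D.L : ℝ) with hLd
  have hL := D.L_ge
  rw [← hLd] at hL
  have hL0 : 0 < L := by linarith
  set M : ℝ := D.N / L with hM
  have hM0 : 0 < M := by positivity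
  have e2 : (D.N : ℝ) / (32 * L) = M / 32 := by rw [hM]; field_simp
  rw [e2]
  have hbig : (2 : ℝ) ^ 21 * (L * K) ≤ D.N := D.N_bigLR
  have hsq : (2 : ℝ) ^ 19 * (L * L) ≤ D.N := by
    have h : ((2 ^ 19 * (D.L * D.L) : ℕ) : ℝ) ≤ D.N := by exact_mod_cast D.N_sq
    push_cast at h
    rw [hLd]
    linarith
  have hMK : (2 : ℝ) ^ 21 * K ≤ M := by
    rw [hM, le_div_iff₀ hL0]
    nlinarith
  have hM2 : (2 : ℝ) ^ 19 * (D.N : ℝ) ≤ M ^ 2 := by
    rw [hM, div_pow, le_div_iff₀ (by positivity)]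
    nlinarith [sq_nonneg (D.N : ℝ)]
  have hexp : (M / 64) ^ 2 / 2 ≤ Real.exp (M / 64) := by
    have h := Real.pow_div_factorial_le_exp (M / 64) (by positivity) 2
    have h6 : ((Nat.factorial 2 : ℕ) : ℝ) = 2 := by norm_num [Nat.factorial]
    rwa [h6] at h
  have hn : (n : ℝ) ≤ 2 * D.N := by exact_mod_cast D.n_le
  have h8 : 8 * (n : ℝ) ≤ Real.exp (M / 64) := by
    refine le_trans ?_ hexp
    have h2 : (M / 64) ^ 2 / 2 = M ^ 2 / 2 ^ 13 := by ring
    rw [h2, le_div_iff₀ (by positivity)]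
    nlinarith
  calc 8 * (n : ℝ) * Real.exp (256 * K) ≤ Real.exp (M / 64) * Real.exp (256 * K) := by
        apply mul_le_mul_of_nonneg_right h8 (Real.exp_pos _).le
    _ = Real.exp (M / 64 + 256 * K) := (Real.exp_add _ _).symm
    _ ≤ Real.exp (M / 32 * Real.log 2) := by
        apply Real.exp_le_exp.2
        have := Real.log_two_gt_d9
        nlinarith

/-- [j6] Proof (`RGi.Cd.ex_yc`): with `K = k + 1`: `∑_z 2^(yc z) = ∏_{j ∈ F c} (N + |V0 j|) ≤ N^N (1 + 256 K/N)^N ≤ N^N exp (256 K)`; so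
`P(yc ≥ M/32) ≤ exp (256 K) 2^(-M/32)`, `M = N/L ≥ 2^21 K`; `256 K ≤ M/2^13`, `2^(-M/32) ≤ exp (- M/50)`, and `8 n ≤ 16 N ≤ exp (M/64)` since
`M² = N²/L² ≥ 2^19 N` and `exp y ≥ y²/2`. -/
theorem ex_yc (c : Fin n) :
    8 * (n : ℝ) * (((D.Om c).filter (fun z => (D.N : ℝ) ≤ 32 * D.L * D.yc c z)).card : ℝ) ≤
      (D.Om c).card := by
  have hN := D.j6_N_pos
  set K : ℝ := (D.k : ℝ) + 1 with hK
  have hK0 : 0 < K := by positivity
  set Bd := (D.Om c).filter (fun z => (D.N : ℝ) ≤ 32 * (D.L : ℝ) * D.yc c z) with hBd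
  set W := Real.exp (D.N / (32 * (D.L : ℝ)) * Real.log 2) with hW
  have hW0 : 0 < W := Real.exp_pos _
  have h1 : (Bd.card : ℝ) * W ≤ (D.N : ℝ) ^ D.N * Real.exp (256 * K) := by
    refine le_trans ?_ (D.j6_sum c)
    calc (Bd.card : ℝ) * W = ∑ z ∈ Bd, W := by rw [Finset.sum_const, nsmul_eq_mul]
      _ ≤ ∑ z ∈ Bd, (2 : ℝ) ^ ((D.F c).filter (fun j => z j ∈ D.V0 j)).card := by
          apply Finset.sum_le_sum
          intro z hz
          have h2 := (mem_filter.1 hz).2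
          rw [j6_yc] at h2
          have h3 : (D.N : ℝ) / (32 * (D.L : ℝ)) ≤ (((D.F c).filter (fun j => z j ∈ D.V0 j)).card : ℝ) := by
            have hL := D.L_ge
            rw [div_le_iff₀ (by positivity)]
            linarith
          rw [hW, ← Real.rpow_natCast, Real.rpow_def_of_pos (by norm_num)]
          apply Real.exp_le_exp.2
          rw [mul_comm (Real.log 2)]
          exact mul_le_mul_of_nonneg_right h3 (Real.log_nonneg (by norm_num))
      _ ≤ ∑ z ∈ D.Om c, (2 : ℝ) ^ ((D.F c).filter (fun j => z j ∈ D.V0 j)).card := by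
          apply Finset.sum_le_sum_of_subset_of_nonneg (filter_subset _ _)
          intro z _ _
          positivity
  have h2 := D.j6_num
  have h3 : ((D.Om c).card : ℝ) = (D.N : ℝ) ^ D.N := by rw [D.card_Om]; push_cast; rfl
  rw [h3]
  have h4 : 8 * (n : ℝ) * Bd.card * W ≤ (D.N : ℝ) ^ D.N * W := by
    calc 8 * (n : ℝ) * Bd.card * W = 8 * n * ((Bd.card : ℝ) * W) := by ring
      _ ≤ 8 * n * ((D.N : ℝ) ^ D.N * Real.exp (256 * K)) := by
          apply mul_le_mul_of_nonneg_left h1 (by positivity)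
      _ = (D.N : ℝ) ^ D.N * (8 * n * Real.exp (256 * K)) := by ring
      _ ≤ (D.N : ℝ) ^ D.N * W := by
          apply mul_le_mul_of_nonneg_left h2 (by positivity)
  exact le_of_mul_le_mul_right h4 hW0

/-- [j7] number of the entries of column `c` of `σ` rejected lightly by an eighth of the columns: at most `dev` plus `yc`.
(`RGi.Cd.high_le`.) -/
theorem high_le (σ : Fin n → Equiv.Perm (Fin n)) (hσ : σ ∈ D.Ar) (c : Fin n) :
    (((D.F c).filter (fun j => (D.N : ℝ) ≤ 8 * D.Xl j (σ j c) σ)).card : ℝ) ≤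
      D.dev σ + D.yc c (colm σ c) := by
  classical
  have hnn : ∀ j x, (0 : ℝ) ≤ if (16 * D.mul j x < D.N ∧ (D.N : ℝ) ≤ 8 * D.Xl j x σ) then (1 : ℝ) else 0 := by
    intro j x
    split_ifs <;> norm_num
  have h1 : (((D.F c).filter (fun j => (D.N : ℝ) ≤ 8 * D.Xl j (σ j c) σ)).card : ℝ) =
      ∑ j ∈ D.F c, if (D.N : ℝ) ≤ 8 * D.Xl j (σ j c) σ then (1 : ℝ) else 0 := by
    rw [Finset.sum_boole]
  have hGam : ∀ j ∈ D.F c, σ j c ∈ D.Gam j := by
    intro j hj
    unfold Gam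
    rw [mem_filter]
    exact ⟨mem_univ _, fun h => (D.mem_F.1 hj) ((D.Ar_free hσ).1 h)⟩
  have h2 : ∀ j ∈ D.F c, (if (D.N : ℝ) ≤ 8 * D.Xl j (σ j c) σ then (1 : ℝ) else 0) ≤
      (∑ x ∈ D.Gam j, if (16 * D.mul j x < D.N ∧ (D.N : ℝ) ≤ 8 * D.Xl j x σ) then (1 : ℝ) else 0) +
        if (colm σ c) j ∈ D.V0 j then (1 : ℝ) else 0 := by
    intro j hj
    have h3 : (if (16 * D.mul j (σ j c) < D.N ∧ (D.N : ℝ) ≤ 8 * D.Xl j (σ j c) σ) then (1 : ℝ) else 0) ≤
        ∑ x ∈ D.Gam j, if (16 * D.mul j x < D.N ∧ (D.N : ℝ) ≤ 8 * D.Xl j x σ) then (1 : ℝ) else 0 :=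
      Finset.single_le_sum (f := fun x => if (16 * D.mul j x < D.N ∧ (D.N : ℝ) ≤ 8 * D.Xl j x σ)
        then (1 : ℝ) else 0) (fun x _ => hnn j x) (hGam j hj)
    refine le_trans ?_ (add_le_add_left h3 _)
    by_cases hN : (D.N : ℝ) ≤ 8 * D.Xl j (σ j c) σ
    · by_cases hm : 16 * D.mul j (σ j c) < D.N
      · rw [if_pos hN, if_pos ⟨hm, hN⟩]
        split_ifs <;> norm_num
      · have hv : colm σ c j ∈ D.V0 j := by
          unfold V0
          rw [mem_filter]
          exact ⟨hGam j hj, not_lt.1 hm⟩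
        rw [if_pos hN, if_pos hv]
        linarith [hnn j (σ j c)]
    · rw [if_neg hN]
      have := hnn j (σ j c)
      split_ifs at this ⊢ <;> norm_num
  rw [h1]
  refine (Finset.sum_le_sum h2).trans ?_
  rw [Finset.sum_add_distrib]
  unfold dev yc
  refine add_le_add ?_ (le_of_eq (Finset.sum_congr rfl fun j _ => by congr))
  refine (Finset.sum_le_sum_of_subset_of_nonneg (subset_univ _) fun j _ _ =>
    Finset.sum_nonneg (fun x _ => hnn j x)).trans (le_of_eq ?_)
  refine Finset.sum_congr rfl fun j _ => Finset.sum_congr rfl fun x _ => ?_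
  congr

/-- the heavy rows of a column: the closure of `Z - z_m` contains more than half of the free elements -/
def hv (c : Fin n) (z : Fin n → Fin n) : Finset (Fin n) :=
  (D.F c).filter (fun m => D.N * D.N < 2 * D.Bc c (Ze z m))

/-- [j7] A basis has at most `2 (k+1)` heavy rows (`basis_sum`). -/
theorem card_hv {c : Fin n} {z : Fin n → Fin n} (hr : D.rk z = n) : (D.hv c z).card ≤ 2 * (D.k + 1) := by
  have h1 := D.basis_sum (c := c) hr
  have hN : 0 < D.N := by
    have h := j2_N_ge D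
    have : (0 : ℝ) < D.N := by
      refine lt_of_lt_of_le ?_ h
      norm_num
    exact_mod_cast this
  have h2 : (D.hv c z).card * (D.N * D.N) ≤ 2 * ∑ m ∈ D.F c, D.Bc c (Ze z m) := by
    calc (D.hv c z).card * (D.N * D.N) = ∑ _m ∈ D.hv c z, D.N * D.N := by
          rw [Finset.sum_const, smul_eq_mul]
      _ ≤ ∑ m ∈ D.hv c z, 2 * D.Bc c (Ze z m) :=
          Finset.sum_le_sum fun m hm => (Finset.mem_filter.1 hm).2.le
      _ ≤ ∑ m ∈ D.F c, 2 * D.Bc c (Ze z m) :=
          Finset.sum_le_sum_of_subset (Finset.filter_subset _ _)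
      _ = 2 * ∑ m ∈ D.F c, D.Bc c (Ze z m) := (Finset.mul_sum _ _ _).symm
  have h3 : (D.hv c z).card * (D.N * D.N) ≤ (2 * (D.k + 1)) * (D.N * D.N) := by
    calc (D.hv c z).card * (D.N * D.N) ≤ 2 * ∑ m ∈ D.F c, D.Bc c (Ze z m) := h2
      _ ≤ 2 * ((D.k + 1) * (D.N * D.N)) := Nat.mul_le_mul_left _ h1
      _ = _ := by ring
  exact Nat.le_of_mul_le_mul_right h3 (Nat.mul_pos hN hN)

/-- [j7] A basis rejects in a row which is not heavy only lightly.  Proof: `(j, x) ∈ cl (Ze z j)` (`rk_update_out` and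
`r (Ze z j) + 1 = n`, `rk_cases`), `rk_update_in`, `Bc_congr`, `update_mem` (`S_free`). -/
theorem rejl_one {c j x : Fin n} {z : Fin n → Fin n} (hz : z ∈ D.Om c) (hr : D.rk z = n)
    (hj : j ∈ D.F c) (hx : (j, x) ∉ D.Q) (hh : j ∉ D.hv c z) (hd : D.rk (Function.update z j x) < n) :
    D.rejl c j x z = 1 := by
  classical
  have hS : x ∈ D.S c j := by
    rw [D.S_free hj, Finset.mem_filter]
    exact ⟨Finset.mem_univ _, hx⟩
  have hmem : Function.update z j x ∈ D.A1 c := by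
    unfold A1
    rw [Finset.mem_filter]
    refine ⟨D.update_mem hz hS, ?_⟩
    have hin : (j, x) ∈ cl D.R (Ze z j) := by
      by_contra h
      have h1 := D.rk_update_out h
      rcases D.rk_cases z j with h2 | h2
      · have h3 := h2.1
        omega
      · omega
    obtain ⟨h1, h2⟩ := D.rk_update_in hin
    have h3 : D.R.r (Ze z j) + 1 = n := by
      rcases D.rk_cases z j with h4 | h4
      · have h5 := h4.1
        omega
      · omega
    refine ⟨by omega, ?_⟩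
    rw [D.Bc_congr h2 c]
    have h4 : ¬ (D.N * D.N < 2 * D.Bc c (Ze z j)) := fun h5 =>
      hh (Finset.mem_filter.2 ⟨hj, h5⟩)
    omega
  unfold rejl
  rw [if_pos hmem]

end Cd

end Pool.Agent.RGs
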