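import Pool.Agent.RGs.Rj

/-!
# Spread of the arrangement (section C (v) of the text)
-/

set_option autoImplicit false

namespace Pool.Agent.RGs

open Finset Pool.Agent.RotaP Pool.Agent.RGi

private theorem s1_map {n : ℕ} {q S V : Finset (Fin n)} {w y : Fin n} (hw : w ∉ S) (hwq : w ∉ q)
    (hV : Disjoint V q) (hy : y ∈ V) :
    ((fixP q).filter (fun σ => σ w = y ∧ ∀ u ∈ S, σ u ∈ V)).card ≤
      ((fixP (insert w q)).filter (fun σ => ∀ u ∈ S, σ u ∈ (V.erase y).image (Equiv.swap w y))).card := by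
  have hyq : y ∉ q := fun h => (Finset.disjoint_left.1 hV hy) h
  refine Finset.card_le_card_of_injOn (fun σ => Equiv.swap w y * σ) ?_ (fun σ _ σ' _ h => mul_left_cancel h)
  intro σ hσ
  rw [Finset.mem_coe, Finset.mem_filter] at hσ ⊢
  obtain ⟨h1, h2, h3⟩ := hσ
  have h1' : ∀ c ∈ q, σ c = c := by simpa [fixP] using h1
  refine ⟨?_, ?_⟩
  · have : ∀ c ∈ insert w q, (Equiv.swap w y * σ) c = c := by
      intro c hc
      rcases Finset.mem_insert.1 hc with rfl | hc
      · rw [Equiv.Perm.mul_apply, h2, Equiv.swap_apply_right]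
      · rw [Equiv.Perm.mul_apply, h1' c hc]
        exact Equiv.swap_apply_of_ne_of_ne (fun h => hwq (h ▸ hc)) (fun h => hyq (h ▸ hc))
    unfold fixP
    exact Finset.mem_filter.2 ⟨Finset.mem_univ _, this⟩
  · intro u hu
    rw [Equiv.Perm.mul_apply]
    refine Finset.mem_image_of_mem _ (Finset.mem_erase.2 ⟨fun h => ?_, h3 u hu⟩)
    have : u = w := σ.injective (h.trans h2.symm)
    exact hw (this ▸ hu)

/-- [s1] A uniform permutation fixing `q` maps the set `S` into `V` with probability at most `(|V| / (n - |q|))^|S|`.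
Proof: induction on `S` (for all `q`, `V`).  For `w ∈ S`: `∑_{y ∈ V} |{σ ∈ fixP q : σ w = y, σ (S - w) ⊆ V}|`, and for `y ∈ V` the map
`σ ↦ swap w y * σ` is injective into the `σ' ∈ fixP (insert w q)` which map `S - w` into `V' = (V.erase y).image (swap w y)` (disjoint from
`insert w q`, `|V| - 1` elements).  By induction with `M = n - |q|`: `|fixP (insert w q)| ((|V|-1)/(M-1))^(|S|-1)`, and
`M |fixP (insert w q)| = |fixP q|` (`card_one` for `x = c = w`), `(|V|-1)/(M-1) ≤ |V|/M` since `|V| ≤ M`. -/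
theorem hyp {n : ℕ} (q S V : Finset (Fin n)) (hS : Disjoint S q) (hV : Disjoint V q) :
    (((fixP q).filter (fun σ => ∀ w ∈ S, σ w ∈ V)).card : ℝ) * ((n : ℝ) - q.card) ^ S.card ≤
      (fixP q).card * (V.card : ℝ) ^ S.card := by
  induction S using Finset.induction_on generalizing q V with
  | empty => simp
  | insert w S hw ih =>
    have hwq : w ∉ q := Finset.disjoint_left.1 hS (Finset.mem_insert_self w S)
    have hSq : Disjoint S q := Finset.disjoint_of_subset_left (Finset.subset_insert w S) hS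
    have hSw : Disjoint S (insert w q) := by
      rw [Finset.disjoint_insert_right]
      exact ⟨hw, hSq⟩
    have hcq : (insert w q).card = q.card + 1 := Finset.card_insert_of_notMem hwq
    have hMn : q.card + (insert w S).card ≤ n := by
      have := Finset.card_le_univ (q ∪ insert w S)
      rw [Finset.card_union_of_disjoint hS.symm, Fintype.card_fin] at this
      exact this
    have hVn : q.card + V.card ≤ n := by
      have := Finset.card_le_univ (q ∪ V)
      rw [Finset.card_union_of_disjoint hV.symm, Fintype.card_fin] at this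
      exact this
    rw [Finset.card_insert_of_notMem hw] at hMn ⊢
    -- the fibers
    have hfib : (((fixP q).filter (fun σ => ∀ u ∈ insert w S, σ u ∈ V)).card : ℝ) =
        ∑ y ∈ V, (((fixP q).filter (fun σ => σ w = y ∧ ∀ u ∈ S, σ u ∈ V)).card : ℝ) := by
      rw [Finset.card_eq_sum_card_fiberwise (f := fun σ : Equiv.Perm (Fin n) => σ w) (t := V)]
      · push_cast
        refine Finset.sum_congr rfl fun y hy => ?_
        congr 2
        ext σ
        simp only [Finset.mem_filter, Finset.mem_insert]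
        constructor
        · rintro ⟨⟨h1, h2⟩, h3⟩
          exact ⟨h1, h3, fun u hu => h2 u (Or.inr hu)⟩
        · rintro ⟨h1, h2, h3⟩
          refine ⟨⟨h1, ?_⟩, h2⟩
          rintro u (rfl | hu)
          · rw [h2]; exact hy
          · exact h3 u hu
      · intro σ hσ
        exact (Finset.mem_filter.1 (Finset.mem_coe.1 hσ)).2 w (Finset.mem_insert_self w S)
    -- one fiber
    have hone : ∀ y ∈ V, (((fixP q).filter (fun σ => σ w = y ∧ ∀ u ∈ S, σ u ∈ V)).card : ℝ) *
        ((n : ℝ) - q.card - 1) ^ S.card ≤ (fixP (insert w q)).card * ((V.card : ℝ) - 1) ^ S.card := by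
      intro y hy
      have hyq : y ∉ q := fun h => (Finset.disjoint_left.1 hV hy) h
      have hV' : Disjoint ((V.erase y).image (Equiv.swap w y)) (insert w q) := by
        rw [Finset.disjoint_left]
        intro u hu
        obtain ⟨v, hv, rfl⟩ := Finset.mem_image.1 hu
        rw [Finset.mem_erase] at hv
        by_cases hvw : v = w
        · subst hvw
          rw [Equiv.swap_apply_left, Finset.mem_insert, not_or]
          exact ⟨fun h => hv.1 h.symm, hyq⟩
        · rw [Equiv.swap_apply_of_ne_of_ne hvw hv.1, Finset.mem_insert, not_or]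
          exact ⟨hvw, fun h => (Finset.disjoint_left.1 hV hv.2) h⟩
      have h1 := ih (insert w q) ((V.erase y).image (Equiv.swap w y)) hSw hV'
      have h2 : (((V.erase y).image (Equiv.swap w y)).card : ℝ) = (V.card : ℝ) - 1 := by
        rw [Finset.card_image_of_injective _ (Equiv.injective _), Finset.card_erase_of_mem hy,
          Nat.cast_sub (Finset.card_pos.2 ⟨y, hy⟩)]
        simp
      rw [h2, hcq] at h1
      push_cast at h1
      have h3 : ((((fixP q).filter (fun σ => σ w = y ∧ ∀ u ∈ S, σ u ∈ V)).card : ℕ) : ℝ) ≤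
          (((fixP (insert w q)).filter (fun σ => ∀ u ∈ S, σ u ∈ (V.erase y).image (Equiv.swap w y))).card : ℕ) :=
        Nat.cast_le.2 (s1_map hw hwq hV hy)
      have h4 : (0 : ℝ) ≤ ((n : ℝ) - q.card - 1) ^ S.card := by
        apply pow_nonneg
        have : ((q.card + (S.card + 1) : ℕ) : ℝ) ≤ n := Nat.cast_le.2 hMn
        push_cast at this
        have h5 : (0 : ℝ) ≤ S.card := Nat.cast_nonneg _
        linarith
      have h6 : (n : ℝ) - (q.card + 1) = (n : ℝ) - q.card - 1 := by ring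
      rw [h6] at h1
      exact (mul_le_mul_of_nonneg_right h3 h4).trans h1
    have hf : ((n : ℝ) - q.card) * (fixP (insert w q)).card = (fixP q).card := by
      have h1 := card_one q hwq hwq
      have h2 : (fixP q).filter (fun σ => σ w = w) = fixP (insert w q) := by
        ext σ
        simp only [fixP, Finset.mem_filter, Finset.mem_univ, true_and, Finset.mem_insert, forall_eq_or_imp]
        exact and_comm
      rw [h2] at h1
      rw [← h1, Nat.cast_mul, Nat.cast_sub (by omega)]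
    have hM1 : (1 : ℝ) ≤ (n : ℝ) - q.card := by
      have : ((q.card + (S.card + 1) : ℕ) : ℝ) ≤ n := Nat.cast_le.2 hMn
      push_cast at this
      have h5 : (0 : ℝ) ≤ S.card := Nat.cast_nonneg _
      linarith
    have hVM : (V.card : ℝ) ≤ (n : ℝ) - q.card := by
      have : ((q.card + V.card : ℕ) : ℝ) ≤ n := Nat.cast_le.2 hVn
      push_cast at this
      linarith
    have hpos : (0 : ℝ) < ((n : ℝ) - q.card - 1) ^ S.card := by
      rcases Nat.eq_zero_or_pos S.card with h | h
      · rw [h, pow_zero]; exact one_pos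
      · apply pow_pos
        have : ((q.card + (S.card + 1) : ℕ) : ℝ) ≤ n := Nat.cast_le.2 hMn
        push_cast at this
        have h5 : (1 : ℝ) ≤ S.card := by exact_mod_cast h
        linarith
    set M : ℝ := (n : ℝ) - q.card with hM
    set f : ℝ := ((fixP (insert w q)).card : ℝ) with hfdef
    have hf0 : 0 ≤ f := Nat.cast_nonneg _
    rcases Nat.eq_zero_or_pos V.card with hV0 | hV0
    · rw [Finset.card_eq_zero] at hV0
      rw [hfib, hV0]
      simp
    have hV1 : (1 : ℝ) ≤ V.card := by exact_mod_cast hV0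
    have hsum : (((fixP q).filter (fun σ => ∀ u ∈ insert w S, σ u ∈ V)).card : ℝ) * (M - 1) ^ S.card ≤
        V.card * (f * ((V.card : ℝ) - 1) ^ S.card) := by
      rw [hfib, Finset.sum_mul]
      refine (Finset.sum_le_sum hone).trans ?_
      rw [Finset.sum_const, nsmul_eq_mul]
    have hstep : (((V.card : ℝ) - 1) * M) ^ S.card ≤ ((V.card : ℝ) * (M - 1)) ^ S.card := by
      apply pow_le_pow_left₀
      · apply mul_nonneg <;> linarith
      · nlinarith
    have hfin : (((fixP q).filter (fun σ => ∀ u ∈ insert w S, σ u ∈ V)).card : ℝ) * M ^ (S.card + 1) *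
        (M - 1) ^ S.card ≤ (fixP q).card * (V.card : ℝ) ^ (S.card + 1) * (M - 1) ^ S.card := by
      calc (((fixP q).filter (fun σ => ∀ u ∈ insert w S, σ u ∈ V)).card : ℝ) * M ^ (S.card + 1) *
          (M - 1) ^ S.card = ((((fixP q).filter (fun σ => ∀ u ∈ insert w S, σ u ∈ V)).card : ℝ) *
          (M - 1) ^ S.card) * M ^ (S.card + 1) := by ring
        _ ≤ (V.card * (f * ((V.card : ℝ) - 1) ^ S.card)) * M ^ (S.card + 1) :=
            mul_le_mul_of_nonneg_right hsum (by positivity)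
        _ = (M * f) * V.card * (((V.card : ℝ) - 1) * M) ^ S.card := by rw [mul_pow]; ring
        _ ≤ (M * f) * V.card * ((V.card : ℝ) * (M - 1)) ^ S.card :=
            mul_le_mul_of_nonneg_left hstep (by positivity)
        _ = (fixP q).card * (V.card : ℝ) ^ (S.card + 1) * (M - 1) ^ S.card := by rw [hf, mul_pow]; ring
    exact le_of_mul_le_mul_right hfin hpos

/-- [s2] The moment `E 2^|{w ∈ U : σ w ∈ V}|`.  Proof: `w ∈ U ∩ q` does not count (`σ w = w ∉ V`), so `U` is disjoint from `q` without loss of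
generality; `2^|{w ∈ U : σ w ∈ V}|` is the number of the `S ⊆ U` with `σ (S) ⊆ V` (`card_powerset`), `hyp`, and
`∑_{S ⊆ U} a^|S| = (1 + a)^|U|` (`Finset.sum_pow_mul_eq_add_pow`). -/
theorem mom {n : ℕ} (q U V : Finset (Fin n)) (hV : Disjoint V q) (hq : q.card + 1 ≤ n) :
    ∑ σ ∈ fixP q, (2 : ℝ) ^ ((U.filter (fun w => σ w ∈ V)).card) ≤
      (fixP q).card * (1 + (V.card : ℝ) / ((n : ℝ) - q.card)) ^ U.card := by
  have hM : (0 : ℝ) < (n : ℝ) - q.card := by
    have : ((q.card + 1 : ℕ) : ℝ) ≤ n := Nat.cast_le.2 hq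
    push_cast at this
    linarith
  have h1 : ∀ σ ∈ fixP q, (2 : ℝ) ^ ((U.filter (fun w => σ w ∈ V)).card) =
      ∑ S ∈ (U \ q).powerset, if (∀ w ∈ S, σ w ∈ V) then (1 : ℝ) else 0 := by
    intro σ hσ
    have h1' : ∀ c ∈ q, σ c = c := by simpa [fixP] using hσ
    have e1 : U.filter (fun w => σ w ∈ V) = (U \ q).filter (fun w => σ w ∈ V) := by
      ext w
      simp only [Finset.mem_filter, Finset.mem_sdiff]
      constructor
      · rintro ⟨a1, a2⟩
        refine ⟨⟨a1, fun h => ?_⟩, a2⟩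
        rw [h1' w h] at a2
        exact (Finset.disjoint_left.1 hV a2) h
      · rintro ⟨⟨a1, _⟩, a2⟩
        exact ⟨a1, a2⟩
    have e2 : ((U \ q).filter (fun w => σ w ∈ V)).powerset =
        (U \ q).powerset.filter (fun S => ∀ w ∈ S, σ w ∈ V) := by
      ext S
      simp only [Finset.mem_powerset, Finset.mem_filter]
      constructor
      · intro h
        exact ⟨fun w hw => (Finset.mem_filter.1 (h hw)).1, fun w hw => (Finset.mem_filter.1 (h hw)).2⟩
      · rintro ⟨a1, a2⟩ w hw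
        exact Finset.mem_filter.2 ⟨a1 hw, a2 w hw⟩
    rw [e1, Finset.sum_boole, ← e2, Finset.card_powerset]
    push_cast
    rfl
  rw [Finset.sum_congr rfl h1, Finset.sum_comm]
  have h2 : ∀ S ∈ (U \ q).powerset, ∑ σ ∈ fixP q, (if (∀ w ∈ S, σ w ∈ V) then (1 : ℝ) else 0) ≤
      (fixP q).card * ((V.card : ℝ) / ((n : ℝ) - q.card)) ^ S.card := by
    intro S hS
    rw [Finset.mem_powerset] at hS
    have hSq : Disjoint S q := Finset.disjoint_of_subset_left hS Finset.sdiff_disjoint
    rw [Finset.sum_boole, div_pow, ← mul_div_assoc, le_div_iff₀ (pow_pos hM _)]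
    exact hyp q S V hSq hV
  refine (Finset.sum_le_sum h2).trans ?_
  rw [← Finset.mul_sum]
  apply mul_le_mul_of_nonneg_left _ (Nat.cast_nonneg _)
  have h3 := Finset.sum_pow_mul_eq_add_pow ((V.card : ℝ) / ((n : ℝ) - q.card)) 1 (U \ q)
  simp only [one_pow, mul_one] at h3
  rw [h3, add_comm]
  apply pow_le_pow_right₀
  · have : 0 ≤ (V.card : ℝ) / ((n : ℝ) - q.card) := by positivity
    linarith
  · exact Finset.card_le_card Finset.sdiff_subset

/-- [s3] The same for the permutations with `σ c = x`.  Proof: `σ ↦ swap x c * σ` is injective into `fixP (insert c q)`, and `σ w ∈ V` iff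
`(swap x c * σ) w ∈ V' = V.image (swap x c)` (disjoint from `insert c q` since `x ∉ V`); `mom` for `insert c q`, `V'`;
`(n - |q|) |fixP (insert c q)| = |fixP q|` (`card_one`). -/
theorem mom1 {n : ℕ} (q U V : Finset (Fin n)) (hV : Disjoint V q) (hq : q.card + 2 ≤ n) {c x : Fin n}
    (hc : c ∉ q) (hx : x ∉ q) (hxV : x ∉ V) :
    ∑ σ ∈ (fixP q).filter (fun σ => σ c = x), (2 : ℝ) ^ ((U.filter (fun w => σ w ∈ V)).card) ≤
      (fixP q).card / ((n : ℝ) - q.card) * (1 + (V.card : ℝ) / ((n : ℝ) - q.card - 1)) ^ U.card := by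
  have hcq : (insert c q).card = q.card + 1 := Finset.card_insert_of_notMem hc
  have hqn : ((q.card + 2 : ℕ) : ℝ) ≤ n := Nat.cast_le.2 hq
  push_cast at hqn
  have hV' : Disjoint (V.image (Equiv.swap x c)) (insert c q) := by
    rw [Finset.disjoint_left]
    intro u hu
    obtain ⟨v, hv, rfl⟩ := Finset.mem_image.1 hu
    have hvx : v ≠ x := fun h => hxV (h ▸ hv)
    by_cases hvc : v = c
    · subst hvc
      rw [Equiv.swap_apply_right, Finset.mem_insert, not_or]
      exact ⟨fun h => hvx h.symm, hx⟩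
    · rw [Equiv.swap_apply_of_ne_of_ne hvx hvc, Finset.mem_insert, not_or]
      exact ⟨hvc, fun h => (Finset.disjoint_left.1 hV hv) h⟩
  have h1 := mom (insert c q) U (V.image (Equiv.swap x c)) hV' (by rw [hcq]; omega)
  rw [Finset.card_image_of_injective _ (Equiv.injective _), hcq] at h1
  push_cast at h1
  have hf : ((n : ℝ) - q.card) * (fixP (insert c q)).card = (fixP q).card := by
    have h1 := card_one q hc hc
    have h2 : (fixP q).filter (fun σ => σ c = c) = fixP (insert c q) := by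
      ext σ
      simp only [fixP, Finset.mem_filter, Finset.mem_univ, true_and, Finset.mem_insert, forall_eq_or_imp]
      exact and_comm
    rw [h2] at h1
    rw [← h1, Nat.cast_mul, Nat.cast_sub (by omega)]
  have hf2 : ((fixP q).card : ℝ) / ((n : ℝ) - q.card) = (fixP (insert c q)).card := by
    rw [← hf, mul_div_cancel_left₀]
    have : (0 : ℝ) < (n : ℝ) - q.card := by linarith
    exact this.ne'
  have h6 : (n : ℝ) - (q.card + 1) = (n : ℝ) - q.card - 1 := by ring
  rw [h6] at h1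
  rw [hf2]
  refine le_trans ?_ h1
  have hinj : Set.InjOn (fun σ : Equiv.Perm (Fin n) => Equiv.swap x c * σ)
      (((fixP q).filter (fun σ => σ c = x) : Finset (Equiv.Perm (Fin n))) : Set (Equiv.Perm (Fin n))) :=
    fun σ _ σ' _ h => mul_left_cancel h
  have hsub : ((fixP q).filter (fun σ => σ c = x)).image (fun σ => Equiv.swap x c * σ) ⊆ fixP (insert c q) := by
    intro τ hτ
    obtain ⟨σ, hσ, rfl⟩ := Finset.mem_image.1 hτ
    rw [Finset.mem_filter] at hσ
    have h1' : ∀ c ∈ q, σ c = c := by simpa [fixP] using hσ.1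
    unfold fixP
    refine Finset.mem_filter.2 ⟨Finset.mem_univ _, fun u hu => ?_⟩
    rcases Finset.mem_insert.1 hu with rfl | hu
    · rw [Equiv.Perm.mul_apply, hσ.2, Equiv.swap_apply_left]
    · rw [Equiv.Perm.mul_apply, h1' u hu]
      exact Equiv.swap_apply_of_ne_of_ne (fun h => hx (h ▸ hu)) (fun h => hc (h ▸ hu))
  calc ∑ σ ∈ (fixP q).filter (fun σ => σ c = x), (2 : ℝ) ^ ((U.filter (fun w => σ w ∈ V)).card)
      = ∑ τ ∈ ((fixP q).filter (fun σ => σ c = x)).image (fun σ => Equiv.swap x c * σ),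
          (2 : ℝ) ^ ((U.filter (fun w => τ w ∈ V.image (Equiv.swap x c))).card) := by
        rw [Finset.sum_image hinj]
        refine Finset.sum_congr rfl fun σ _ => ?_
        congr 2
        ext w
        rw [Finset.mem_filter, Finset.mem_filter, Equiv.Perm.mul_apply,
          Finset.mem_image, and_congr_right_iff]
        intro _
        constructor
        · intro h
          exact ⟨_, h, rfl⟩
        · rintro ⟨v, hv, h⟩
          rw [← (Equiv.injective _ h)]
          exact hv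
    _ ≤ ∑ τ ∈ fixP (insert c q), (2 : ℝ) ^ ((U.filter (fun w => τ w ∈ V.image (Equiv.swap x c))).card) :=
        Finset.sum_le_sum_of_subset_of_nonneg hsub (fun _ _ _ => by positivity)

namespace Cd

variable {n : ℕ} (D : Cd n)

/-- free labels of row `m` outside the closure of `X` -/
def Vo (X : Finset (Fin n × Fin n)) (m : Fin n) : Finset (Fin n) :=
  univ.filter (fun x => (m, x) ∉ D.Q ∧ (m, x) ∉ cl D.R X)

/-- number of free elements of the free rows of column `c` outside the closure of `X` -/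
def Out (c : Fin n) (X : Finset (Fin n × Fin n)) : ℕ := ∑ m ∈ D.F c, (D.Vo X m).card

/-- number of the entries, in the columns of `U` and the free rows of column `c`, outside the closure of `X` -/
def cnt (c : Fin n) (X : Finset (Fin n × Fin n)) (U : Finset (Fin n)) (σ : Fin n → Equiv.Perm (Fin n)) : ℕ :=
  ∑ m ∈ D.F c, (U.filter (fun w => σ m w ∈ D.Vo X m)).card

/-- [s4] -/
theorem Out_eq (c : Fin n) (X : Finset (Fin n × Fin n)) :
    D.Out c X = (univ.filter (fun e : Fin n × Fin n => (e.1, c) ∉ D.Q ∧ e ∉ D.Q ∧ e ∉ cl D.R X)).card := by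
  rw [Finset.card_eq_sum_card_fiberwise (f := Prod.fst) (t := D.F c)]
  · unfold Out
    refine Finset.sum_congr rfl fun m hm => ?_
    unfold Vo
    refine Finset.card_bij (fun x _ => (m, x)) ?_ ?_ ?_
    · intro x hx
      rw [Finset.mem_filter] at hx
      rw [Finset.mem_filter, Finset.mem_filter]
      exact ⟨⟨Finset.mem_univ _, D.mem_F.1 hm, hx.2⟩, rfl⟩
    · intro x _ y _ h
      exact (Prod.ext_iff.1 h).2
    · intro e he
      rw [Finset.mem_filter, Finset.mem_filter] at he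
      obtain ⟨⟨-, -, h2, h3⟩, h4⟩ := he
      have h5 : (m, e.2) = e := Prod.ext h4.symm rfl
      refine ⟨e.2, ?_, h5⟩
      rw [Finset.mem_filter, h5]
      exact ⟨Finset.mem_univ _, h2, h3⟩
  · intro e he
    rw [Finset.mem_coe, Finset.mem_filter] at he
    exact Finset.mem_coe.2 (D.mem_F.2 he.2.1)

/-- [s4] `NH`. -/
theorem Out_nh (c : Fin n) (X : Finset (Fin n × Fin n)) (hX : ∀ i, (i, c) ∈ D.Q → (i, c) ∈ X)
    (hr : D.R.r X < n) : n * n ≤ D.L * D.Out c X := by
  rw [D.Out_eq]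
  exact D.NH c X hX hr

/-- [s4] -/
theorem Out_congr {X Y : Finset (Fin n × Fin n)} (h : cl D.R X = cl D.R Y) (c : Fin n) :
    D.Out c X = D.Out c Y ∧ ∀ U σ, D.cnt c X U σ = D.cnt c Y U σ := by
  have h1 : ∀ m, D.Vo X m = D.Vo Y m := by
    intro m
    unfold Vo
    rw [h]
  constructor
  · unfold Out
    simp only [h1]
  · intro U σ
    unfold cnt
    simp only [h1]

private theorem s5_row (c i : Fin n) {z : Fin n → Fin n} (hz : z ∈ D.Om c) (U : Finset (Fin n))
    (V : Finset (Fin n)) (hi : i ∈ D.F c) (hV : V ⊆ D.Gam i) (hzV : z i ∉ V) :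
    ∑ σ ∈ (fixP (D.Qr i)).filter (fun σ => σ c = z i), (2 : ℝ) ^ ((U.filter (fun w => σ w ∈ V)).card) ≤
      (fixP (D.Qr i)).card * (1 / (D.N : ℝ) * Real.exp (U.card * (V.card : ℝ) / ((D.N : ℝ) - 1))) := by
  have hN := D.N_big
  have hN2 : 2 ≤ D.N := by
    omega
  have ht : (D.Qr i).card = D.t := D.r2_Qr_card i
  have hNt : (n : ℝ) - (D.Qr i).card = D.N := by
    rw [ht]
    have := D.N_add
    have h2 : ((D.N + D.t : ℕ) : ℝ) = n := by rw [this]
    push_cast at h2
    linarith
  have h1 := mom1 (D.Qr i) U V (by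
      rw [Finset.disjoint_left]
      intro x hx hx2
      have := hV hx
      unfold Gam at this
      rw [Finset.mem_filter] at this
      exact this.2 (D.r1_Qr.1 hx2))
    (by rw [ht]; have := D.N_add; omega) (c := c) (x := z i)
    (fun h => (D.mem_F.1 hi) (D.r1_Qr.1 h)) (fun h => D.free_mem hz hi (D.r1_Qr.1 h)) hzV
  rw [hNt] at h1
  refine h1.trans ?_
  have hN3 : (2 : ℝ) ≤ D.N := by exact_mod_cast hN2
  have h3 : (1 + (V.card : ℝ) / ((D.N : ℝ) - 1)) ^ U.card ≤
      Real.exp (U.card * (V.card : ℝ) / ((D.N : ℝ) - 1)) := by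
    have h4 : 1 + (V.card : ℝ) / ((D.N : ℝ) - 1) ≤ Real.exp ((V.card : ℝ) / ((D.N : ℝ) - 1)) := by
      have := Real.add_one_le_exp ((V.card : ℝ) / ((D.N : ℝ) - 1))
      linarith
    have h5 : 0 ≤ 1 + (V.card : ℝ) / ((D.N : ℝ) - 1) := by
      have : 0 ≤ (V.card : ℝ) / ((D.N : ℝ) - 1) := div_nonneg (Nat.cast_nonneg _) (by linarith)
      linarith
    refine (pow_le_pow_left₀ h5 h4 _).trans ?_
    rw [← Real.exp_nat_mul, mul_div_assoc]
  rw [div_eq_mul_inv, mul_assoc, one_div]
  exact mul_le_mul_of_nonneg_left (mul_le_mul_of_nonneg_left h3 (by positivity)) (Nat.cast_nonneg _)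

/-- [s5] Proof: `Ar` is a product over the rows, the exponent is a sum over the rows (`Finset.prod_univ_sum`, `Fintype.piFinset`): the sum is
the product of the row sums; for `m ∈ F c` the row sum is `≤ |fixP|/N (1 + |V m|/(N-1))^|U| ≤ |fixP|/N exp (|U| |V m|/(N-1))` (`mom1` with
`q = Qr m`, `|q| = t`, `n - t = N`), for `m ∉ F c` it is `≤ |fixP|`; `|Ar| = ∏ |fixP|`, `|Om c| = N^N`, `|F c| = N`. -/
theorem mom_Ar (c : Fin n) {z : Fin n → Fin n} (hz : z ∈ D.Om c) (U : Finset (Fin n))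
    (V : Fin n → Finset (Fin n)) (hV : ∀ m ∈ D.F c, V m ⊆ D.Gam m ∧ z m ∉ V m) :
    ∑ σ ∈ D.Ar.filter (fun σ => colm σ c = z),
        (2 : ℝ) ^ (∑ m ∈ D.F c, (U.filter (fun w => σ m w ∈ V m)).card) ≤
      D.Ar.card / (D.Om c).card *
        Real.exp (U.card * (∑ m ∈ D.F c, ((V m).card : ℝ)) / ((D.N : ℝ) - 1)) := by
  have h1 : D.Ar.filter (fun σ => colm σ c = z) =
      Fintype.piFinset (fun i => (fixP (D.Qr i)).filter (fun σ => σ c = z i)) := by
    ext σ
    unfold Ar colm
    rw [Finset.mem_filter, Fintype.mem_piFinset, Fintype.mem_piFinset]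
    constructor
    · rintro ⟨a1, a2⟩ i
      exact Finset.mem_filter.2 ⟨a1 i, congrFun a2 i⟩
    · intro h
      exact ⟨fun i => (Finset.mem_filter.1 (h i)).1, funext fun i => (Finset.mem_filter.1 (h i)).2⟩
  have h2 : ∀ σ : Fin n → Equiv.Perm (Fin n),
      (2 : ℝ) ^ (∑ m ∈ D.F c, (U.filter (fun w => σ m w ∈ V m)).card) =
        ∏ i, (if i ∈ D.F c then (2 : ℝ) ^ (U.filter (fun w => σ i w ∈ V i)).card else 1) := by
    intro σ
    rw [← Finset.prod_pow_eq_pow_sum, Finset.prod_ite_mem, Finset.univ_inter]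
  rw [h1, Finset.sum_congr rfl (fun σ _ => h2 σ),
    ← Finset.prod_univ_sum (fun i => (fixP (D.Qr i)).filter (fun σ => σ c = z i))
      (fun i (s : Equiv.Perm (Fin n)) => if i ∈ D.F c then (2 : ℝ) ^ (U.filter (fun w => s w ∈ V i)).card else 1)]
  have h3 : ∀ i ∈ (univ : Finset (Fin n)),
      ∑ s ∈ (fixP (D.Qr i)).filter (fun σ => σ c = z i),
        (if i ∈ D.F c then (2 : ℝ) ^ (U.filter (fun w => s w ∈ V i)).card else 1) ≤
      (fixP (D.Qr i)).card * (if i ∈ D.F c then
        (1 / (D.N : ℝ) * Real.exp (U.card * ((V i).card : ℝ) / ((D.N : ℝ) - 1))) else 1) := by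
    intro i _
    by_cases hi : i ∈ D.F c
    · simp only [if_pos hi]
      exact D.s5_row c i hz U (V i) hi (hV i hi).1 (hV i hi).2
    · simp only [if_neg hi, Finset.sum_const, nsmul_eq_mul, mul_one]
      exact_mod_cast Finset.card_le_card (Finset.filter_subset _ _)
  refine (Finset.prod_le_prod (fun i _ => Finset.sum_nonneg (fun s _ => ?_)) h3).trans (le_of_eq ?_)
  · split_ifs <;> positivity
  rw [Finset.prod_mul_distrib, Finset.prod_ite_mem, Finset.univ_inter, Finset.prod_mul_distrib, Finset.prod_const,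
    D.card_F, ← Real.exp_sum, D.card_Om]
  have h4 : (D.Ar.card : ℝ) = ∏ i, ((fixP (D.Qr i)).card : ℝ) := by
    unfold Ar
    rw [Fintype.card_piFinset]
    push_cast
    rfl
  rw [h4, ← Finset.sum_div, ← Finset.mul_sum]
  push_cast
  rw [one_div, inv_pow, div_eq_mul_inv (∏ i, ((fixP (D.Qr i)).card : ℝ)), mul_assoc]

/-- [s6] Proof: Markov: with `v = Out c X` the `σ` on the left have `2^cnt ≥ 2^(v/8) = exp (v log 2 / 8)` and `log 2 / 8 > 0.086`; `mom_Ar` with
`V = Vo X` (`z m ∉ Vo X m` since `(m, z m) ∈ Zs z ⊆ X ⊆ cl X`); `|U|/(N-1) ≤ 1/2^9` since `2^11 |U| ≤ n ≤ 2 N`; `0.086 - 1/2^9 ≥ 1/16`. -/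
theorem tail_Ar (c : Fin n) {z : Fin n → Fin n} (hz : z ∈ D.Om c) (X : Finset (Fin n × Fin n))
    (hX : Zs z ⊆ X) (U : Finset (Fin n)) (hU : 2 ^ 11 * U.card ≤ n) :
    (((D.Ar.filter (fun σ => colm σ c = z ∧ D.Out c X < 8 * D.cnt c X U σ)).card : ℕ) : ℝ) ≤
      D.Ar.card / (D.Om c).card * Real.exp (-(D.Out c X : ℝ) / 16) := by
  have hNb := D.N_big
  have hn2 := D.n_le
  have hN2 : 2 ^ 23 ≤ D.N := by
    omega
  have hN1 : (0 : ℝ) < (D.N : ℝ) - 1 := by
    have h3 : (2 ^ 23 : ℝ) ≤ D.N := by exact_mod_cast hN2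
    have h4 : (1 : ℝ) < 2 ^ 23 := by norm_num
    linarith
  have hmem : ∀ m, (m, z m) ∈ cl D.R X := fun m =>
    subset_cl D.R X (hX (mem_Zs.2 rfl))
  have h1 := D.mom_Ar c hz U (D.Vo X) (fun m _ => ⟨fun x hx => ?_, fun hx => ?_⟩)
  · have hsum : (∑ m ∈ D.F c, ((D.Vo X m).card : ℝ)) = (D.Out c X : ℝ) := by
      unfold Out
      push_cast
      rfl
    rw [hsum] at h1
    set v : ℝ := (D.Out c X : ℝ) with hv
    have hv0 : 0 ≤ v := Nat.cast_nonneg _
    have hU' : (U.card : ℝ) * v / ((D.N : ℝ) - 1) ≤ v / 512 := by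
      have h5 : (2 : ℝ) ^ 11 * U.card ≤ n := by exact_mod_cast hU
      have h6 : (n : ℝ) ≤ 2 * D.N := by exact_mod_cast hn2
      have h3 : (2 ^ 23 : ℝ) ≤ D.N := by exact_mod_cast hN2
      have h7 : (U.card : ℝ) * 512 ≤ (D.N : ℝ) - 1 := by
        have h8 : (2 : ℝ) ^ 11 = 2048 := by norm_num
        have h9 : (2 : ℝ) ^ 23 = 8388608 := by norm_num
        rw [h8] at h5
        rw [h9] at h3
        linarith
      rw [div_le_div_iff₀ hN1 (by norm_num)]
      nlinarith
    have hlog : (0.6931471803 : ℝ) < Real.log 2 := Real.log_two_gt_d9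
    set B : Finset (Fin n → Equiv.Perm (Fin n)) :=
      D.Ar.filter (fun σ => colm σ c = z ∧ D.Out c X < 8 * D.cnt c X U σ) with hB
    have h2 : (B.card : ℝ) * Real.exp (v * Real.log 2 / 8) ≤
        ∑ σ ∈ D.Ar.filter (fun σ => colm σ c = z),
          (2 : ℝ) ^ (∑ m ∈ D.F c, (U.filter (fun w => σ m w ∈ D.Vo X m)).card) := by
      have hsub : B ⊆ D.Ar.filter (fun σ => colm σ c = z) := by
        intro σ hσ
        rw [hB, Finset.mem_filter] at hσ
        exact Finset.mem_filter.2 ⟨hσ.1, hσ.2.1⟩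
      refine le_trans ?_ (Finset.sum_le_sum_of_subset_of_nonneg hsub fun σ _ _ => by positivity)
      rw [← nsmul_eq_mul, ← Finset.sum_const]
      refine Finset.sum_le_sum fun σ hσ => ?_
      rw [hB, Finset.mem_filter] at hσ
      have h3 : (D.Out c X : ℝ) ≤ 8 * (D.cnt c X U σ : ℝ) := by exact_mod_cast hσ.2.2.le
      have h4 : Real.exp (v * Real.log 2 / 8) ≤ Real.exp ((D.cnt c X U σ : ℝ) * Real.log 2) := by
        rw [Real.exp_le_exp]
        have : 0 < Real.log 2 := by linarith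
        nlinarith
      refine h4.trans (le_of_eq ?_)
      rw [Real.exp_nat_mul, Real.exp_log (by norm_num)]
      rfl
    have hA : (0 : ℝ) ≤ (D.Ar.card : ℝ) / (D.Om c).card := by positivity
    have h3 : (B.card : ℝ) * Real.exp (v * Real.log 2 / 8) ≤
        (D.Ar.card : ℝ) / (D.Om c).card * Real.exp (v / 512) :=
      (h2.trans h1).trans (mul_le_mul_of_nonneg_left (Real.exp_le_exp.2 hU') hA)
    have h4 : Real.exp (v / 512) ≤ Real.exp (-v / 16) * Real.exp (v * Real.log 2 / 8) := by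
      rw [← Real.exp_add, Real.exp_le_exp]
      nlinarith
    have h5 : (B.card : ℝ) * Real.exp (v * Real.log 2 / 8) ≤
        (D.Ar.card : ℝ) / (D.Om c).card * Real.exp (-v / 16) *
          Real.exp (v * Real.log 2 / 8) := by
      refine h3.trans ?_
      rw [mul_assoc]
      exact mul_le_mul_of_nonneg_left h4 hA
    exact le_of_mul_le_mul_right h5 (Real.exp_pos _)
  · have h2 := (Finset.mem_filter.1 hx).2.1
    exact Finset.mem_filter.2 ⟨Finset.mem_univ _, h2⟩
  · exact (Finset.mem_filter.1 hx).2.2 (hmem m)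

/-- the current closures are spread over the columns -/
def Spread (σ : Fin n → Equiv.Perm (Fin n)) : Prop :=
  ∀ (c : Fin n) (y : Fin D.k → Fin n × Fin n) (U : Finset (Fin n)), 2 ^ 11 * U.card ≤ n →
    D.R.r (Zs (colm σ c) ∪ univ.image y) < n →
    8 * D.cnt c (Zs (colm σ c) ∪ univ.image y) U σ ≤ D.Out c (Zs (colm σ c) ∪ univ.image y)

open Classical in
/-- [s7] Proof: the sum over `z ∈ Om c` (`colm_mem`) of `tail_Ar` for `X = Zs z ∪ image y` if this has rank `< n`, where
`Out ≥ n²/L` (`Out_nh`, `core_Zs`). -/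
theorem bad_cyU (c : Fin n) (y : Fin D.k → Fin n × Fin n) (U : Finset (Fin n)) (hU : 2 ^ 11 * U.card ≤ n) :
    (((D.Ar.filter (fun σ => D.R.r (Zs (colm σ c) ∪ univ.image y) < n ∧
      D.Out c (Zs (colm σ c) ∪ univ.image y) < 8 * D.cnt c (Zs (colm σ c) ∪ univ.image y) U σ)).card : ℕ) : ℝ) ≤
      D.Ar.card * Real.exp (-(n : ℝ) ^ 2 / (16 * D.L)) := by
  set B : Finset (Fin n → Equiv.Perm (Fin n)) :=
    D.Ar.filter (fun σ => D.R.r (Zs (colm σ c) ∪ univ.image y) < n ∧
      D.Out c (Zs (colm σ c) ∪ univ.image y) < 8 * D.cnt c (Zs (colm σ c) ∪ univ.image y) U σ)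
    with hB
  have hO : (0 : ℝ) < (D.Om c).card := by exact_mod_cast D.Om_pos c
  have h1 : (B.card : ℕ) = ∑ z ∈ D.Om c, (B.filter (fun σ => colm σ c = z)).card := by
    refine Finset.card_eq_sum_card_fiberwise fun σ hσ => ?_
    rw [hB, Finset.coe_filter] at hσ
    exact D.colm_mem hσ.1 c
  have h2 : ∀ z ∈ D.Om c, ((B.filter (fun σ => colm σ c = z)).card : ℝ) ≤
      D.Ar.card / (D.Om c).card * Real.exp (-(n : ℝ) ^ 2 / (16 * D.L)) := by
    intro z hz
    by_cases hr : D.R.r (Zs z ∪ univ.image y) < n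
    · have h3 := D.tail_Ar c hz (Zs z ∪ univ.image y) Finset.subset_union_left U hU
      have h4 : ((B.filter (fun σ => colm σ c = z)).card : ℝ) ≤
          (((D.Ar.filter (fun σ => colm σ c = z ∧ D.Out c (Zs z ∪ univ.image y) <
            8 * D.cnt c (Zs z ∪ univ.image y) U σ)).card : ℕ) : ℝ) := by
        have : (B.filter (fun σ => colm σ c = z)).card ≤
            (D.Ar.filter (fun σ => colm σ c = z ∧ D.Out c (Zs z ∪ univ.image y) <
            8 * D.cnt c (Zs z ∪ univ.image y) U σ)).card := by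
          refine Finset.card_le_card fun σ hσ => ?_
          rw [Finset.mem_filter, hB, Finset.mem_filter] at hσ
          obtain ⟨⟨h5, -, h6⟩, h7⟩ := hσ
          rw [h7] at h6
          exact Finset.mem_filter.2 ⟨h5, h7, h6⟩
        exact_mod_cast this
      refine h4.trans (h3.trans (mul_le_mul_of_nonneg_left ?_ (by positivity)))
      rw [Real.exp_le_exp]
      have h5 := D.Out_nh c (Zs z ∪ univ.image y)
        (fun i hi => Finset.mem_union_left _ (D.core_Zs hz i hi)) hr
      have h6 : (n : ℝ) ^ 2 ≤ D.L * D.Out c (Zs z ∪ univ.image y) := by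
        rw [pow_two]
        exact_mod_cast h5
      have hL := D.L_ge
      rw [neg_div, neg_div, neg_le_neg_iff, div_le_div_iff₀ (by positivity) (by norm_num)]
      linarith
    · have h3 : B.filter (fun σ => colm σ c = z) = ∅ := by
        refine Finset.filter_eq_empty_iff.2 fun σ hσ h7 => hr ?_
        rw [hB, Finset.mem_filter] at hσ
        rw [← h7]
        exact hσ.2.1
      rw [h3, Finset.card_empty, Nat.cast_zero]
      positivity
  have h3 : (B.card : ℝ) = ∑ z ∈ D.Om c, ((B.filter (fun σ => colm σ c = z)).card : ℝ) := by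
    exact_mod_cast h1
  rw [h3]
  refine (Finset.sum_le_sum h2).trans (le_of_eq ?_)
  rw [Finset.sum_const, nsmul_eq_mul]
  field_simp

open Classical in
/-- [s8] Proof: union bound over `n` columns, `(n²)^k` functions `y`, `2^n` sets `U`: with `K = k + 1`
`8 n n^(2k) 2^n ≤ exp (3 + (2k + 1) n + n) ≤ exp (n²/(16 L))` since `n ≥ 2^22 L K`. -/
theorem bad_spread : 8 * ((D.Ar.filter (fun σ => ¬ D.Spread σ)).card : ℝ) ≤ D.Ar.card := by
  set Bd : Fin n → (Fin D.k → Fin n × Fin n) → Finset (Fin n) →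
      Finset (Fin n → Equiv.Perm (Fin n)) := fun c y U =>
    D.Ar.filter (fun σ => D.R.r (Zs (colm σ c) ∪ univ.image y) < n ∧
      D.Out c (Zs (colm σ c) ∪ univ.image y) < 8 * D.cnt c (Zs (colm σ c) ∪ univ.image y) U σ)
    with hBd
  set P : Finset (Finset (Fin n)) := (univ : Finset (Finset (Fin n))).filter
    (fun U => 2 ^ 11 * U.card ≤ n) with hP
  have hsub : D.Ar.filter (fun σ => ¬ D.Spread σ) ⊆
      (univ : Finset (Fin n)).biUnion fun c => (univ : Finset (Fin D.k → Fin n × Fin n)).biUnion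
        fun y => P.biUnion fun U => Bd c y U := by
    intro σ hσ
    rw [Finset.mem_filter] at hσ
    obtain ⟨h1, h2⟩ := hσ
    unfold Spread at h2
    push Not at h2
    obtain ⟨c, y, U, hU, hr, hlt⟩ := h2
    refine Finset.mem_biUnion.2 ⟨c, Finset.mem_univ _, Finset.mem_biUnion.2
      ⟨y, Finset.mem_univ _, Finset.mem_biUnion.2 ⟨U, ?_, ?_⟩⟩⟩
    · exact Finset.mem_filter.2 ⟨Finset.mem_univ _, hU⟩
    · exact Finset.mem_filter.2 ⟨h1, hr, hlt⟩
  set ε : ℝ := Real.exp (-(n : ℝ) ^ 2 / (16 * D.L)) with hε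
  have hε0 : 0 ≤ ε := (Real.exp_pos _).le
  have hA0 : (0 : ℝ) ≤ D.Ar.card := Nat.cast_nonneg _
  have h1 : ((D.Ar.filter (fun σ => ¬ D.Spread σ)).card : ℝ) ≤
      ∑ c : Fin n, ∑ y : Fin D.k → Fin n × Fin n, ∑ U ∈ P, ((Bd c y U).card : ℝ) := by
    have h2 : (D.Ar.filter (fun σ => ¬ D.Spread σ)).card ≤
        ∑ c : Fin n, ∑ y : Fin D.k → Fin n × Fin n, ∑ U ∈ P, (Bd c y U).card :=
      (Finset.card_le_card hsub).trans (Finset.card_biUnion_le.trans
        (Finset.sum_le_sum fun c _ => Finset.card_biUnion_le.trans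
          (Finset.sum_le_sum fun y _ => Finset.card_biUnion_le)))
    exact_mod_cast h2
  have h2 : ∑ c : Fin n, ∑ y : Fin D.k → Fin n × Fin n, ∑ U ∈ P, ((Bd c y U).card : ℝ) ≤
      (n : ℝ) * ((((n : ℝ) * n) ^ D.k) * (2 ^ n * (D.Ar.card * ε))) := by
    have h3 : ∀ c (y : Fin D.k → Fin n × Fin n), ∑ U ∈ P, ((Bd c y U).card : ℝ) ≤
        2 ^ n * (D.Ar.card * ε) := by
      intro c y
      have h4 : ∀ U ∈ P, ((Bd c y U).card : ℝ) ≤ D.Ar.card * ε := fun U hU =>
        D.bad_cyU c y U (Finset.mem_filter.1 hU).2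
      refine (Finset.sum_le_sum h4).trans ?_
      rw [Finset.sum_const, nsmul_eq_mul]
      refine mul_le_mul_of_nonneg_right ?_ (mul_nonneg hA0 hε0)
      have h5 : P.card ≤ 2 ^ n := by
        refine (Finset.card_filter_le _ _).trans (le_of_eq ?_)
        rw [Finset.card_univ, Fintype.card_finset, Fintype.card_fin]
      exact_mod_cast h5
    have h6 : ∀ c : Fin n, ∑ y : Fin D.k → Fin n × Fin n, ∑ U ∈ P, ((Bd c y U).card : ℝ) ≤
        (((n : ℝ) * n) ^ D.k) * (2 ^ n * (D.Ar.card * ε)) := by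
      intro c
      refine (Finset.sum_le_sum fun y _ => h3 c y).trans (le_of_eq ?_)
      rw [Finset.sum_const, nsmul_eq_mul, Finset.card_univ, Fintype.card_fun, Fintype.card_prod,
        Fintype.card_fin, Fintype.card_fin]
      push_cast
      rfl
    refine (Finset.sum_le_sum fun c _ => h6 c).trans (le_of_eq ?_)
    rw [Finset.sum_const, nsmul_eq_mul, Finset.card_univ, Fintype.card_fin]
  have hn1 : (n : ℝ) ≤ Real.exp n := by
    have := Real.add_one_le_exp (n : ℝ)
    linarith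
  have h8 : (8 : ℝ) ≤ Real.exp 3 := by
    have h9 := Real.add_one_le_exp (1 : ℝ)
    have h10 : Real.exp 3 = Real.exp 1 ^ 3 := by
      rw [← Real.exp_nat_mul]
      norm_num
    rw [h10]
    calc (8 : ℝ) = 2 ^ 3 := by norm_num
      _ ≤ Real.exp 1 ^ 3 := by gcongr; linarith
  have h2n : (2 : ℝ) ^ n ≤ Real.exp n := by
    have h9 := Real.add_one_le_exp (1 : ℝ)
    have h10 : Real.exp n = Real.exp 1 ^ n := by
      rw [← Real.exp_nat_mul, mul_one]
    rw [h10]
    gcongr
    linarith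
  have hkey : 8 * ((n : ℝ) * ((((n : ℝ) * n) ^ D.k) * (2 ^ n * ε))) ≤ 1 := by
    have h9 : ((n : ℝ) * n) ^ D.k ≤ Real.exp (2 * n * D.k) := by
      calc ((n : ℝ) * n) ^ D.k ≤ (Real.exp n * Real.exp n) ^ D.k := by gcongr
        _ = Real.exp (2 * n * D.k) := by
          rw [← Real.exp_add, ← Real.exp_nat_mul]
          congr 1
          ring
    have h10 : 8 * ((n : ℝ) * ((((n : ℝ) * n) ^ D.k) * (2 ^ n * ε))) ≤
        Real.exp 3 * (Real.exp n * (Real.exp (2 * n * D.k) * (Real.exp n * ε))) := by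
      gcongr
    refine h10.trans ?_
    rw [hε, ← Real.exp_add, ← Real.exp_add, ← Real.exp_add, ← Real.exp_add]
    rw [Real.exp_le_one_iff]
    have hb : (2 : ℝ) ^ 22 * ((D.L : ℝ) * ((D.k : ℝ) + 1)) ≤ n := by
      have h : ((2 ^ 22 * (D.L * (D.k + 1)) : ℕ) : ℝ) ≤ n := by exact_mod_cast D.bigK
      push_cast at h
      linarith
    have hL := D.L_ge
    have hk1 : (1 : ℝ) ≤ (D.k : ℝ) + 1 := by
      have : (0 : ℝ) ≤ D.k := Nat.cast_nonneg _
      linarith
    have hk0 : (0 : ℝ) < 16 * (D.L : ℝ) := by positivity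
    have hn0 : (0 : ℝ) ≤ n := Nat.cast_nonneg _
    have h11 : 3 + 2 * ((D.k : ℝ) + 1) * n ≤ (n : ℝ) ^ 2 / (16 * D.L) := by
      rw [le_div_iff₀ hk0]
      have h12 : (2 : ℝ) ^ 22 * ((D.L : ℝ) * ((D.k : ℝ) + 1)) * n ≤ (n : ℝ) ^ 2 := by
        rw [pow_two (n : ℝ)]
        exact mul_le_mul_of_nonneg_right hb hn0
      have h14 : (D.L : ℝ) ≤ (D.L : ℝ) * ((D.k : ℝ) + 1) := by nlinarith
      have h13 : (1 : ℝ) ≤ n := by linarith
      have h16 : (D.L : ℝ) * 1 ≤ (D.L : ℝ) * ((D.k : ℝ) + 1) * n :=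
        mul_le_mul h14 h13 zero_le_one (by positivity)
      nlinarith
    rw [neg_div]
    linarith
  calc 8 * ((D.Ar.filter (fun σ => ¬ D.Spread σ)).card : ℝ)
      ≤ 8 * ((n : ℝ) * ((((n : ℝ) * n) ^ D.k) * (2 ^ n * (D.Ar.card * ε)))) := by
        linarith [h1.trans h2]
    _ = D.Ar.card * (8 * ((n : ℝ) * ((((n : ℝ) * n) ^ D.k) * (2 ^ n * ε)))) := by ring
    _ ≤ D.Ar.card * 1 := mul_le_mul_of_nonneg_left hkey hA0
    _ = D.Ar.card := mul_one _

end Cd

end Pool.Agent.RGs
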